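import Mathlib
import Pool.Agent.H720R2.Cor.Lim

/-!
Characters of the Banach algebra of bounded holomorphic functions.
-/

set_option autoImplicit false

open Metric Set Filter Topology

namespace Pool.Agent.N290.R5

variable {X : Type} [NormedAddCommGroup X] [NormedSpace ℂ X]

/-- bounded holomorphic functions on `Ω` -/
def BH (Ω : Set X) (f : X → ℂ) : Prop :=
  DifferentiableOn ℂ f Ω ∧ ∃ M : ℝ, ∀ z ∈ Ω, ‖f z‖ ≤ M

/-- a character of the algebra of bounded holomorphic functions on `Ω` -/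
structure Chr (Ω : Set X) (χ : (X → ℂ) → ℂ) : Prop where
  add : ∀ f g, BH Ω f → BH Ω g → χ (fun z => f z + g z) = χ f + χ g
  mul : ∀ f g, BH Ω f → BH Ω g → χ (fun z => f z * g z) = χ f * χ g
  const : ∀ c : ℂ, χ (fun _ => c) = c
  le : ∀ f C, BH Ω f → 0 ≤ C → (∀ z ∈ Ω, ‖f z‖ ≤ C) → ‖χ f‖ ≤ C
  congr : ∀ f g, BH Ω f → BH Ω g → (∀ z ∈ Ω, f z = g z) → χ f = χ g

section

variable (Ω : Set X)

/-- the algebra `H^∞` -/
noncomputable def HA : Subalgebra ℂ (BoundedContinuousFunction Ω ℂ) where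
  carrier := {F | ∃ f : X → ℂ, DifferentiableOn ℂ f Ω ∧ ∀ z : Ω, F z = f z}
  mul_mem' := by
    rintro F G ⟨f, hf, hF⟩ ⟨g, hg, hG⟩
    refine ⟨fun z => f z * g z, hf.mul hg, fun z => ?_⟩
    rw [BoundedContinuousFunction.mul_apply, hF, hG]
  add_mem' := by
    rintro F G ⟨f, hf, hF⟩ ⟨g, hg, hG⟩
    refine ⟨fun z => f z + g z, hf.add hg, fun z => ?_⟩
    rw [BoundedContinuousFunction.add_apply, hF, hG]
  algebraMap_mem' := by
    intro c
    exact ⟨fun _ => c, differentiableOn_const _, fun z => rfl⟩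

variable {Ω}

theorem isClosed_HA (hΩ : IsOpen Ω) : IsClosed ((HA Ω : Subalgebra ℂ
    (BoundedContinuousFunction Ω ℂ)) : Set (BoundedContinuousFunction Ω ℂ)) := by
  apply IsSeqClosed.isClosed
  intro F G hF hG
  choose f hf hFf using hF
  have hbd : ∃ C : ℝ, ∀ k, ‖F k‖ ≤ C := by
    obtain ⟨C, hC⟩ := hG.norm.bddAbove_range
    exact ⟨C, fun k => hC ⟨k, rfl⟩⟩
  obtain ⟨C, hC⟩ := hbd
  obtain ⟨g, hg, -, hlim⟩ := Pool.Agent.H720R2.Cor.ultra_lim hΩ
    (C := C) (Ultrafilter.of (atTop : Filter ℕ)) f hf (fun k z hz => by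
      have := (F k).norm_coe_le_norm ⟨z, hz⟩
      rw [hFf] at this
      exact this.trans (hC k))
  refine ⟨g, hg, fun z => ?_⟩
  have h1 : Tendsto (fun k => f k z) atTop (𝓝 (G z)) := by
    have h2 := ((BoundedContinuousFunction.tendsto_iff_tendstoUniformly.1 hG).tendsto_at z)
    refine h2.congr (fun k => ?_)
    exact hFf k z
  exact tendsto_nhds_unique (h1.mono_left (Ultrafilter.of_le _)) (hlim z z.2)

/-- elements of `H^∞` -/
noncomputable def mkH {f : X → ℂ} (hf : BH Ω f) : HA Ω :=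
  ⟨BoundedContinuousFunction.ofNormedAddCommGroup (fun z : Ω => f z)
    (continuousOn_iff_continuous_domRestrict.1 hf.1.continuousOn) hf.2.choose
    (fun z => hf.2.choose_spec z z.2), f, hf.1, fun z => rfl⟩

theorem mkH_apply {f : X → ℂ} (hf : BH Ω f) (z : Ω) : (mkH hf).1 z = f z := rfl

theorem HA_ext {F G : HA Ω} (h : ∀ z : Ω, F.1 z = G.1 z) : F = G := by
  apply Subtype.ext
  ext z
  exact h z

theorem HA_norm_le {F : HA Ω} {C : ℝ} (hC : 0 ≤ C) (h : ∀ z : Ω, ‖F.1 z‖ ≤ C) : ‖F‖ ≤ C :=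
  (BoundedContinuousFunction.norm_le hC).2 h

theorem HA_le_norm (F : HA Ω) (z : Ω) : ‖F.1 z‖ ≤ ‖F‖ := F.1.norm_coe_le_norm z

theorem HA_sum_apply {ι : Type*} (s : Finset ι) (F : ι → HA Ω) (z : Ω) :
    (∑ i ∈ s, F i).1 z = ∑ i ∈ s, (F i).1 z := by
  classical
  induction s using Finset.induction_on with
  | empty => rfl
  | insert i s hi ih =>
    rw [Finset.sum_insert hi, Finset.sum_insert hi, ← ih]
    rfl

/-- **A character killing functions without Bezout solutions.** -/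
theorem gelf (hΩ : IsOpen Ω) (hne : Ω.Nonempty) {κ : Type} [Fintype κ] {φ : κ → X → ℂ}
    (hφ : ∀ i, BH Ω (φ i))
    (h : ¬∃ g : κ → X → ℂ, (∀ i, BH Ω (g i)) ∧ ∀ z ∈ Ω, ∑ i, φ i z * g i z = 1) :
    ∃ χ : (X → ℂ) → ℂ, Chr Ω χ ∧ ∀ i, χ (φ i) = 0 := by
  classical
  obtain ⟨z₀, hz₀⟩ := hne
  have : Nonempty Ω := ⟨⟨z₀, hz₀⟩⟩
  have : CompleteSpace (HA Ω) := (isClosed_HA hΩ).completeSpace_coe
  set I : Ideal (HA Ω) := Ideal.span (range fun i => mkH (hφ i)) with hI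
  have hItop : I ≠ ⊤ := by
    intro htop
    have h1 : (1 : HA Ω) ∈ I := by rw [htop]; trivial
    rw [hI, Ideal.mem_span_range_iff_exists_fun] at h1
    obtain ⟨c, hc⟩ := h1
    apply h
    choose g hg hcg using fun i => (c i).2
    refine ⟨g, fun i => ⟨hg i, ‖c i‖, fun z hz => ?_⟩, fun z hz => ?_⟩
    · have := HA_le_norm (c i) ⟨z, hz⟩
      rw [hcg i] at this
      exact this
    · have h2 : (∑ i, c i * mkH (hφ i)).1 ⟨z, hz⟩ = (1 : HA Ω).1 ⟨z, hz⟩ := by rw [hc]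
      rw [HA_sum_apply] at h2
      have h3 : ∀ i, (c i * mkH (hφ i)).1 ⟨z, hz⟩ = φ i z * g i z := by
        intro i
        change (c i).1 ⟨z, hz⟩ * φ i z = _
        rw [hcg i, mul_comm]
      simp only [h3] at h2
      exact h2
  obtain ⟨m, hm, hIm⟩ := Ideal.exists_le_maximal I hItop
  set ψ := m.toCharacterSpace with hψ
  have hψ0 : ∀ F ∈ m, ψ F = 0 := fun F hF => m.toCharacterSpace_apply_eq_zero_of_mem hF
  have hle : ∀ F : HA Ω, ‖ψ F‖ ≤ ‖F‖ := by
    intro F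
    have h := AlgHom.apply_mem_spectrum ψ F
    have h2 := spectrum.norm_le_norm_mul_of_mem h
    have h3 : ‖(1 : HA Ω)‖ ≤ 1 := HA_norm_le zero_le_one (fun z => by
      change ‖(1 : ℂ)‖ ≤ 1
      simp)
    calc ‖ψ F‖ ≤ ‖F‖ * ‖(1 : HA Ω)‖ := h2
      _ ≤ ‖F‖ * 1 := by gcongr
      _ = ‖F‖ := mul_one _
  set χ : (X → ℂ) → ℂ := fun f => if hf : BH Ω f then ψ (mkH hf) else 0 with hχ
  have hχe : ∀ f (hf : BH Ω f), χ f = ψ (mkH hf) := by
    intro f hf
    simp only [hχ, dif_pos hf]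
  refine ⟨χ, ⟨?_, ?_, ?_, ?_, ?_⟩, ?_⟩
  · intro f g hf hg
    have hfg : BH Ω (fun z => f z + g z) := by
      obtain ⟨M, hM⟩ := hf.2
      obtain ⟨M', hM'⟩ := hg.2
      exact ⟨hf.1.add hg.1, M + M', fun z hz => (norm_add_le _ _).trans
        (add_le_add (hM z hz) (hM' z hz))⟩
    rw [hχe _ hf, hχe _ hg, hχe _ hfg, ← map_add]
    congr 1
  · intro f g hf hg
    have hfg : BH Ω (fun z => f z * g z) := by
      obtain ⟨M, hM⟩ := hf.2
      obtain ⟨M', hM'⟩ := hg.2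
      refine ⟨hf.1.mul hg.1, M * M', fun z hz => ?_⟩
      rw [norm_mul]
      exact mul_le_mul (hM z hz) (hM' z hz) (norm_nonneg _) ((norm_nonneg _).trans (hM z hz))
    rw [hχe _ hf, hχe _ hg, hχe _ hfg, ← map_mul]
    congr 1
  · intro c
    have hc : BH Ω (fun _ : X => c) := ⟨differentiableOn_const _, ‖c‖, fun z _ => le_rfl⟩
    rw [hχe _ hc]
    have e : mkH hc = algebraMap ℂ (HA Ω) c := by
      apply HA_ext
      intro z
      rfl
    rw [e]
    have := AlgHomClass.commutes ψ c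
    simpa using this
  · intro f C hf hC hfC
    rw [hχe _ hf]
    refine (hle _).trans (HA_norm_le hC (fun z => ?_))
    rw [mkH_apply]
    exact hfC z z.2
  · intro f g hf hg hfg
    rw [hχe _ hf, hχe _ hg]
    congr 1
    apply HA_ext
    intro z
    rw [mkH_apply, mkH_apply]
    exact hfg z z.2
  · intro i
    rw [hχe _ (hφ i)]
    exact hψ0 _ (hIm (Ideal.subset_span ⟨i, rfl⟩))

end

end Pool.Agent.N290.R5
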