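import Mathlib
import Pool.Agent.H720R2.HP.CutN
import Pool.Agent.N290.RC.BaseY

/-!
One-variable decomposition: a bounded holomorphic function `k` on `R ∩ {|f| < η}`, `R` an open subset
of the half plane and `f` a nice bounded holomorphic function of the half plane, is `k' + f u` with
bounded holomorphic `k'` on `R` and `u` on `R ∩ {|f| < η}`.
-/

set_option autoImplicit false
set_option linter.unusedSectionVars false

open MeasureTheory Metric Set Filter Topology Complex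
open scoped ContDiff

namespace Pool.Agent.N290.R5

open Pool.Agent.H720R2 Pool.Agent.H720R2.HP
open Pool.Agent.H788R3.Cor3 (mul_C1 open_all)
open Pool.Agent.Y263.SC

theorem wd_mono {Ω Ω' : Set ℂ} {V ν : ℂ → ℂ} (h : WD Ω V ν) (hs : Ω' ⊆ Ω) : WD Ω' V ν :=
  ⟨h.cont.mono hs, h.li.mono_set hs, fun φ h1 h2 h3 => h.weak φ h1 h2 (h3.trans hs)⟩

/-- the decomposition property with constant `C` for a function `f` on `S` -/
def Dec (S : Set ℂ) (f : ℂ → ℂ) (η C : ℝ) : Prop :=
  ∀ R : Set ℂ, IsOpen R → R ⊆ S → ∀ (k : ℂ → ℂ) (Q : ℝ), 0 ≤ Q →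
    DifferentiableOn ℂ k {w | w ∈ R ∧ ‖f w‖ < η} → (∀ w ∈ R, ‖f w‖ < η → ‖k w‖ ≤ Q) →
    ∃ k' u : ℂ → ℂ, DifferentiableOn ℂ k' R ∧ DifferentiableOn ℂ u {w | w ∈ R ∧ ‖f w‖ < η} ∧
      (∀ w ∈ R, ‖k' w‖ ≤ C * Q) ∧ (∀ w ∈ R, ‖f w‖ < η → ‖u w‖ ≤ C * Q) ∧
      ∀ w ∈ R, ‖f w‖ < η → k w = k' w + f w * u w

theorem ep_UH {η : ℝ} (hη : 0 < η) (hη1 : η ≤ 1) : ∃ C : ℝ, 0 ≤ C ∧
    ∀ (f : Fin 1 → ℂ → ℂ) (δ : ℝ), 0 < δ →
    (∀ i, DifferentiableOn ℂ (f i) {w : ℂ | -δ < w.im}) →
    (∀ i, ∀ w : ℂ, 0 ≤ w.im → ‖f i w‖ ≤ 1) →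
    (∀ i, ∃ c : ℂ, Tendsto (f i) (Bornology.cobounded ℂ ⊓ 𝓟 {w : ℂ | 0 ≤ w.im}) (𝓝 c)) →
    Dec UH (f 0) η C := by
  obtain ⟨ε', C, hε', hC, hcut⟩ := cutN 1 (ε := η / 2) (by positivity) (by linarith)
  refine ⟨max (1 + 2160 * Real.exp C * (C / ε')) (1 / ε' + 2160 * Real.exp C * (C / ε')),
    le_max_of_le_left (by positivity), ?_⟩
  intro f δ hδ hfd hfb hlim R hR hRU k Q hQ hk hkb
  obtain ⟨S, a, Rg, χ, h⟩ := hcut f δ (fun i => ⟨hδ, hfd i, hfb i⟩) hlim
  have hf : ∀ i, DifferentiableOn ℂ (f i) UH := fun i => (hfd i).mono (fun w hw => by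
      change -δ < w.im
      have : (0 : ℝ) < w.im := hw
      linarith)
  set D : Set (ℂ × ℂ) := {p | p.1 ∈ R} with hD
  have hr : Ov D := ⟨hR.preimage continuous_fst, fun p hp => hRU hp⟩
  set O : Set ℂ := {w | w ∈ R ∧ ‖f 0 w‖ < η} with hO
  have hOo : IsOpen O := by
    have hc : ContinuousOn (fun w => ‖f 0 w‖) R := ((hf 0).continuousOn.mono hRU).norm
    exact hc.isOpen_inter_preimage hR (isOpen_Iio (a := η))
  classical
  set kt : ℂ → ℂ := O.piecewise k 0 with hkt
  have hktm : Measurable kt :=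
    ContinuousOn.measurable_piecewise hk.continuousOn continuousOn_const hOo.measurableSet
  have hkte : ∀ w ∈ O, kt w = k w := fun w hw => piecewise_eq_of_mem _ _ _ hw
  have hktb : ∀ w, ‖kt w‖ ≤ Q := by
    intro w
    by_cases hw : w ∈ O
    · rw [hkte w hw]; exact hkb w hw.1 hw.2
    · rw [hkt, piecewise_eq_of_notMem _ _ _ hw]; simpa using hQ
  have hX : Ext D (AA f (η / 2)) (fun p => (k p.1)⁻¹) Q (fun ζ _ => kt ζ) := by
    refine ⟨fun y => hktm.comp measurable_fst, ?_, fun ζ _ => differentiableOn_const _,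
      fun ζ _ p _ => hktb ζ⟩
    intro ζ hζ y hy
    have hm : ζ ∈ O := ⟨hy, by have := hζ.2 0; linarith⟩
    simp only [inv_inv]
    exact hkte ζ hm
  obtain ⟨V, hV1, hV2', hV3⟩ := jones_opX hr h.fam hX hQ (den1' h hε' hC.le hf 0)
  have hV2 : WD R (fun w => V (w, 0)) (fun w => mu1 f S Rg χ 0 w * k w) := by
    have h1 := hV2' 0
    simp only [inv_inv] at h1
    exact h1
  have hχO : ∀ w ∈ R, χ none w ≠ 0 → w ∈ O := fun w hw hχ =>
    ⟨hw, by have := h.small w (hRU hw) hχ 0; linarith⟩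
  set C1 : ℝ := 2160 * Real.exp C * (C / ε') * Q with hC1
  have hC10 : 0 ≤ C1 := by positivity
  have hV1' : ∀ w ∈ R, ‖V (w, 0)‖ ≤ C1 := fun w hw => hV1 (w, 0) hw
  have hDD : ∀ w, (DD f w : ℂ) = f 0 w * starRingEnd ℂ (f 0 w) := by
    intro w
    rw [← conj_sum]
    simp
  refine ⟨fun w => χ none w * k w - f 0 w * V (w, 0),
    fun w => χ (some 0) w / f 0 w * k w + V (w, 0), ?_, ?_, ?_, ?_, ?_⟩
  · obtain ⟨hc1, hc2⟩ := mul_C1 (Ω := R) (O := {w | ‖f 0 w‖ < η ∧ w ∈ R}) hR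
      (by
        have : {w | ‖f 0 w‖ < η ∧ w ∈ R} = O := by
          ext w; exact and_comm
        rw [this]; exact hOo) hRU (g := k)
      (hk.mono (fun w hw => ⟨hw.1, hw.2.1⟩)) (h.smooth none) (by
        intro w hw hwO
        have hge : η ≤ ‖f 0 w‖ := by
          by_contra hlt
          exact hwO ⟨not_le.1 hlt, hw⟩
        have hc : ContinuousAt (f 0) w :=
          ((hf 0).differentiableAt (isOpen_UH.mem_nhds (hRU hw))).continuousAt
        have h1 : ∀ᶠ z in 𝓝 w, η / 2 < ‖f 0 z‖ :=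
          hc.norm.eventually (lt_mem_nhds (by
            change η / 2 < ‖f 0 w‖
            linarith))
        filter_upwards [h1, isOpen_UH.mem_nhds (hRU hw)] with z hz1 hz2
        by_contra hne
        exact absurd (h.small z hz2 hne 0) (not_le.2 hz1))
    have hw1 : WD R (fun w => χ none w * k w) (fun w => db (χ none) w * k w) :=
      (WD.of_C1 hR hc1).congr hR (fun _ _ => rfl) (fun w hw => (hc2 w hw).symm)
    have hw2 := hV2.mul_holo hR ((hf 0).mono hRU).neg
    refine ((hw1.add hR hw2).congr hR (V' := fun w => χ none w * k w - f 0 w * V (w, 0))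
      (ν' := fun _ => 0) ?_ ?_).holo hR (fun _ _ => rfl)
    · intro w hw
      simp only [Pi.neg_apply]
      ring
    · intro w hw
      have e1 := sum_mu1 h hε' hf (hRU hw)
      rw [Fin.sum_univ_one] at e1
      rw [mu1_eq h (hRU hw)]
      simp only [Pi.neg_apply]
      linear_combination (k w) * e1
  · have hOU : O ⊆ UH := fun w hw => hRU hw.1
    obtain ⟨hc1, hc2⟩ := inv_C1 hOo hOU ((hf 0).mono hOU) (h.smooth (some 0)) (by
        intro w hw h0
        have hc : ContinuousAt (f 0) w :=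
          ((hf 0).differentiableAt (isOpen_UH.mem_nhds (hOU hw))).continuousAt
        have h1 : ∀ᶠ z in 𝓝 w, ‖f 0 z‖ < ε' :=
          hc.norm.eventually (gt_mem_nhds (by
            change ‖f 0 w‖ < ε'
            rw [h0, norm_zero]; exact hε'))
        filter_upwards [h1, isOpen_UH.mem_nhds (hOU hw)] with z hz1 hz2
        by_contra hne
        exact absurd (h.large z hz2 0 hne) (not_le.2 hz1))
    have hw1 : WD O (fun w => χ (some 0) w / f 0 w) (fun w => db (χ (some 0)) w / f 0 w) :=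
      (WD.of_C1 hOo hc1).congr hOo (fun _ _ => rfl) (fun w hw => (hc2 w hw).symm)
    have hw2 := hw1.mul_holo hOo hk
    refine ((hw2.add hOo (wd_mono hV2 (fun w hw => hw.1))).congr hOo
      (V' := fun w => χ (some 0) w / f 0 w * k w + V (w, 0))
      (ν' := fun _ => 0) ?_ ?_).holo hOo (fun _ _ => rfl)
    · intro w hw
      ring
    · intro w hw
      have hwU := hOU hw
      rw [mu1_eq h hwU, hDD]
      have e2 := h.db_sum hwU
      rw [Fin.sum_univ_one] at e2
      by_cases h0 : f 0 w = 0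
      · rw [h0]
        simp
      · have h1 : starRingEnd ℂ (f 0 w) ≠ 0 := by simpa using h0
        field_simp
        linear_combination (-k w) * e2
  · intro w hw
    have h1 : ‖χ none w * k w‖ ≤ Q := by
      by_cases hχ : χ none w = 0
      · rw [hχ, zero_mul, norm_zero]; exact hQ
      · rw [norm_mul]
        have h2 := h.bd none w (hRU hw)
        have h3 := hkb w hw (hχO w hw hχ).2
        calc ‖χ none w‖ * ‖k w‖ ≤ 1 * Q := by gcongr
          _ = Q := one_mul _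
    have h2 : ‖f 0 w * V (w, 0)‖ ≤ C1 := by
      rw [norm_mul]
      have h2 := hfb 0 w (le_of_lt (hRU hw))
      have h3 := hV1' w hw
      calc ‖f 0 w‖ * ‖V (w, 0)‖ ≤ 1 * C1 := by gcongr
        _ = C1 := one_mul _
    calc ‖χ none w * k w - f 0 w * V (w, 0)‖ ≤ Q + C1 := (norm_sub_le _ _).trans (add_le_add h1 h2)
      _ = (1 + 2160 * Real.exp C * (C / ε')) * Q := by rw [hC1]; ring
      _ ≤ _ := by gcongr; exact le_max_left _ _
  · intro w hw hwη
    have h1 : ‖χ (some 0) w / f 0 w * k w‖ ≤ 1 / ε' * Q := by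
      by_cases hχ : χ (some 0) w = 0
      · rw [hχ, zero_div, zero_mul, norm_zero]; positivity
      · rw [norm_mul, norm_div]
        have h2 := h.bd (some 0) w (hRU hw)
        have h3 := hkb w hw hwη
        have h4 := h.large w (hRU hw) 0 hχ
        gcongr
    calc ‖χ (some 0) w / f 0 w * k w + V (w, 0)‖ ≤ 1 / ε' * Q + C1 :=
          (norm_add_le _ _).trans (add_le_add h1 (hV1' w hw))
      _ = (1 / ε' + 2160 * Real.exp C * (C / ε')) * Q := by rw [hC1]; ring
      _ ≤ _ := by gcongr; exact le_max_right _ _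
  · intro w hw hwη
    have e6 := h.sum w (hRU hw)
    rw [Fintype.sum_option, Fin.sum_univ_one] at e6
    have e2 : f 0 w * (χ (some 0) w / f 0 w) = χ (some 0) w := by
      by_cases hχ : χ (some 0) w = 0
      · rw [hχ, zero_div, mul_zero]
      · have h3 : f 0 w ≠ 0 := norm_pos_iff.1 (lt_of_lt_of_le hε' (h.large w (hRU hw) 0 hχ))
        field_simp
    linear_combination (-(k w)) * e6 - (k w) * e2

end Pool.Agent.N290.R5
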