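import Mathlib
import Pool.Agent.H720R2.Cor.Lim

/-!
Limits of bounded holomorphic functions along exhaustions, and sums of holomorphic functions.
-/

set_option autoImplicit false

open MeasureTheory Metric Set Filter Topology Complex

namespace Pool.Agent.N290.R5

open Pool.Agent.H720R2

variable {X : Type} [NormedAddCommGroup X] [NormedSpace ℂ X]

/-- limits of a sequence of functions, the `m`-th of which is defined on `B m` -/
theorem lim_inc {C : ℝ} (B : ℕ → Set X) (hB : ∀ m, IsOpen (B m)) (hmono : Monotone B)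
    (𝒰 : Ultrafilter ℕ) (hle : (𝒰 : Filter ℕ) ≤ atTop)
    (u : ℕ → X → ℂ) (hu : ∀ m, DifferentiableOn ℂ (u m) (B m))
    (hub : ∀ m, ∀ q ∈ B m, ‖u m q‖ ≤ C) :
      ∃ v : X → ℂ, DifferentiableOn ℂ v (⋃ m, B m) ∧ (∀ q ∈ ⋃ m, B m, ‖v q‖ ≤ C) ∧
        ∀ q ∈ ⋃ m, B m, Tendsto (fun m => u m q) 𝒰 (𝓝 (v q)) := by
  classical
  have h1 : ∀ k, ∃ v : X → ℂ, DifferentiableOn ℂ v (B k) ∧ (∀ q ∈ B k, ‖v q‖ ≤ C) ∧
      ∀ q ∈ B k, Tendsto (fun m => u m q) 𝒰 (𝓝 (v q)) := by
    intro k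
    rcases (B k).eq_empty_or_nonempty with he | ⟨q0, hq0⟩
    · refine ⟨fun _ => 0, ?_, ?_, ?_⟩ <;> rw [he] <;> simp
    · have hC : 0 ≤ C := (norm_nonneg _).trans (hub k q0 hq0)
      obtain ⟨v, hv1, hv2, hv3⟩ := Cor.ultra_lim (hB k) 𝒰 (fun m => if k ≤ m then u m else 0) (by
        intro m
        split_ifs with hkm
        · exact (hu m).mono (hmono hkm)
        · exact differentiableOn_const _) (C := C) (by
        intro m q hq
        split_ifs with hkm
        · exact hub m q (hmono hkm hq)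
        · simpa using hC)
      refine ⟨v, hv1, hv2, fun q hq => ?_⟩
      refine (hv3 q hq).congr' ?_
      have h2 : ∀ᶠ m in (𝒰 : Filter ℕ), k ≤ m := hle (eventually_ge_atTop k)
      filter_upwards [h2] with m hm
      rw [if_pos hm]
  choose v hv1 hv2 hv3 using h1
  have hU : ∀ q, q ∈ ⋃ m, B m → ∃ k, q ∈ B k := fun q hq => mem_iUnion.1 hq
  set V : X → ℂ := fun q => if h : ∃ k, q ∈ B k then v h.choose q else 0 with hV
  have hVeq : ∀ k, ∀ q ∈ B k, V q = v k q := by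
    intro k q hq
    have h : ∃ k, q ∈ B k := ⟨k, hq⟩
    have h2 : V q = v h.choose q := by
      rw [hV]
      simp only [dif_pos h]
    rw [h2]
    exact tendsto_nhds_unique (hv3 _ q h.choose_spec) (hv3 k q hq)
  refine ⟨V, ?_, ?_, ?_⟩
  · intro q hq
    obtain ⟨k, hk⟩ := hU q hq
    have h2 : DifferentiableAt ℂ (v k) q := (hv1 k q hk).differentiableAt ((hB k).mem_nhds hk)
    have h3 : V =ᶠ[𝓝 q] v k := by
      filter_upwards [(hB k).mem_nhds hk] with p hp
      exact hVeq k p hp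
    exact (h2.congr_of_eventuallyEq h3).differentiableWithinAt
  · intro q hq
    obtain ⟨k, hk⟩ := hU q hq
    rw [hVeq k q hk]
    exact hv2 k q hk
  · intro q hq
    obtain ⟨k, hk⟩ := hU q hq
    rw [hVeq k q hk]
    exact hv3 k q hk

/-- sums of holomorphic functions -/
theorem sum_hol {B : Set X} (hB : IsOpen B) (F : ℕ → X → ℂ) (hF : ∀ n, DifferentiableOn ℂ (F n) B)
    {u : ℕ → ℝ} (hu : Summable u) (hb : ∀ n, ∀ x ∈ B, ‖F n x‖ ≤ u n) :
    DifferentiableOn ℂ (fun x => ∑' n, F n x) B ∧ (∀ x ∈ B, ‖∑' n, F n x‖ ≤ ∑' n, u n) ∧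
      ∀ x ∈ B, HasSum (fun n => F n x) (∑' n, F n x) := by
  have hs : ∀ x ∈ B, Summable (fun n => F n x) := fun x hx =>
    Summable.of_norm_bounded hu (fun n => hb n x hx)
  have hbd : ∀ x ∈ B, ‖∑' n, F n x‖ ≤ ∑' n, u n := fun x hx =>
    tsum_of_norm_bounded hu.hasSum (fun n => hb n x hx)
  refine ⟨?_, hbd, fun x hx => (hs x hx).hasSum⟩
  rcases B.eq_empty_or_nonempty with he | ⟨x0, hx0⟩
  · rw [he]; exact differentiableOn_empty
  have hu0 : ∀ n, 0 ≤ u n := fun n => (norm_nonneg _).trans (hb n x0 hx0)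
  set 𝒰 : Ultrafilter ℕ := Ultrafilter.of atTop with h𝒰
  have hle : (𝒰 : Filter ℕ) ≤ atTop := Ultrafilter.of_le _
  obtain ⟨v, hv1, -, hv3⟩ := Cor.ultra_lim hB 𝒰 (fun m x => ∑ n ∈ Finset.range m, F n x)
    (fun m => DifferentiableOn.fun_sum fun n _ => hF n) (C := ∑' n, u n) (by
      intro m x hx
      refine (norm_sum_le_of_le _ (fun n _ => hb n x hx)).trans ?_
      exact hu.sum_le_tsum _ (fun n _ => hu0 n))
  refine hv1.congr (fun x hx => ?_)
  exact tendsto_nhds_unique ((hs x hx).hasSum.tendsto_sum_nat.mono_left hle) (hv3 x hx)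

end Pool.Agent.N290.R5
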