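import Mathlib
import Pool.Agent.N290.R5.EP1
import Pool.Agent.N290.R5.Lim

/-!
One-variable decomposition on simply connected domains.
-/

set_option autoImplicit false
set_option linter.unusedSectionVars false

open MeasureTheory Metric Set Filter Topology Complex
open scoped ContDiff

namespace Pool.Agent.N290.R5

open Pool.Agent.H720R2 Pool.Agent.H720R2.HP
open Pool.Agent.H788R3.Cor2 (cy cy_mem cy_diff yc yc_im cy_yc yc_diff cy_mem' cy_diffAt hcy_diffAt)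

/-- decomposition on the part `‖ψ‖ < r` -/
theorem dec_r {η C : ℝ} (_hη : 0 < η) (H : ∀ (f : Fin 1 → ℂ → ℂ) (δ : ℝ), 0 < δ →
    (∀ i, DifferentiableOn ℂ (f i) {w : ℂ | -δ < w.im}) →
    (∀ i, ∀ w : ℂ, 0 ≤ w.im → ‖f i w‖ ≤ 1) →
    (∀ i, ∃ c : ℂ, Tendsto (f i) (Bornology.cobounded ℂ ⊓ 𝓟 {w : ℂ | 0 ≤ w.im}) (𝓝 c)) →
    Dec UH (f 0) η C) {U : Set ℂ} (hU : IsOpen U)
    {h ψ : ℂ → ℂ} (hh : DifferentiableOn ℂ h (ball 0 1)) (hm : MapsTo h (ball 0 1) U)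
    (hψ : DifferentiableOn ℂ ψ U) (hinv : ∀ z ∈ U, h (ψ z) = z)
    {f : ℂ → ℂ} (hf : DifferentiableOn ℂ f U) (hfb : ∀ z ∈ U, ‖f z‖ ≤ 1)
    {R : Set ℂ} (hR : IsOpen R) (hRU : R ⊆ U) {k : ℂ → ℂ} {Q : ℝ} (hQ : 0 ≤ Q)
    (hk : DifferentiableOn ℂ k {w | w ∈ R ∧ ‖f w‖ < η}) (hkb : ∀ w ∈ R, ‖f w‖ < η → ‖k w‖ ≤ Q)
    {r : ℝ} (hr0 : 0 < r) (hr1 : r < 1) :
    ∃ k' u : ℂ → ℂ, DifferentiableOn ℂ k' {z | z ∈ R ∧ ‖ψ z‖ < r} ∧
      DifferentiableOn ℂ u {z | (z ∈ R ∧ ‖f z‖ < η) ∧ ‖ψ z‖ < r} ∧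
      (∀ z ∈ R, ‖ψ z‖ < r → ‖k' z‖ ≤ C * Q) ∧
      (∀ z ∈ R, ‖f z‖ < η → ‖ψ z‖ < r → ‖u z‖ ≤ C * Q) ∧
      ∀ z ∈ R, ‖f z‖ < η → ‖ψ z‖ < r → k z = k' z + f z * u z := by
  have hr2 : r ^ 2 < 1 := by nlinarith
  have h1 : MapsTo (cy r) {w : ℂ | -((1 - r ^ 2) / 16) < w.im} (ball 0 1) := fun w hw =>
      cy_mem hr0 hr1 hw
  have hmem : (r : ℂ) * 1 ∈ ball (0 : ℂ) 1 := by
    rw [mem_ball_zero_iff, mul_one, Complex.norm_real, Real.norm_of_nonneg hr0.le]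
    exact hr1
  have hD := H (fun _ w => f (h (cy r w))) ((1 - r ^ 2) / 16) (by linarith)
    (fun _ => hf.comp (hh.comp (cy_diff hr0 hr1) h1) (fun w hw => hm (h1 hw)))
    (fun _ w hw => hfb _ (hm (cy_mem hr0 hr1 (by linarith))))
    (fun _ => by
      refine ⟨f (h ((r : ℂ) * 1)), ?_⟩
      refine Tendsto.mono_left ?_ inf_le_left
      have hc0 : ContinuousAt h ((r : ℂ) * 1) :=
        (hh.differentiableAt (isOpen_ball.mem_nhds hmem)).continuousAt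
      have hc : ContinuousAt f (h ((r : ℂ) * 1)) :=
        (hf.differentiableAt (hU.mem_nhds (hm hmem))).continuousAt
      exact hc.tendsto.comp (hc0.tendsto.comp (TB.cay_tendsto.const_mul (r : ℂ))))
  set R' : Set ℂ := {w | w ∈ UH ∧ h (cy r w) ∈ R} with hR'
  have hcont : ContinuousOn (fun w => h (cy r w)) UH := fun w hw =>
    (hcy_diffAt hh hr0 hr1 hw).continuousAt.continuousWithinAt
  have hR'o : IsOpen R' := hcont.isOpen_inter_preimage isOpen_UH hR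
  have hWo : IsOpen {w | w ∈ R ∧ ‖f w‖ < η} := by
    have hc : ContinuousOn (fun w => ‖f w‖) R := (hf.continuousOn.mono hRU).norm
    exact hc.isOpen_inter_preimage hR (isOpen_Iio (a := η))
  obtain ⟨k', u, a1, a2, a3, a4, a5⟩ := hD R' hR'o (fun w hw => hw.1) (fun w => k (h (cy r w))) Q hQ
    (by
      intro w hw
      have d1 : DifferentiableAt ℂ (fun w => h (cy r w)) w := hcy_diffAt hh hr0 hr1 hw.1.1
      have d2 : DifferentiableAt ℂ k (h (cy r w)) :=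
        hk.differentiableAt (hWo.mem_nhds ⟨hw.1.2, hw.2⟩)
      exact (DifferentiableAt.comp w d2 d1).differentiableWithinAt)
    (fun w hw hw' => hkb _ hw.2 hw')
  set T : ℂ → ℂ := fun z => yc r (ψ z) with hT
  have hTe : ∀ z ∈ U, ‖ψ z‖ < r → h (cy r (T z)) = z := by
    intro z hz hz'
    rw [hT]
    beta_reduce
    rw [cy_yc hr0 hz', hinv z hz]
  have hTm : ∀ z ∈ R, ‖ψ z‖ < r → T z ∈ R' := by
    intro z hz hz'
    refine ⟨yc_im hr0 hz', ?_⟩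
    rw [hTe z (hRU hz) hz']
    exact hz
  have hTd : ∀ z ∈ R, ‖ψ z‖ < r → DifferentiableAt ℂ T z := by
    intro z hz hz'
    have h1 : DifferentiableAt ℂ ψ z := (hψ _ (hRU hz)).differentiableAt (hU.mem_nhds (hRU hz))
    exact DifferentiableAt.comp z (yc_diff hr0 hz') h1
  refine ⟨fun z => k' (T z), fun z => u (T z), ?_, ?_, fun z hz hz' => a3 _ (hTm z hz hz'),
    ?_, ?_⟩
  · exact a1.comp (fun z hz => (hTd z hz.1 hz.2).differentiableWithinAt)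
      (fun z hz => hTm z hz.1 hz.2)
  · refine a2.comp (fun z hz => (hTd z hz.1.1 hz.2).differentiableWithinAt)
      (fun z hz => ⟨hTm z hz.1.1 hz.2, ?_⟩)
    change ‖f (h (cy r (T z)))‖ < η
    rw [hTe z (hRU hz.1.1) hz.2]
    exact hz.1.2
  · intro z hz hz' hz''
    refine a4 _ (hTm z hz hz'') ?_
    change ‖f (h (cy r (T z)))‖ < η
    rw [hTe z (hRU hz) hz'']
    exact hz'
  · intro z hz hz' hz''
    have h2 := a5 (T z) (hTm z hz hz'') (by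
      change ‖f (h (cy r (T z)))‖ < η
      rw [hTe z (hRU hz) hz'']
      exact hz')
    simp only [hTe z (hRU hz) hz''] at h2
    exact h2

/-- **Decomposition on simply connected domains.** -/
theorem dec_sc {η : ℝ} (hη : 0 < η) (hη1 : η ≤ 1) : ∃ C : ℝ, 0 ≤ C ∧
    ∀ (U : Set ℂ), IsOpen U → IsSimplyConnected U → U ≠ univ →
    ∀ f : ℂ → ℂ, DifferentiableOn ℂ f U → (∀ z ∈ U, ‖f z‖ ≤ 1) → Dec U f η C := by
  obtain ⟨C, hC, H⟩ := ep_UH hη hη1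
  refine ⟨C, hC, ?_⟩
  intro U hU hUc hne f hf hfb R hR hRU k Q hQ hk hkb
  rcases U.eq_empty_or_nonempty with he | ⟨a, ha⟩
  · have hRe : R = ∅ := by
      rw [he] at hRU; exact subset_empty_iff.1 hRU
    refine ⟨0, 0, ?_, ?_, ?_, ?_, ?_⟩ <;> simp [hRe, differentiableOn_empty]
  obtain ⟨h, ψ, hh, hbij, -, -, hψ, hψm, hinv, -⟩ :=
    Pool.Agent.Helper202.Riemann.riemann_inv hU hUc hne ha
  set r : ℕ → ℝ := fun m => 1 - 1 / ((m : ℝ) + 2) with hr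
  have hr0 : ∀ m, 0 < r m := by
    intro m
    have : (0 : ℝ) ≤ m := Nat.cast_nonneg m
    rw [hr]
    beta_reduce
    rw [sub_pos, div_lt_one (by linarith)]
    linarith
  have hr1 : ∀ m, r m < 1 := by
    intro m
    have : (0 : ℝ) ≤ m := Nat.cast_nonneg m
    rw [hr]
    beta_reduce
    have : 0 < 1 / ((m : ℝ) + 2) := by positivity
    linarith
  have hrt : Tendsto r atTop (𝓝 1) := by
    have h1 : Tendsto r atTop (𝓝 (1 - 0)) := by
      refine tendsto_const_nhds.sub ?_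
      have h2 := (tendsto_one_div_add_atTop_nhds_zero_nat (𝕜 := ℝ))
      have h3 := h2.comp (tendsto_add_atTop_nat 1)
      refine h3.congr (fun m => ?_)
      simp only [Function.comp_apply]
      push_cast
      ring
    rwa [sub_zero] at h1
  have hrm : Monotone r := by
    intro m n hmn
    have : (0 : ℝ) ≤ m := Nat.cast_nonneg m
    have h2 : (m : ℝ) ≤ n := by exact_mod_cast hmn
    simp only [hr]
    gcongr
  choose k' u a1 a2 a3 a4 a5 using fun m =>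
    dec_r hη H hU hh hbij.mapsTo hψ hinv hf hfb hR hRU hQ hk hkb (hr0 m) (hr1 m)
  have hWo : IsOpen {w | w ∈ R ∧ ‖f w‖ < η} := by
    have hc : ContinuousOn (fun w => ‖f w‖) R := (hf.continuousOn.mono hRU).norm
    exact hc.isOpen_inter_preimage hR (isOpen_Iio (a := η))
  have hopen : ∀ (W : Set ℂ), IsOpen W → W ⊆ U → ∀ m, IsOpen {z | z ∈ W ∧ ‖ψ z‖ < r m} := by
    intro W hW hWU m
    have hc : ContinuousOn (fun q : ℂ => ‖ψ q‖) W := (hψ.continuousOn.mono hWU).norm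
    exact hc.isOpen_inter_preimage hW (isOpen_Iio (a := r m))
  have hmono : ∀ (W : Set ℂ), Monotone (fun m => {z | z ∈ W ∧ ‖ψ z‖ < r m}) :=
    fun W m n hmn q hq => ⟨hq.1, lt_of_lt_of_le hq.2 (hrm hmn)⟩
  have hUn : ∀ (W : Set ℂ), W ⊆ U → (⋃ m, {z | z ∈ W ∧ ‖ψ z‖ < r m}) = W := by
    intro W hWU
    ext q
    rw [mem_iUnion]
    constructor
    · rintro ⟨m, hm⟩
      exact hm.1
    · intro hq
      have h1 : ‖ψ q‖ < 1 := by
        have := hψm (hWU hq)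
        rwa [mem_ball_zero_iff] at this
      obtain ⟨m, hm⟩ := (hrt.eventually (lt_mem_nhds h1)).exists
      exact ⟨m, hq, hm⟩
  set 𝒰 : Ultrafilter ℕ := Ultrafilter.of atTop with h𝒰
  have hle : (𝒰 : Filter ℕ) ≤ atTop := Ultrafilter.of_le _
  have hWU : {w | w ∈ R ∧ ‖f w‖ < η} ⊆ U := fun w hw => hRU hw.1
  obtain ⟨v, b1, b2, b3⟩ := lim_inc (fun m => {z | z ∈ R ∧ ‖ψ z‖ < r m}) (hopen R hR hRU)
    (hmono R) 𝒰 hle k' a1 (fun m q hq => a3 m q hq.1 hq.2)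
  obtain ⟨w, c1, c2, c3⟩ := lim_inc (fun m => {z | z ∈ {w | w ∈ R ∧ ‖f w‖ < η} ∧ ‖ψ z‖ < r m})
    (hopen _ hWo hWU) (hmono _) 𝒰 hle u a2 (fun m q hq => a4 m q hq.1.1 hq.1.2 hq.2)
  rw [hUn R hRU] at b1 b2 b3
  rw [hUn _ hWU] at c1 c2 c3
  refine ⟨v, w, b1, c1, b2, fun z hz hz' => c2 z ⟨hz, hz'⟩, fun z hz hz' => ?_⟩
  have l1 := (b3 z hz).add ((c3 z ⟨hz, hz'⟩).const_mul (f z))
  have l2 : Tendsto (fun m => k' m z + f z * u m z) 𝒰 (𝓝 (k z)) := by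
    refine tendsto_const_nhds.congr' ?_
    have h1 : ‖ψ z‖ < 1 := by
      have := hψm (hRU hz)
      rwa [mem_ball_zero_iff] at this
    have h2 : ∀ᶠ m in (𝒰 : Filter ℕ), ‖ψ z‖ < r m := hle (hrt.eventually (lt_mem_nhds h1))
    filter_upwards [h2] with m hm
    exact a5 m z hz hz' hm
  exact tendsto_nhds_unique l2 l1

end Pool.Agent.N290.R5
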