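import Mathlib
import Pool.Agent.N290.R5.EP2

/-!
Extension of bounded holomorphic functions from a slice of `D ∩ {|a i| < η}`, given the extension from
the slices of `D`.
-/

set_option autoImplicit false

open MeasureTheory Metric Set Filter Topology Complex

namespace Pool.Agent.N290.R5

variable {X : Type} [NormedAddCommGroup X] [NormedSpace ℂ X]

/-- bounded holomorphic functions on `W` extend along `ι` to `D'`, with constant `B` -/
def ExtP (ι : ℂ → X) (W : Set ℂ) (D' : Set X) (B : ℝ) : Prop :=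
  ∀ (k : ℂ → ℂ) (Q : ℝ), 0 ≤ Q → DifferentiableOn ℂ k W → (∀ y ∈ W, ‖k y‖ ≤ Q) →
    ∃ e : X → ℂ, DifferentiableOn ℂ e D' ∧ (∀ x ∈ D', ‖e x‖ ≤ B * Q) ∧
      ∀ y ∈ W, ι y ∈ D' → e (ι y) = k y

theorem Dec.mono {S : Set ℂ} {f : ℂ → ℂ} {η C C' : ℝ} (h : Dec S f η C) (hC : C ≤ C') :
    Dec S f η C' := by
  intro R hR hRS k Q hQ hk hkb
  obtain ⟨k', u, a1, a2, a3, a4, a5⟩ := h R hR hRS k Q hQ hk hkb
  exact ⟨k', u, a1, a2, fun w hw => (a3 w hw).trans (by gcongr),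
    fun w hw hw' => (a4 w hw hw').trans (by gcongr), a5⟩

/-- power series expansion in `f` -/
theorem expand {S : Set ℂ} {f : ℂ → ℂ} {η C : ℝ} (hC : 0 ≤ C) (h : Dec S f η C) {R : Set ℂ}
    (hR : IsOpen R) (hRS : R ⊆ S) {k : ℂ → ℂ} {Q : ℝ} (hQ : 0 ≤ Q)
    (hk : DifferentiableOn ℂ k {w | w ∈ R ∧ ‖f w‖ < η}) (hkb : ∀ w ∈ R, ‖f w‖ < η → ‖k w‖ ≤ Q) :
    ∃ c : ℕ → ℂ → ℂ, (∀ j, DifferentiableOn ℂ (c j) R) ∧
      (∀ j, ∀ w ∈ R, ‖c j w‖ ≤ C ^ (j + 1) * Q) ∧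
      ∀ w ∈ R, ‖f w‖ < η → ∀ m : ℕ,
        ‖k w - ∑ j ∈ Finset.range m, f w ^ j * c j w‖ ≤ (‖f w‖ * C) ^ m * Q := by
  classical
  -- the remainders
  have step : ∀ (m : ℕ) (v : {v : ℂ → ℂ // DifferentiableOn ℂ v {w | w ∈ R ∧ ‖f w‖ < η} ∧
      ∀ w ∈ R, ‖f w‖ < η → ‖v w‖ ≤ C ^ m * Q}), ∃ k' : ℂ → ℂ, ∃ u : {v : ℂ → ℂ //
        DifferentiableOn ℂ v {w | w ∈ R ∧ ‖f w‖ < η} ∧
        ∀ w ∈ R, ‖f w‖ < η → ‖v w‖ ≤ C ^ (m + 1) * Q},
      DifferentiableOn ℂ k' R ∧ (∀ w ∈ R, ‖k' w‖ ≤ C ^ (m + 1) * Q) ∧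
      ∀ w ∈ R, ‖f w‖ < η → v.1 w = k' w + f w * u.1 w := by
    rintro m ⟨v, hv1, hv2⟩
    obtain ⟨k', u, a1, a2, a3, a4, a5⟩ := h R hR hRS v (C ^ m * Q) (by positivity) hv1 hv2
    have e : C * (C ^ m * Q) = C ^ (m + 1) * Q := by ring
    rw [e] at a3 a4
    exact ⟨k', ⟨u, a2, a4⟩, a1, a3, a5⟩
  choose K' U s1 s2 s3 using step
  let v : (m : ℕ) → {v : ℂ → ℂ // DifferentiableOn ℂ v {w | w ∈ R ∧ ‖f w‖ < η} ∧
      ∀ w ∈ R, ‖f w‖ < η → ‖v w‖ ≤ C ^ m * Q} := fun m =>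
    Nat.rec ⟨k, hk, by simpa using hkb⟩ (fun m v => U m v) m
  refine ⟨fun j => K' j (v j), fun j => s1 j (v j), fun j => s2 j (v j), ?_⟩
  intro w hw hw' m
  have key : ∀ m : ℕ, k w - ∑ j ∈ Finset.range m, f w ^ j * K' j (v j) w = f w ^ m * (v m).1 w := by
    intro m
    induction m with
    | zero => simp [v]
    | succ m ih =>
      rw [Finset.sum_range_succ, ← sub_sub, ih, s3 m (v m) w hw hw']
      change _ = f w ^ (m + 1) * (U m (v m)).1 w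
      ring
  rw [key m, norm_mul, norm_pow, mul_pow, mul_assoc]
  have := (v m).2.2 w hw hw'
  gcongr

/-- one step -/
theorem ext_step {D D' : Set X} (hD' : IsOpen D') (hDD : D' ⊆ D) {ι : ℂ → X} {S : Set ℂ}
    {a : X → ℂ} (ha : DifferentiableOn ℂ a D)
    {η C : ℝ} (hC : 1 ≤ C) (hdec : Dec S (fun y => a (ι y)) η C)
    {R : Set ℂ} (hR : IsOpen R) (hRS : R ⊆ S) {B : ℝ} (hB : 0 ≤ B) (hX : ExtP ι R D' B) {η' : ℝ}
    (hη'C : η' * C ≤ 1 / 2) :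
    ExtP ι {y | y ∈ R ∧ ‖a (ι y)‖ < η} {x | x ∈ D' ∧ ‖a x‖ < η'} (2 * C * B) := by
  intro k Q hQ hk hkb
  obtain ⟨c, c1, c2, c3⟩ := expand (by linarith) hdec hR hRS hQ hk (fun w hw hw' => hkb w ⟨hw, hw'⟩)
  choose e e1 e2 e3 using fun j => hX (c j) (C ^ (j + 1) * Q) (by positivity) (c1 j) (c2 j)
  have hD'o : IsOpen {x | x ∈ D' ∧ ‖a x‖ < η'} := by
    have hc : ContinuousOn (fun x => ‖a x‖) D' := (ha.continuousOn.mono hDD).norm
    exact hc.isOpen_inter_preimage hD' (isOpen_Iio (a := η'))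
  have hb : ∀ (j : ℕ), ∀ x ∈ {x | x ∈ D' ∧ ‖a x‖ < η'}, ‖a x ^ j * e j x‖ ≤
      (B * C * Q) * (1 / 2) ^ j := by
    rintro j x ⟨hx, hx'⟩
    rw [norm_mul, norm_pow]
    have h1 := e2 j x hx
    have h0 : 0 ≤ ‖a x‖ := norm_nonneg _
    calc ‖a x‖ ^ j * ‖e j x‖ ≤ ‖a x‖ ^ j * (B * (C ^ (j + 1) * Q)) := by gcongr
      _ = (B * C * Q) * (‖a x‖ * C) ^ j := by rw [mul_pow]; ring
      _ ≤ (B * C * Q) * (1 / 2) ^ j := by
        gcongr
        refine le_trans ?_ hη'C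
        gcongr
  have hsum : Summable (fun j : ℕ => (B * C * Q) * (1 / 2 : ℝ) ^ j) :=
    (summable_geometric_of_lt_one (by norm_num) (by norm_num)).mul_left _
  obtain ⟨s1, s2, s3⟩ := sum_hol hD'o (fun j x => a x ^ j * e j x) (fun j =>
    ((ha.mono (fun x hx => hDD hx.1)).pow j).mul ((e1 j).mono (fun x hx => hx.1))) hsum hb
  refine ⟨fun x => ∑' j, a x ^ j * e j x, s1, ?_, ?_⟩
  · intro x hx
    refine (s2 x hx).trans (le_of_eq ?_)
    rw [tsum_mul_left, tsum_geometric_of_lt_one (by norm_num) (by norm_num)]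
    ring
  · rintro y ⟨hy, hy'⟩ hιy
    have h1 := (s3 (ι y) hιy).tendsto_sum_nat
    have h2 : Tendsto (fun m : ℕ => ∑ j ∈ Finset.range m, a (ι y) ^ j * e j (ι y)) atTop
        (𝓝 (k y)) := by
      have h3 : ∀ j, e j (ι y) = c j y := fun j => e3 j y hy hιy.1
      simp only [h3]
      rw [tendsto_iff_norm_sub_tendsto_zero]
      have h4 : Tendsto (fun m : ℕ => (1 / 2 : ℝ) ^ m * Q) atTop (𝓝 0) := by
        have := (tendsto_pow_atTop_nhds_zero_of_lt_one (r := (1 / 2 : ℝ)) (by norm_num)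
          (by norm_num)).mul_const Q
        rwa [zero_mul] at this
      refine squeeze_zero (fun _ => norm_nonneg _) (fun m => ?_) h4
      rw [norm_sub_rev]
      refine (c3 y hy hy' m).trans ?_
      gcongr
      refine le_trans ?_ hη'C
      have := hιy.2
      gcongr
    exact tendsto_nhds_unique h1 h2

/-- **Extension from a slice of `D ∩ {|a i| < η}`.** -/
theorem ext_n {η C : ℝ} (hC : 1 ≤ C)
    (H : ∀ (U : Set ℂ), IsOpen U → IsSimplyConnected U → U ≠ univ →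
      ∀ f : ℂ → ℂ, DifferentiableOn ℂ f U → (∀ z ∈ U, ‖f z‖ ≤ 1) → Dec U f η C)
    {η' : ℝ} (hη'C : η' * C ≤ 1 / 2)
    {D D' : Set X} (hD' : IsOpen D') (hDD : D' ⊆ D) {ι : ℂ → X} {S : Set ℂ}
    (hS : IsOpen S) (hSc : IsSimplyConnected S) (hSu : S ≠ univ)
    (hι : DifferentiableOn ℂ ι S) (hιm : MapsTo ι S D) {B : ℝ} (hB : 0 ≤ B) (hX : ExtP ι S D' B)
    (n : ℕ) (a : Fin n → X → ℂ) (ha : ∀ i, DifferentiableOn ℂ (a i) D)
    (hab : ∀ i, ∀ x ∈ D, ‖a i x‖ ≤ 1) :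
    ExtP ι {y | y ∈ S ∧ ∀ i, ‖a i (ι y)‖ < η} {x | x ∈ D' ∧ ∀ i, ‖a i x‖ < η'} ((2 * C) ^ n * B) := by
  induction n with
  | zero =>
    simpa using hX
  | succ n ih =>
    have h1 := ih (fun i => a i.castSucc) (fun i => ha _) (fun i => hab _)
    have hc : ∀ i, DifferentiableOn ℂ (fun y => a i (ι y)) S := fun i => (ha i).comp hι hιm
    have ho : IsOpen {y | y ∈ S ∧ ∀ i : Fin n, ‖a i.castSucc (ι y)‖ < η} := by
      have e : {y | y ∈ S ∧ ∀ i : Fin n, ‖a i.castSucc (ι y)‖ < η} =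
          S ∩ (fun y => fun i : Fin n => ‖a i.castSucc (ι y)‖) ⁻¹' (univ.pi fun _ => Iio η) := by
        ext y; simp
      rw [e]
      refine ContinuousOn.isOpen_inter_preimage ?_ hS (isOpen_set_pi finite_univ
        (fun _ _ => isOpen_Iio))
      exact continuousOn_pi.2 fun i => (hc _).continuousOn.norm
    have ho' : IsOpen {x | x ∈ D' ∧ ∀ i : Fin n, ‖a i.castSucc x‖ < η'} := by
      have e : {x | x ∈ D' ∧ ∀ i : Fin n, ‖a i.castSucc x‖ < η'} =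
          D' ∩ (fun x => fun i : Fin n => ‖a i.castSucc x‖) ⁻¹' (univ.pi fun _ => Iio η') := by
        ext y; simp
      rw [e]
      refine ContinuousOn.isOpen_inter_preimage ?_ hD' (isOpen_set_pi finite_univ
        (fun _ _ => isOpen_Iio))
      exact continuousOn_pi.2 fun i => ((ha _).continuousOn.mono hDD).norm
    have h2 := ext_step ho' (fun x hx => hDD hx.1) (ha (Fin.last n)) hC
      (H S hS hSc hSu _ (hc _) (fun y hy => hab _ _ (hιm hy))) ho (fun y hy => hy.1)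
      (by positivity) h1 hη'C
    convert h2 using 1
    · ext y
      simp only [mem_ofPred_eq, Fin.forall_fin_succ']
      tauto
    · ext y
      simp only [mem_ofPred_eq, Fin.forall_fin_succ']
      tauto
    · ring

end Pool.Agent.N290.R5
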