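import Mathlib
import Pool.Agent.N290.R5.Xt

/-!
Taylor coefficients in the first variable, and measurable families of extensions.
-/

set_option autoImplicit false

open MeasureTheory Metric Set Filter Topology Complex

namespace Pool.Agent.N290.R5

open Pool.Agent.Y263.SC (Ext)
open Pool.Agent

/-- Taylor expansion in the first variable -/
theorem taylor {ζ₀ : ℂ} {s K : ℝ} (hs : 0 < s) {W : Set ℂ} (hW : IsOpen W)
    {k : ℂ × ℂ → ℂ} (hk : DifferentiableOn ℂ k (ball ζ₀ (2 * s) ×ˢ W))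
    (hkb : ∀ w ∈ ball ζ₀ (2 * s), ∀ y ∈ W, ‖k (w, y)‖ ≤ K) :
    ∃ c : ℕ → ℂ → ℂ, (∀ n, DifferentiableOn ℂ (c n) W) ∧
      (∀ n, ∀ y ∈ W, ‖c n y‖ ≤ K / s ^ n) ∧
      ∀ y ∈ W, ∀ t : ℂ, ‖t‖ < s → HasSum (fun n => t ^ n * c n y) (k (ζ₀ + t, y)) := by
  have hsph : ∀ z ∈ sphere ζ₀ s, z ∈ ball ζ₀ (2 * s) ∧ ‖z - ζ₀‖ = s := by
    intro z hz
    rw [mem_sphere, dist_eq_norm] at hz
    refine ⟨?_, hz⟩
    rw [mem_ball, dist_eq_norm, hz]
    linarith
  have hcm : ∀ θ, circleMap ζ₀ s θ ∈ sphere ζ₀ s := fun θ => circleMap_mem_sphere _ hs.le θ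
  have hPo : IsOpen (ball ζ₀ (2 * s) ×ˢ W) := isOpen_ball.prod hW
  have hkat : ∀ w ∈ ball ζ₀ (2 * s), ∀ y ∈ W, DifferentiableAt ℂ k (w, y) := fun w hw y hy =>
    hk.differentiableAt (hPo.mem_nhds ⟨hw, hy⟩)
  have hk1 : ∀ y ∈ W, DifferentiableOn ℂ (fun w => k (w, y)) (ball ζ₀ (2 * s)) := by
    intro y hy w hw
    have h2 : DifferentiableAt ℂ (fun w : ℂ => (w, y)) w :=
      differentiableAt_id.prodMk (differentiableAt_const _)
    exact (DifferentiableAt.comp w (hkat w hw y hy) h2).differentiableWithinAt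
  have hk2 : ∀ w ∈ ball ζ₀ (2 * s), DifferentiableOn ℂ (fun y => k (w, y)) W := by
    intro w hw y hy
    have h2 : DifferentiableAt ℂ (fun y : ℂ => (w, y)) y :=
      (differentiableAt_const _).prodMk differentiableAt_id
    exact (DifferentiableAt.comp y (hkat w hw y hy) h2).differentiableWithinAt
  have hcb : closedBall ζ₀ s ⊆ ball ζ₀ (2 * s) := closedBall_subset_ball (by linarith)
  refine ⟨fun n y => (2 * Real.pi * I : ℂ)⁻¹ *
    ∮ z in C(ζ₀, s), ((z - ζ₀)⁻¹) ^ n * ((z - ζ₀)⁻¹ * k (z, y)), ?_, ?_, ?_⟩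
  · intro n
    refine DifferentiableOn.const_mul ?_ _
    have e : ∀ y, (∮ z in C(ζ₀, s), ((z - ζ₀)⁻¹) ^ n * ((z - ζ₀)⁻¹ * k (z, y))) =
        ∫ θ in Ioc (0 : ℝ) (2 * Real.pi), deriv (circleMap ζ₀ s) θ *
          (((circleMap ζ₀ s θ - ζ₀)⁻¹) ^ n * ((circleMap ζ₀ s θ - ζ₀)⁻¹ * k (circleMap ζ₀ s θ, y))) := by
      intro y
      rw [circleIntegral, intervalIntegral.integral_of_le (by positivity)]
      simp only [smul_eq_mul]
    simp only [e]
    refine HP.differentiableOn_integral (X := ℂ) (E := ℂ) _ _ W hW ?_ ?_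
      (fun _ => s * ((s⁻¹) ^ n * (s⁻¹ * K))) ?_ ?_
    · intro y hy
      apply Continuous.aestronglyMeasurable
      have hc1 : Continuous (fun θ => k (circleMap ζ₀ s θ, y)) := by
        rw [continuous_iff_continuousAt]
        intro θ
        have h4 : ContinuousAt (fun w => k (w, y)) (circleMap ζ₀ s θ) :=
          ((hk1 y hy).differentiableAt (isOpen_ball.mem_nhds (hsph _ (hcm θ)).1)).continuousAt
        exact ContinuousAt.comp (f := fun θ => circleMap ζ₀ s θ) (g := fun w => k (w, y)) h4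
          (continuous_circleMap ζ₀ s).continuousAt
      have hc2 : Continuous (fun θ => (circleMap ζ₀ s θ - ζ₀)⁻¹) := by
        refine Continuous.inv₀ ((continuous_circleMap ζ₀ s).sub continuous_const) (fun θ => ?_)
        have := (hsph _ (hcm θ)).2
        exact norm_pos_iff.1 (by linarith)
      have hc3 : Continuous (fun θ => deriv (circleMap ζ₀ s) θ) := by
        simp only [deriv_circleMap]
        exact (continuous_circleMap 0 s).mul continuous_const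
      exact hc3.mul ((hc2.pow n).mul (hc2.mul hc1))
    · intro θ
      exact (((hk2 _ (hsph _ (hcm θ)).1).const_mul _).const_mul _).const_mul _
    · exact integrableOn_const measure_Ioc_lt_top.ne enorm_ne_top
    · intro θ y hy
      rw [norm_mul, norm_mul, norm_mul, norm_pow, norm_inv, (hsph _ (hcm θ)).2]
      have h3 : ‖deriv (circleMap ζ₀ s) θ‖ = s := by
        simp [deriv_circleMap, abs_of_pos hs]
      rw [h3]
      have h5 := hkb _ (hsph _ (hcm θ)).1 y hy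
      gcongr
  · intro n y hy
    have h1 := circleIntegral.norm_two_pi_i_inv_smul_integral_le_of_norm_le_const
      (f := fun z => ((z - ζ₀)⁻¹) ^ n * ((z - ζ₀)⁻¹ * k (z, y))) (c := ζ₀) (R := s)
      (C := (s⁻¹) ^ n * (s⁻¹ * K)) hs.le (by
        intro z hz
        rw [norm_mul, norm_mul, norm_pow, norm_inv, (hsph z hz).2]
        have h5 := hkb _ (hsph z hz).1 y hy
        gcongr)
    refine h1.trans (le_of_eq ?_)
    rw [inv_pow]
    field_simp
  · intro y hy t ht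
    have hdc : DiffContOnCl ℂ (fun w => k (w, y)) (ball ζ₀ s) := by
      refine DifferentiableOn.diffContOnCl ?_
      rw [closure_ball _ hs.ne']
      exact (hk1 y hy).mono hcb
    have hmem : ζ₀ + t ∈ ball ζ₀ s := by
      rw [mem_ball, dist_eq_norm, add_sub_cancel_left]
      exact ht
    have h4 := hdc.two_pi_i_inv_smul_circleIntegral_sub_inv_smul hmem
    have hci : CircleIntegrable (fun w => k (w, y)) ζ₀ s := by
      refine ContinuousOn.circleIntegrable hs.le ?_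
      exact ((hk1 y hy).continuousOn).mono (fun z hz => (hsph z hz).1)
    have h5 := (hasSum_two_pi_I_cauchyPowerSeries_integral hci ht).const_smul
      ((2 * Real.pi * I : ℂ)⁻¹)
    rw [h4] at h5
    have e : (fun n : ℕ => t ^ n * ((2 * Real.pi * I : ℂ)⁻¹ *
        ∮ z in C(ζ₀, s), ((z - ζ₀)⁻¹) ^ n * ((z - ζ₀)⁻¹ * k (z, y)))) =
        fun n : ℕ => (2 * Real.pi * I : ℂ)⁻¹ •
          ∮ z in C(ζ₀, s), (t / (z - ζ₀)) ^ n • (z - ζ₀)⁻¹ • k (z, y) := by
      funext n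
      rw [smul_eq_mul, mul_left_comm, ← circleIntegral.integral_const_mul]
      congr 2
      funext z
      simp only [smul_eq_mul]
      rw [div_eq_mul_inv, mul_pow]
      ring
    rw [e]
    exact h5

/-- the cell of a point -/
noncomputable def cell (c : ℝ) (ζ : ℂ) : ℤ × ℤ := (⌊c * ζ.re⌋, ⌊c * ζ.im⌋)

theorem cell_meas (c : ℝ) : Measurable (cell c) := by
  unfold cell
  refine Measurable.prodMk ?_ ?_
  · exact (Measurable.const_mul Complex.measurable_re c).floor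
  · exact (Measurable.const_mul Complex.measurable_im c).floor

theorem cell_near {c : ℝ} (hc : 0 < c) {z w : ℂ} (h : cell c z = cell c w) : ‖z - w‖ < 2 / c := by
  have key : ∀ x y : ℝ, ⌊c * x⌋ = ⌊c * y⌋ → |x - y| < 1 / c := by
    intro x y hxy
    have h1 := Int.abs_sub_lt_one_of_floor_eq_floor hxy
    rw [← mul_sub, abs_mul, abs_of_pos hc] at h1
    rw [lt_div_iff₀ hc]
    linarith
  have h1 := key z.re w.re (congrArg Prod.fst h)
  have h2 := key z.im w.im (congrArg Prod.snd h)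
  have h3 := Complex.norm_le_abs_re_add_abs_im (z - w)
  rw [Complex.sub_re, Complex.sub_im] at h3
  calc ‖z - w‖ ≤ _ := h3
    _ < 1 / c + 1 / c := add_lt_add h1 h2
    _ = 2 / c := by ring

/-- **Measurable families of extensions.** -/
theorem fam_ext {D D₁ : Set (ℂ × ℂ)} (hD₁ : IsOpen D₁) {A : Set ℂ} {k : ℂ × ℂ → ℂ}
    {B s : ℝ} (hB : 0 ≤ B) (hs : 0 < s)
    (h : ∀ ζ₀ ∈ A, ∃ E : ℕ → ℂ × ℂ → ℂ, (∀ n, DifferentiableOn ℂ (E n) D₁) ∧
      (∀ n, ∀ x ∈ D₁, ‖E n x‖ ≤ B / s ^ n) ∧ ∀ ζ ∈ A, ‖ζ - ζ₀‖ < s / 2 →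
        (∀ p ∈ D, (p.1 + ζ₀ - ζ, p.2) ∈ D₁) ∧
        ∀ y, (ζ, y) ∈ D → HasSum (fun n => (ζ - ζ₀) ^ n * E n (ζ₀, y)) (k (ζ, y))) :
    ∃ e, Ext D A (fun p => (k p)⁻¹) (2 * B) e := by
  classical
  set c : ℝ := 4 / s with hc
  have hc0 : 0 < c := by positivity
  have hcs : 2 / c = s / 2 := by rw [hc]; field_simp; norm_num
  have h' : ∀ j : ℤ × ℤ, ∃ (z : ℂ) (E : ℕ → ℂ × ℂ → ℂ), (∀ n, DifferentiableOn ℂ (E n) D₁) ∧
      (∀ n, ∀ x ∈ D₁, ‖E n x‖ ≤ B / s ^ n) ∧ ∀ ζ ∈ A, cell c ζ = j → ‖ζ - z‖ < s / 2 ∧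
        (∀ p ∈ D, (p.1 + z - ζ, p.2) ∈ D₁) ∧
        ∀ y, (ζ, y) ∈ D → HasSum (fun n => (ζ - z) ^ n * E n (z, y)) (k (ζ, y)) := by
    intro j
    by_cases hj : ∃ z ∈ A, cell c z = j
    · obtain ⟨z, hz, hzj⟩ := hj
      obtain ⟨E, h1, h2, h3⟩ := h z hz
      refine ⟨z, E, h1, h2, fun ζ hζ hζj => ?_⟩
      have h4 : ‖ζ - z‖ < s / 2 := by
        rw [← hcs]
        exact cell_near hc0 (hζj.trans hzj.symm)
      exact ⟨h4, h3 ζ hζ h4⟩
    · refine ⟨0, fun _ _ => 0, fun n => differentiableOn_const _, fun n x _ => ?_,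
        fun ζ hζ hζj => absurd ⟨ζ, hζ, hζj⟩ hj⟩
      rw [norm_zero]
      positivity
  choose z E h1 h2 h3 using h'
  set T : ℤ × ℤ → Set (ℂ × (ℂ × ℂ)) := fun j =>
    {q | ‖q.1 - z j‖ < s / 2 ∧ (q.2.1 + z j - q.1, q.2.2) ∈ D₁} with hT
  set g : ℤ × ℤ → ℂ × (ℂ × ℂ) → ℂ := fun j q =>
    ∑' n, (q.1 - z j) ^ n * E j n (q.2.1 + z j - q.1, q.2.2) with hg
  have hsum : Summable (fun n : ℕ => B * (1 / 2 : ℝ) ^ n) :=
    (summable_geometric_of_lt_one (by norm_num) (by norm_num)).mul_left _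
  have hbd : ∀ j n, ∀ q ∈ T j, ‖(q.1 - z j) ^ n * E j n (q.2.1 + z j - q.1, q.2.2)‖ ≤
      B * (1 / 2 : ℝ) ^ n := by
    intro j n q hq
    rw [norm_mul, norm_pow]
    have h4 := h2 j n _ hq.2
    calc ‖q.1 - z j‖ ^ n * ‖E j n (q.2.1 + z j - q.1, q.2.2)‖ ≤ (s / 2) ^ n * (B / s ^ n) := by
          have := hq.1.le
          gcongr
      _ = B * (1 / 2) ^ n := by
          rw [div_pow, div_pow, one_pow]
          field_simp
  have hTo : ∀ j, IsOpen (T j) := by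
    intro j
    refine IsOpen.inter ?_ ?_
    · exact isOpen_lt (f := fun q : ℂ × (ℂ × ℂ) => ‖q.1 - z j‖) (by fun_prop) continuous_const
    · exact hD₁.preimage (f := fun q : ℂ × (ℂ × ℂ) => (q.2.1 + z j - q.1, q.2.2)) (by fun_prop)
  have hgc : ∀ j, ContinuousOn (g j) (T j) := by
    intro j
    refine continuousOn_tsum (fun n => ?_) hsum (fun n q hq => hbd j n q hq)
    refine ContinuousOn.mul (by fun_prop) ?_
    exact (h1 j n).continuousOn.comp (by fun_prop) (fun q hq => hq.2)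
  set G : ℤ × ℤ → ℂ × (ℂ × ℂ) → ℂ := fun j => (T j).piecewise (g j) 0 with hG
  have hGm : ∀ j, Measurable (G j) := fun j =>
    ContinuousOn.measurable_piecewise (hgc j) continuousOn_const (hTo j).measurableSet
  have hm : Measurable (fun q : (ℤ × ℤ) × (ℂ × (ℂ × ℂ)) => G q.1 q.2) :=
    measurable_from_prod_countable_right hGm
  have hTm : ∀ ζ ∈ A, ∀ p ∈ D, (ζ, p) ∈ T (cell c ζ) := by
    intro ζ hζ p hp
    obtain ⟨a1, a2, a3⟩ := h3 _ ζ hζ rfl
    exact ⟨a1, a2 p hp⟩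
  have hGe : ∀ ζ ∈ A, ∀ p ∈ D, G (cell c ζ) (ζ, p) = g (cell c ζ) (ζ, p) := fun ζ hζ p hp =>
    piecewise_eq_of_mem _ _ _ (hTm ζ hζ p hp)
  refine ⟨fun ζ p => G (cell c ζ) (ζ, p), ?_, ?_, ?_, ?_⟩
  · intro y
    have hφ : Measurable (fun q : ℂ × ℂ => (cell c q.1, (q.1, (q.2, y)))) := by
      refine ((cell_meas c).comp measurable_fst).prodMk ?_
      exact measurable_fst.prodMk (measurable_snd.prodMk measurable_const)
    exact hm.comp hφ
  · intro ζ hζ y hy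
    rw [hGe ζ hζ _ hy, inv_inv]
    obtain ⟨a1, a2, a3⟩ := h3 _ ζ hζ rfl
    have h4 := a3 y hy
    simp only [hg]
    rw [add_sub_cancel_left]
    exact h4.tsum_eq
  · intro ζ hζ
    obtain ⟨a1, a2, a3⟩ := h3 _ ζ hζ rfl
    have ho : IsOpen {p : ℂ × ℂ | (p.1 + z (cell c ζ) - ζ, p.2) ∈ D₁} :=
      hD₁.preimage (f := fun p : ℂ × ℂ => (p.1 + z (cell c ζ) - ζ, p.2)) (by fun_prop)
    obtain ⟨s1, -, -⟩ := sum_hol ho (fun n (p : ℂ × ℂ) => (ζ - z (cell c ζ)) ^ n *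
      E (cell c ζ) n (p.1 + z (cell c ζ) - ζ, p.2)) (fun n => by
        refine DifferentiableOn.const_mul ?_ _
        exact (h1 _ n).comp (f := fun p : ℂ × ℂ => (p.1 + z (cell c ζ) - ζ, p.2)) (by fun_prop)
          (fun p hp => hp)) hsum (fun n p hp => hbd (cell c ζ) n (ζ, p) ⟨a1, hp⟩)
    refine (s1.mono (fun p hp => a2 p hp)).congr (fun p hp => ?_)
    rw [hGe ζ hζ p hp]
  · intro ζ hζ p hp
    rw [hGe ζ hζ p hp]
    simp only [hg]
    refine (tsum_of_norm_bounded hsum.hasSum (fun n => hbd _ n _ (hTm ζ hζ p hp))).trans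
      (le_of_eq ?_)
    rw [tsum_mul_left, tsum_geometric_of_lt_one (by norm_num) (by norm_num)]
    ring

end Pool.Agent.N290.R5
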