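import Mathlib
import Pool.Agent.N290.RC.Model
import Pool.Agent.N290.R5.Tay

/-!
Localisation theorem on the parts `{|a i| < η}` of tube domains.
-/

set_option autoImplicit false

open MeasureTheory Metric Set Filter Topology Complex

namespace Pool.Agent.N290.R5

open Pool.Agent.N290.RC
open Pool.Agent.Y263.SC (Ext Ov AU)
open Pool.Agent.H788R3.Cor3 (open_all exhaust3)

/-- the fibre data of a bounded convex set -/
theorem fib_of {Ω' : Set (ℝ × ℝ)} (ho : IsOpen Ω') (hc : Convex ℝ Ω') {R : ℝ}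
    (hR : ∀ p ∈ Ω', |p.1| ≤ R ∧ |p.2| ≤ R) :
    ∃ a b : ℝ → ℝ, Fib (Prod.fst '' Ω') a b ∧ DT (Prod.fst '' Ω') a b = tube Ω' ∧
      ∀ t ∈ Prod.fst '' Ω', ∀ x, a t ≤ x → x ≤ b t → (t, x) ∈ closure Ω' := by
  classical
  have hR2 : ∀ p ∈ Ω', |p.2| ≤ R := fun p hp => (hR p hp).2
  set J : Set ℝ := Prod.fst '' Ω' with hJ
  have hJr : Prod.fst '' (refl Ω') = J := by
    ext t
    constructor
    · rintro ⟨p, hp, rfl⟩
      exact ⟨(p.1, -p.2), hp, rfl⟩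
    · rintro ⟨p, hp, rfl⟩
      refine ⟨(p.1, -p.2), ?_, rfl⟩
      change (p.1, - -p.2) ∈ Ω'
      rwa [neg_neg]
  have hJo : IsOpen J := isOpenMap_fst _ ho
  have hcv : ConvexOn ℝ J (lo Ω') := lo_conv ho hc hR2
  have hcv' : ConvexOn ℝ J (lo (refl Ω')) := by
    rw [← hJr]
    exact lo_conv (refl_open ho) (refl_conv hc) (refl_bd hR2)
  set a : ℝ → ℝ := J.piecewise (lo Ω') (fun _ => 0) with ha
  set b : ℝ → ℝ := J.piecewise (fun t => -lo (refl Ω') t) (fun _ => 0) with hb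
  have hae : ∀ t ∈ J, a t = lo Ω' t := fun t ht => piecewise_eq_of_mem _ _ _ ht
  have hbe : ∀ t ∈ J, b t = -lo (refl Ω') t := fun t ht => piecewise_eq_of_mem _ _ _ ht
  have hfib : ∀ t ∈ J, ∀ x, (t, x) ∈ Ω' ↔ a t < x ∧ x < b t := by
    intro t ht x
    rw [hae t ht, hbe t ht]
    exact fib_iff ho hc hR2 ht x
  have hlt : ∀ t ∈ J, a t < b t := by
    intro t ht
    obtain ⟨⟨t', x⟩, hx, rfl⟩ := ht
    have := (hfib _ ⟨_, hx, rfl⟩ x).1 hx
    exact this.1.trans this.2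
  have hF : Fib J a b := by
    refine ⟨hJo, ?_, ?_, hlt, ?_, ?_⟩
    · exact hcv.congr (fun t ht => (hae t ht).symm)
    · exact hcv'.neg.congr (fun t ht => (hbe t ht).symm)
    · exact ContinuousOn.measurable_piecewise (hcv.continuousOn hJo) continuousOn_const
        hJo.measurableSet
    · exact ContinuousOn.measurable_piecewise (hcv'.continuousOn hJo).neg continuousOn_const
        hJo.measurableSet
  have hDT : DT J a b = tube Ω' := by
    ext p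
    constructor
    · intro hp
      exact (hfib _ hp.1 _).2 hp.2
    · intro hp
      have h1 : p.1.re ∈ J := ⟨_, hp, rfl⟩
      exact ⟨h1, (hfib _ h1 _).1 hp⟩
  refine ⟨a, b, hF, hDT, ?_⟩
  intro t ht x h1 h2
  have h3 : x ∈ closure (Ioo (a t) (b t)) := by
    rw [closure_Ioo (hlt t ht).ne]
    exact ⟨h1, h2⟩
  refine map_mem_closure (f := fun x : ℝ => (t, x)) (by fun_prop) h3 ?_
  intro y hy
  exact (hfib t ht y).2 hy

/-- extension from one slice of a tube -/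
theorem ext_slice {Ω₁ Ω₂ : Set (ℝ × ℝ)} (ho : IsOpen Ω₁) (hc : Convex ℝ Ω₁) {R : ℝ}
    (hR : ∀ p ∈ Ω₁, |p.1| ≤ R ∧ |p.2| ≤ R) (ho₂ : IsOpen Ω₂) (hcl : closure Ω₁ ⊆ Ω₂) (ζ₀ : ℂ) :
    ExtP (fun y : ℂ => (ζ₀, y)) {y : ℂ | (ζ₀, y) ∈ tube Ω₂} (tube Ω₁) 72 := by
  classical
  intro k Q hQ hk hkb
  obtain ⟨a, b, hF, hDT, hcl'⟩ := fib_of ho hc hR
  set J : Set ℝ := Prod.fst '' Ω₁ with hJ
  by_cases hζ : ζ₀.re ∈ J
  · set S : Set ℂ := {y : ℂ | (ζ₀, y) ∈ tube Ω₂} with hS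
    have hSo : IsOpen S := (tube_open ho₂).preimage (f := fun y : ℂ => (ζ₀, y)) (by fun_prop)
    have hSm : ∀ y : ℂ, a ζ₀.re ≤ y.re → y.re ≤ b ζ₀.re → y ∈ S := by
      intro y h1 h2
      exact hcl (hcl' _ hζ _ h1 h2)
    set P : Set (ℂ × ℂ) := {ζ₀} ×ˢ S with hP
    set K : ℂ × ℂ → ℂ := P.piecewise (fun q => k q.2) (fun _ => 0) with hK
    have hKe : ∀ y ∈ S, K (ζ₀, y) = k y := by
      intro y hy
      have : (ζ₀, y) ∈ P := ⟨rfl, hy⟩
      simp only [hK]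
      rw [piecewise_eq_of_mem _ _ _ this]
    have hKm : Measurable K := by
      refine ContinuousOn.measurable_piecewise ?_ continuousOn_const ?_
      · exact hk.continuousOn.comp continuousOn_snd (fun q hq => hq.2)
      · exact (MeasurableSet.singleton ζ₀).prod hSo.measurableSet
    have h1 := ext_tube (A := {ζ₀}) (K := K) (Q := Q) hF (fun ζ h => by
        rw [mem_singleton_iff.1 h]; exact hζ) hKm ?_ ?_ ?_
    · refine ⟨ee a b K ζ₀, ?_, ?_, ?_⟩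
      · rw [← hDT]
        exact h1.diff ζ₀ rfl
      · intro x hx
        rw [← hDT] at hx
        exact h1.bd ζ₀ rfl x hx
      · intro y hy hy'
        rw [← hDT] at hy'
        have h2 := h1.self ζ₀ rfl y hy'
        rw [inv_inv, hKe y hy] at h2
        exact h2
    · intro ζ h
      rw [mem_singleton_iff.1 h]
      refine (hk.continuousOn.mono (s := S) (t := {y : ℂ | a ζ₀.re ≤ y.re ∧ y.re ≤ b ζ₀.re})
        (fun y hy => hSm y hy.1 hy.2)).congr ?_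
      intro y hy
      exact hKe y (hSm y hy.1 hy.2)
    · intro ζ h
      rw [mem_singleton_iff.1 h]
      refine (hk.mono (s := {y : ℂ | a ζ₀.re < y.re ∧ y.re < b ζ₀.re})
        (fun y hy => hSm y hy.1.le hy.2.le)).congr ?_
      intro y hy
      exact hKe y (hSm y hy.1.le hy.2.le)
    · intro ζ h y h2 h3
      rw [mem_singleton_iff.1 h] at h2 h3 ⊢
      rw [hKe y (hSm y h2 h3)]
      exact hkb y (hSm y h2 h3)
  · refine ⟨fun _ => 0, differentiableOn_const _, fun x _ => ?_, fun y _ hy => ?_⟩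
    · rw [norm_zero]; positivity
    · exact absurd ⟨_, hy, rfl⟩ hζ

/-- Lipschitz estimate for bounded holomorphic functions -/
theorem lip {g : ℂ → ℂ} {c : ℂ} {ρ : ℝ} (hg : DifferentiableOn ℂ g (ball c ρ))
    (hb : ∀ w ∈ ball c ρ, ‖g w‖ ≤ 1) {w : ℂ} (hw : w ∈ ball c ρ) :
    ‖g w - g c‖ ≤ 2 / ρ * ‖w - c‖ := by
  have hρ : 0 < ρ := (dist_nonneg).trans_lt hw
  have h1 : MapsTo g (ball c ρ) (closedBall (g c) 2) := by
    intro z hz
    rw [mem_closedBall, dist_eq_norm]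
    have h2 := hb z hz
    have h3 := hb c (mem_ball_self hρ)
    linarith [norm_sub_le (g z) (g c)]
  have h2 := Complex.dist_le_div_mul_dist_of_mapsTo_ball hg h1 hw
  rwa [dist_eq_norm, dist_eq_norm] at h2

/-- the constants -/
def CstB (N M n : ℕ) (ε η K η' C C₁ : ℝ) : Prop :=
  0 < ε ∧ 0 < η ∧ 0 ≤ K ∧ 0 ≤ C ∧ 0 < η' ∧ 1 ≤ C₁ ∧
    (∀ U : Set ℂ, IsOpen U → IsSimplyConnected U → U ≠ univ →
      ∀ f : ℂ → ℂ, DifferentiableOn ℂ f U → (∀ z ∈ U, ‖f z‖ ≤ 1) → Dec U f (η / 2) C₁) ∧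
    2 * η' ≤ η / 2 ∧ 2 * η' * C₁ ≤ 1 / 2 ∧
    SiegelY N M (ε / 2) K (2 * ((2 * C₁) ^ n * 72 * K)) C

/-- the constants -/
def CstA (N M n : ℕ) (ε η K η' C : ℝ) : Prop := ∃ C₁ : ℝ, CstB N M n ε η K η' C C₁

theorem SiegelY.mono {N M : ℕ} {ε K K' C C' : ℝ} (h : SiegelY N M ε K K' C) (hC : C ≤ C') :
    SiegelY N M ε K K' C' := by
  intro E _ _ _ D hr f η hη hf hfb hlim G hG hGb O hO hOε k hk hkb hGk e he
  obtain ⟨g, g0, h1, h2, h3, h4, h5⟩ := h E D hr f η hη hf hfb hlim G hG hGb O hO hOε k hk hkb hGk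
    e he
  exact ⟨g, g0, h1, h2, fun i p hp => (h3 i p hp).trans hC, fun m p hp => (h4 m p hp).trans hC, h5⟩

theorem cst_exists (N M n : ℕ) {ε η K : ℝ} (hε : 0 < ε) (hε1 : ε ≤ 1) (hη : 0 < η) (hη1 : η ≤ 1)
    (hK : 0 ≤ K) : ∃ η' C : ℝ, CstA N M n ε η K η' C := by
  obtain ⟨C₀, hC₀, H⟩ := dec_sc (η := η / 2) (by positivity) (by linarith)
  set C₁ : ℝ := max C₀ 1 with hC₁
  have h1 : 1 ≤ C₁ := le_max_right _ _
  obtain ⟨C₂, H₂⟩ := siegelY N M (ε := ε / 2) (K := K) (K' := 2 * ((2 * C₁) ^ n * 72 * K))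
    (by positivity) (by linarith) hK (by positivity)
  refine ⟨min (η / 4) (1 / (4 * C₁)), max C₂ 0, C₁, hε, hη, hK, le_max_right _ _, ?_, h1, ?_, ?_,
    ?_, SiegelY.mono H₂ (le_max_left _ _)⟩
  · exact lt_min (by positivity) (by positivity)
  · intro U hU hUc hne f hf hfb
    exact (H U hU hUc hne f hf hfb).mono (le_max_left _ _)
  · have := min_le_left (η / 4) (1 / (4 * C₁))
    linarith
  · have h2 := min_le_right (η / 4) (1 / (4 * C₁))
    have h3 : 1 / (4 * C₁) * C₁ = 1 / 4 := by field_simp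
    have h4 : min (η / 4) (1 / (4 * C₁)) * C₁ ≤ 1 / (4 * C₁) * C₁ := by gcongr
    linarith

end Pool.Agent.N290.R5
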