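import Mathlib
import Pool.Agent.N290.R5.TubeA

/-!
Localisation theorem on the parts `{|a i| < η}` of tube domains: measurable families of extensions,
and solutions over relatively compact parts.
-/

set_option autoImplicit false

open MeasureTheory Metric Set Filter Topology Complex

namespace Pool.Agent.N290.R5

open Pool.Agent.N290.RC
open Pool.Agent.Y263.SC (Ext Ov AU)
open Pool.Agent.H788R3.Cor3 (open_all exhaust3)

/-- a common margin -/
theorem margin {Ω Ω' : Set (ℝ × ℝ)} (ho : IsOpen Ω) {R : ℝ}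
    (hR : ∀ p ∈ Ω', |p.1| ≤ R ∧ |p.2| ≤ R) (hcl : closure Ω' ⊆ Ω) :
    ∃ ρ : ℝ, 0 < ρ ∧ thickening (3 * ρ) Ω' ⊆ Ω := by
  have hb : Bornology.IsBounded Ω' := by
    refine (isBounded_closedBall (x := (0 : ℝ × ℝ)) (r := R)).subset ?_
    intro p hp
    rw [mem_closedBall_zero_iff]
    exact max_le (hR p hp).1 (hR p hp).2
  have hK : IsCompact (closure Ω') := hb.isCompact_closure
  obtain ⟨δ, hδ, h⟩ := hK.exists_thickening_subset_open ho hcl
  refine ⟨δ / 3, by positivity, ?_⟩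
  have e : 3 * (δ / 3) = δ := by ring
  rw [e]
  exact (thickening_subset_of_subset δ subset_closure).trans h

theorem near_mem {Ω' : Set (ℝ × ℝ)} {r r' : ℝ} {t x t' x' : ℝ}
    (h : (t, x) ∈ thickening r Ω') (h1 : |t' - t| < r') (h2 : |x' - x| < r') :
    (t', x') ∈ thickening (r' + r) Ω' := by
  rw [mem_thickening_iff] at h ⊢
  obtain ⟨z, hz, hd⟩ := h
  refine ⟨z, hz, (dist_triangle _ (t, x) _).trans_lt (add_lt_add ?_ hd)⟩
  rw [Prod.dist_eq, Real.dist_eq, Real.dist_eq]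
  exact max_lt h1 h2

theorem fam_tube {N M n : ℕ} {ε η K η' C C₁ : ℝ} (hcst : CstB N M n ε η K η' C C₁) (hε1 : ε ≤ 1)
    (hη1 : η ≤ 1) {Ω : Set (ℝ × ℝ)} (hΩ : IsOpen Ω)
    (f : Fin N → ℂ → ℂ) (hf : ∀ i, DifferentiableOn ℂ (f i) (bs Ω))
    (hfb : ∀ i, ∀ z ∈ bs Ω, ‖f i z‖ ≤ 1)
    (a : Fin n → ℂ × ℂ → ℂ) (ha : ∀ i, DifferentiableOn ℂ (a i) (tube Ω))
    (hab : ∀ i, ∀ q ∈ tube Ω, ‖a i q‖ ≤ 1)
    (k : ℂ × ℂ → ℂ)
    (hk : DifferentiableOn ℂ k {q | q ∈ tube Ω ∧ (∀ i, ‖f i q.1‖ < ε) ∧ ∀ i, ‖a i q‖ < η})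
    (hkb : ∀ q ∈ tube Ω, (∀ i, ‖f i q.1‖ < ε) → (∀ i, ‖a i q‖ < η) → ‖k q‖ ≤ K)
    {Ω' : Set (ℝ × ℝ)} (hc : Convex ℝ Ω') {R : ℝ}
    (hR : ∀ p ∈ Ω', |p.1| ≤ R ∧ |p.2| ≤ R) (hcl : closure Ω' ⊆ Ω) :
    ∃ e, Ext {q | q ∈ tube Ω' ∧ ∀ i, ‖a i q‖ < η'} (AU {s | s.re ∈ Prod.fst '' Ω'} f (ε / 2))
      (fun p => (k p)⁻¹) (2 * ((2 * C₁) ^ n * 72 * K)) e := by
  obtain ⟨hε, hη, hK, hC0, hη', hC₁, H, hηη, hηC, hS⟩ := hcst
  obtain ⟨ρ, hρ, hth⟩ := margin hΩ hR hcl
  set Ω₁ : Set (ℝ × ℝ) := thickening ρ Ω' with hΩ₁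
  set Ω₂ : Set (ℝ × ℝ) := thickening (2 * ρ) Ω' with hΩ₂
  have hΩ₁o : IsOpen Ω₁ := isOpen_thickening
  have hΩ₂o : IsOpen Ω₂ := isOpen_thickening
  have h12 : closure Ω₁ ⊆ Ω₂ :=
    (closure_thickening_subset_cthickening _ _).trans
      (cthickening_subset_thickening' (by positivity) (by linarith) _)
  have h1s : Ω₁ ⊆ Ω := (thickening_mono (by linarith) _).trans hth
  have h2s : Ω₂ ⊆ Ω := (thickening_mono (by linarith) _).trans hth
  have h0s : Ω' ⊆ Ω₁ := self_subset_thickening hρ _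
  have h02 : Ω' ⊆ Ω₂ := self_subset_thickening (by positivity) _
  have hRth : ∀ r : ℝ, ∀ p ∈ thickening r Ω', |p.1| ≤ R + r ∧ |p.2| ≤ R + r := by
    intro r p hp
    obtain ⟨z, hz, hd⟩ := mem_thickening_iff.1 hp
    rw [Prod.dist_eq, Real.dist_eq, Real.dist_eq] at hd
    have h1 := (le_max_left _ _).trans_lt hd
    have h2 := (le_max_right _ _).trans_lt hd
    obtain ⟨h3, h4⟩ := hR z hz
    constructor
    · have := abs_add_le (p.1 - z.1) z.1
      rw [sub_add_cancel] at this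
      linarith
    · have := abs_add_le (p.2 - z.2) z.2
      rw [sub_add_cancel] at this
      linarith
  set m : ℝ := min ε (min η η') with hm
  have hm0 : 0 < m := lt_min hε (lt_min hη hη')
  have hmε : m ≤ ε := min_le_left _ _
  have hmη : m ≤ η := (min_le_right _ _).trans (min_le_left _ _)
  have hmη' : m ≤ η' := (min_le_right _ _).trans (min_le_right _ _)
  set s : ℝ := ρ * m / 24 with hs
  have hs0 : 0 < s := by positivity
  have hs24 : s ≤ ρ / 24 := by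
    rw [hs]
    have : ρ * m ≤ ρ * 1 := by gcongr; linarith
    linarith
  have hsρ : 2 / ρ * (2 * s) = m / 6 := by
    rw [hs]; field_simp; norm_num
  -- Lipschitz estimates
  have lipf : ∀ i, ∀ z : ℂ, (∃ x, (z.re, x) ∈ Ω') → ∀ w ∈ ball z (2 * s),
      ‖f i w - f i z‖ ≤ m / 6 := by
    rintro i z ⟨x, hx⟩ w hw
    have hb : ball z ρ ⊆ bs Ω := by
      intro w hw
      rw [mem_ball, dist_eq_norm] at hw
      refine ⟨x, h1s ?_⟩
      have h3 := near_mem (r := 0 + ρ / 2) (r' := ρ) (t := z.re) (x := x) (t' := w.re) (x' := x)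
        (Ω' := Ω') (self_subset_thickening (by positivity) _ hx) (by
          have := Complex.abs_re_le_norm (w - z)
          rw [Complex.sub_re] at this
          linarith) (by simpa using hρ)
      have h4 : (w.re, x) ∈ thickening ρ Ω' := by
        rw [mem_thickening_iff]
        refine ⟨(z.re, x), hx, ?_⟩
        rw [Prod.dist_eq, Real.dist_eq, Real.dist_eq]
        refine max_lt ?_ (by simpa using hρ)
        have := Complex.abs_re_le_norm (w - z)
        rw [Complex.sub_re] at this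
        linarith
      exact h4
    have hwρ : w ∈ ball z ρ := ball_subset_ball (by linarith) hw
    have h3 := lip ((hf i).mono hb) (fun w hw => hfb i w (hb hw)) hwρ
    rw [mem_ball, dist_eq_norm] at hw
    calc ‖f i w - f i z‖ ≤ 2 / ρ * ‖w - z‖ := h3
      _ ≤ 2 / ρ * (2 * s) := by gcongr
      _ = m / 6 := hsρ
  have hball : ∀ z y : ℂ, (z.re, y.re) ∈ Ω₂ → ∀ w ∈ ball z ρ, (w, y) ∈ tube Ω := by
    intro z y hzy w hw
    rw [mem_ball, dist_eq_norm] at hw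
    apply hth
    have h3 := near_mem (r := 2 * ρ) (r' := ρ) (t := z.re) (x := y.re) (t' := w.re) (x' := y.re)
      (Ω' := Ω') hzy (by
          have := Complex.abs_re_le_norm (w - z)
          rw [Complex.sub_re] at this
          linarith) (by simpa using hρ)
    have e : ρ + 2 * ρ = 3 * ρ := by ring
    rw [e] at h3
    exact h3
  have lipa : ∀ i, ∀ z y : ℂ, (z.re, y.re) ∈ Ω₂ → ∀ w ∈ ball z (2 * s),
      ‖a i (w, y) - a i (z, y)‖ ≤ m / 6 := by
    intro i z y hzy w hw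
    have hwρ : w ∈ ball z ρ := ball_subset_ball (by linarith) hw
    have hd : DifferentiableOn ℂ (fun w => a i (w, y)) (ball z ρ) := by
      refine (ha i).comp (f := fun w : ℂ => (w, y)) (by fun_prop) ?_
      intro w hw
      exact hball z y hzy w hw
    have h3 := lip hd (fun w hw => hab i _ (hball z y hzy w hw)) hwρ
    rw [mem_ball, dist_eq_norm] at hw
    calc ‖a i (w, y) - a i (z, y)‖ ≤ 2 / ρ * ‖w - z‖ := h3
      _ ≤ 2 / ρ * (2 * s) := by gcongr
      _ = m / 6 := hsρ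
  set D₁ : Set (ℂ × ℂ) := {q | q ∈ tube Ω₁ ∧ ∀ i, ‖a i q‖ < 2 * η'} with hD₁
  have hD₁o : IsOpen D₁ := by
    refine open_all (tube_open hΩ₁o) (F := fun i (q : ℂ × ℂ) => ‖a i q‖) (fun i => ?_) _
    exact ((ha i).continuousOn.mono (fun q hq => h1s hq)).norm
  refine fam_ext (D₁ := D₁) hD₁o (B := (2 * C₁) ^ n * 72 * K) (s := s) (by positivity) hs0 ?_
  rintro ζ₀ ⟨hζ₀, hζ₀f⟩
  obtain ⟨⟨t0, x0⟩, hx0, ht0⟩ := hζ₀
  simp only at ht0
  subst ht0
  set S : Set ℂ := {y : ℂ | (ζ₀, y) ∈ tube Ω₂} with hSdef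
  have hSo : IsOpen S := (tube_open hΩ₂o).preimage (f := fun y : ℂ => (ζ₀, y)) (by fun_prop)
  have hSc : Convex ℝ S := by
    intro p hp q hq c d hc' hd' hcd
    have h1 := (hc.thickening (2 * ρ)) hp hq hc' hd' hcd
    change (ζ₀.re, (c • p + d • q).re) ∈ Ω₂
    convert h1 using 1
    ext
    · simp only [Prod.fst_add, Prod.smul_fst, smul_eq_mul]
      rw [← add_mul, hcd, one_mul]
    · simp
  have hSne : S.Nonempty := ⟨(x0 : ℂ), by
    change (ζ₀.re, (x0 : ℂ).re) ∈ Ω₂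
    rw [Complex.ofReal_re]
    exact h02 hx0⟩
  have hSu : S ≠ univ := by
    intro h
    have h1 : ((R + 2 * ρ + 1 : ℝ) : ℂ) ∈ S := by rw [h]; exact mem_univ _
    have h2 := (hRth (2 * ρ) _ h1).2
    simp only [Complex.ofReal_re] at h2
    have := le_abs_self (R + 2 * ρ + 1)
    linarith
  have hSsc := Pool.Agent.H788R3.Cor2.conv_sc hSc hSne
  set W : Set ℂ := {y | y ∈ S ∧ ∀ i, ‖a i (ζ₀, y)‖ < η / 2} with hW
  have hsl : ∀ i, DifferentiableOn ℂ (fun y : ℂ => a i (ζ₀, y)) S := by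
    intro i
    refine (ha i).comp (f := fun y : ℂ => (ζ₀, y)) (by fun_prop) ?_
    intro y hy
    exact h2s hy
  have hWo : IsOpen W :=
    open_all hSo (F := fun i (y : ℂ) => ‖a i (ζ₀, y)‖) (fun i => (hsl i).continuousOn.norm) _
  have hWm : ∀ w ∈ ball ζ₀ (2 * s), ∀ y ∈ W, (w, y) ∈ tube Ω ∧ (∀ i, ‖f i w‖ < ε) ∧
      ∀ i, ‖a i (w, y)‖ < η := by
    intro w hw y hy
    refine ⟨hball ζ₀ y hy.1 w (ball_subset_ball (by linarith) hw), fun i => ?_, fun i => ?_⟩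
    · have h1 := lipf i ζ₀ ⟨x0, hx0⟩ w hw
      have h2 := hζ₀f i
      have h3 := norm_add_le (f i w - f i ζ₀) (f i ζ₀)
      rw [sub_add_cancel] at h3
      linarith
    · have h1 := lipa i ζ₀ y hy.1 w hw
      have h2 := hy.2 i
      have h3 := norm_add_le (a i (w, y) - a i (ζ₀, y)) (a i (ζ₀, y))
      rw [sub_add_cancel] at h3
      linarith
  obtain ⟨c, c1, c2, c3⟩ := taylor (k := k) (K := K) (ζ₀ := ζ₀) hs0 hWo
    (hk.mono (fun q hq => hWm q.1 hq.1 q.2 hq.2))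
    (fun w hw y hy => hkb _ (hWm w hw y hy).1 (hWm w hw y hy).2.1 (hWm w hw y hy).2.2)
  have hX := ext_n (η := η / 2) hC₁ H (η' := 2 * η') hηC (D := tube Ω) (D' := tube Ω₁)
    (tube_open hΩ₁o) (fun q hq => h1s hq) (ι := fun y : ℂ => (ζ₀, y)) (S := S) hSo hSsc hSu
    (by fun_prop) (fun y hy => h2s hy) (B := 72) (by norm_num)
    (ext_slice hΩ₁o (hc.thickening ρ) (hRth ρ) hΩ₂o h12 ζ₀) n a ha hab
  choose E e1 e2 e3 using fun j => hX (c j) (K / s ^ j) (by positivity) (c1 j) (c2 j)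
  refine ⟨E, e1, ?_, ?_⟩
  · intro j x hx
    refine (e2 j x hx).trans (le_of_eq ?_)
    ring
  · rintro ζ ⟨hζ, hζf⟩ hζζ
    have hnear : ∀ p ∈ {q | q ∈ tube Ω' ∧ ∀ i, ‖a i q‖ < η'}, (p.1 + ζ₀ - ζ, p.2) ∈ D₁ := by
      rintro ⟨p1, p2⟩ ⟨hp, hpa⟩
      have hd : ‖p1 + ζ₀ - ζ - p1‖ < s / 2 := by
        have e : p1 + ζ₀ - ζ - p1 = -(ζ - ζ₀) := by ring
        rw [e, norm_neg]
        exact hζζ
      refine ⟨?_, fun i => ?_⟩
      · change ((p1 + ζ₀ - ζ).re, p2.re) ∈ thickening ρ Ω'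
        rw [mem_thickening_iff]
        refine ⟨(p1.re, p2.re), hp, ?_⟩
        rw [Prod.dist_eq, Real.dist_eq, Real.dist_eq]
        refine max_lt ?_ (by simpa using hρ)
        have := Complex.abs_re_le_norm (p1 + ζ₀ - ζ - p1)
        rw [Complex.sub_re] at this
        simp only
        linarith
      · have h1 := lipa i p1 p2 (h02 hp) (p1 + ζ₀ - ζ) (by
          rw [mem_ball, dist_eq_norm]; linarith)
        have h2 := hpa i
        have h3 := norm_add_le (a i (p1 + ζ₀ - ζ, p2) - a i (p1, p2)) (a i (p1, p2))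
        rw [sub_add_cancel] at h3
        simp only
        linarith
    refine ⟨hnear, ?_⟩
    intro y hy
    have h1 : (ζ₀, y) ∈ D₁ := by
      have := hnear _ hy
      simp only [add_sub_cancel_left] at this
      exact this
    have h2 : y ∈ W := by
      refine ⟨?_, fun i => ?_⟩
      · exact thickening_mono (by linarith) _ h1.1
      · have := h1.2 i
        linarith
    have h3 := c3 y h2 (ζ - ζ₀) (by linarith)
    rw [add_sub_cancel] at h3
    have h4 : ∀ j, E j (ζ₀, y) = c j y := fun j => e3 j y h2 h1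
    simp only [h4]
    exact h3

end Pool.Agent.N290.R5
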