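import Mathlib
import Pool.Agent.N290.R5.TubeB

/-!
Localisation theorem on the parts `{|a i| < η}` of tube domains.
-/

set_option autoImplicit false

open MeasureTheory Metric Set Filter Topology Complex

namespace Pool.Agent.N290.R5

open Pool.Agent.N290.RC
open Pool.Agent.Y263.SC (Ext Ov AU)
open Pool.Agent.H788R3.Cor3 (open_all exhaust3)

theorem tube_bddA {N M n : ℕ} {ε η K η' C : ℝ} (hcst : CstA N M n ε η K η' C) (hε1 : ε ≤ 1)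
    (hη1 : η ≤ 1) {Ω : Set (ℝ × ℝ)} (hΩ : IsOpen Ω)
    (f : Fin N → ℂ → ℂ) (hf : ∀ i, DifferentiableOn ℂ (f i) (bs Ω))
    (hfb : ∀ i, ∀ z ∈ bs Ω, ‖f i z‖ ≤ 1)
    (a : Fin n → ℂ × ℂ → ℂ) (ha : ∀ i, DifferentiableOn ℂ (a i) (tube Ω))
    (hab : ∀ i, ∀ q ∈ tube Ω, ‖a i q‖ ≤ 1)
    (G : Fin M → ℂ × ℂ → ℂ) (hG : ∀ m, DifferentiableOn ℂ (G m) (tube Ω))
    (hGb : ∀ m, ∀ q ∈ tube Ω, ‖G m q‖ ≤ 1)
    (k : Fin M → ℂ × ℂ → ℂ)
    (hk : ∀ m, DifferentiableOn ℂ (k m)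
      {q | q ∈ tube Ω ∧ (∀ i, ‖f i q.1‖ < ε) ∧ ∀ i, ‖a i q‖ < η})
    (hkb : ∀ m, ∀ q ∈ tube Ω, (∀ i, ‖f i q.1‖ < ε) → (∀ i, ‖a i q‖ < η) → ‖k m q‖ ≤ K)
    (hGk : ∀ q ∈ tube Ω, (∀ i, ‖f i q.1‖ < ε) → (∀ i, ‖a i q‖ < η) → ∑ m, G m q * k m q = 1)
    {Ω' : Set (ℝ × ℝ)} (ho : IsOpen Ω') (hc : Convex ℝ Ω') (hne : Ω'.Nonempty) {R : ℝ}
    (hR : ∀ p ∈ Ω', |p.1| ≤ R ∧ |p.2| ≤ R) (hcl : closure Ω' ⊆ Ω) :
    GS {q | q ∈ tube Ω' ∧ ∀ i, ‖a i q‖ < η'}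
      (Sum.elim (fun i q => f i q.1) G : Fin N ⊕ Fin M → ℂ × ℂ → ℂ) C := by
  have hΩ' : Ω' ⊆ Ω := subset_closure.trans hcl
  obtain ⟨C₁, hB⟩ := hcst
  have hB' := hB
  obtain ⟨hε, hη, -, -, hη', -, -, hηη, -, hS⟩ := hB'
  have hη'η : η' ≤ η := by linarith
  set J : Set ℝ := Prod.fst '' Ω' with hJ
  have hJo : IsOpen J := isOpenMap_fst _ ho
  set U : Set ℂ := {s | s.re ∈ J} with hU
  have hUo : IsOpen U := hJo.preimage Complex.continuous_re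
  have hJc : Convex ℝ J := hc.linear_image (LinearMap.fst ℝ ℝ ℝ)
  have hUc : Convex ℝ U := hJc.linear_preimage Complex.reLm
  obtain ⟨p0, hp0⟩ := hne
  have hUne : U.Nonempty := ⟨(p0.1 : ℂ), ⟨p0, hp0, by simp⟩⟩
  have hUu : U ≠ univ := by
    intro h
    have h1 : ((R + 1 : ℝ) : ℂ) ∈ U := by rw [h]; exact mem_univ _
    obtain ⟨p, hp, hp1⟩ := h1
    have h2 := (hR p hp).1
    rw [hp1, Complex.ofReal_re] at h2
    have := le_abs_self (R + 1)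
    linarith
  have hUb : U ⊆ bs Ω := by
    rintro s ⟨p, hp, hps⟩
    refine ⟨p.2, hΩ' ?_⟩
    rw [← hps]
    exact hp
  set D : Set (ℂ × ℂ) := {q | q ∈ tube Ω' ∧ ∀ i, ‖a i q‖ < η'} with hD
  have hDs : D ⊆ tube Ω := fun q hq => hΩ' hq.1
  have hDo : IsOpen D := by
    refine open_all (tube_open ho) (F := fun i (q : ℂ × ℂ) => ‖a i q‖) (fun i => ?_) _
    exact ((ha i).continuousOn.mono (fun q hq => hΩ' hq)).norm
  have hX : ∀ m, ∃ e, Ext D (AU U f (ε / 2)) (fun p => (k m p)⁻¹)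
      (2 * ((2 * C₁) ^ n * 72 * K)) e := fun m =>
    fam_tube hB hε1 hη1 hΩ f hf hfb a ha hab (k m) (hk m) (hkb m) hc hR hcl
  choose e he using hX
  have hsub : ∀ q : ℂ × ℂ, q ∈ D → (∀ i, ‖f i q.1‖ < ε / 2) →
      q ∈ tube Ω ∧ (∀ i, ‖f i q.1‖ < ε) ∧ ∀ i, ‖a i q‖ < η := fun q hq hq' =>
    ⟨hDs hq, fun i => (hq' i).trans (by linarith), fun i => (hq.2 i).trans_le hη'η⟩
  obtain ⟨g, g₀, a1, a2, a3, a4, a5⟩ := base_thmY (D := D) (by positivity) hS hUo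
    (Pool.Agent.H788R3.Cor2.conv_sc hUc hUne) hUu hUne hDo (fun p hp => ⟨_, hp.1, rfl⟩) f
    (fun i => (hf i).mono hUb) (fun i z hz => hfb i z (hUb hz)) G
    (fun m => (hG m).mono hDs) (fun m q hq => hGb m q (hDs hq)) k
    (fun m => (hk m).mono (fun q hq => hsub q hq.1 hq.2))
    (fun m q hq hq' => hkb m q (hsub q hq hq').1 (hsub q hq hq').2.1 (hsub q hq hq').2.2)
    (fun q hq hq' => hGk q (hsub q hq hq').1 (hsub q hq hq').2.1 (hsub q hq hq').2.2) he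
  refine ⟨Sum.elim g g₀, ?_, ?_, ?_⟩
  · rintro (i | i)
    · exact a1 i
    · exact a2 i
  · rintro (i | i)
    · exact a3 i
    · exact a4 i
  · intro q hq
    rw [Fintype.sum_sum_type]
    exact a5 q hq

/-- an exhaustion of a convex set by bounded convex sets -/
theorem exh {Ω : Set (ℝ × ℝ)} (hΩ : IsOpen Ω) (hconv : Convex ℝ Ω) (hne : Ω.Nonempty) :
    ∃ O : ℕ → Set (ℝ × ℝ), (∀ n, IsOpen (O n)) ∧ (∀ n, Convex ℝ (O n)) ∧ (∀ n, (O n).Nonempty) ∧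
      (∀ n, ∃ R : ℝ, ∀ p ∈ O n, |p.1| ≤ R ∧ |p.2| ≤ R) ∧ (∀ n, closure (O n) ⊆ Ω) ∧
      Monotone (fun n => tube (O n)) ∧ (⋃ n, tube (O n)) = tube Ω := by
  obtain ⟨p₀, hp₀⟩ := hne
  have hc1 : ∀ n : ℕ, (1 : ℝ) ≤ 1 + 1 / ((n : ℝ) + 1) := by
    intro n
    have : (0 : ℝ) ≤ 1 / ((n : ℝ) + 1) := by positivity
    linarith
  have hcm : ∀ n m : ℕ, n ≤ m → 1 + 1 / ((m : ℝ) + 1) ≤ 1 + 1 / ((n : ℝ) + 1) := by
    intro n m hnm
    have : (n : ℝ) ≤ m := by exact_mod_cast hnm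
    gcongr
  have hop : ∀ n, IsOpen (On Ω p₀ n) := by
    intro n
    refine (hΩ.inter isOpen_ball).preimage
      (f := fun p : ℝ × ℝ => p₀ + (1 + 1 / ((n : ℝ) + 1)) • (p - p₀)) (by fun_prop)
  have hcv : ∀ n, Convex ℝ (On Ω p₀ n) := by
    intro n p hp q hq c d hc hd hcd
    have h1 := (hconv.inter (convex_ball p₀ ((n : ℝ) + 1))) hp hq hc hd hcd
    change p₀ + (1 + 1 / ((n : ℝ) + 1)) • (c • p + d • q - p₀) ∈ Ω ∩ ball p₀ (n + 1)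
    have e : p₀ + (1 + 1 / ((n : ℝ) + 1)) • (c • p + d • q - p₀) =
        c • (p₀ + (1 + 1 / ((n : ℝ) + 1)) • (p - p₀)) +
        d • (p₀ + (1 + 1 / ((n : ℝ) + 1)) • (q - p₀)) := by
      have hd' : d = 1 - c := by linarith
      subst hd'
      module
    rw [e]
    exact h1
  have hne : ∀ n, (On Ω p₀ n).Nonempty := by
    intro n
    refine ⟨p₀, ?_⟩
    change p₀ + (1 + 1 / ((n : ℝ) + 1)) • (p₀ - p₀) ∈ Ω ∩ ball p₀ (n + 1)
    rw [sub_self, smul_zero, add_zero]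
    exact ⟨hp₀, mem_ball_self (by positivity)⟩
  have hbd : ∀ n, ∀ p ∈ On Ω p₀ n, ‖(1 + 1 / ((n : ℝ) + 1)) • (p - p₀)‖ < n + 1 := by
    intro n p hp
    have h1 := hp.2
    rw [mem_ball, dist_eq_norm, add_sub_cancel_left] at h1
    exact h1
  have hbd2 : ∀ n, ∀ p ∈ On Ω p₀ n, |p.1| ≤ ‖p₀‖ + (n + 1) ∧ |p.2| ≤ ‖p₀‖ + (n + 1) := by
    intro n p hp
    have h1 := hbd n p hp
    rw [norm_smul, Real.norm_of_nonneg (by linarith [hc1 n])] at h1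
    have h2 : 1 * ‖p - p₀‖ ≤ (1 + 1 / ((n : ℝ) + 1)) * ‖p - p₀‖ := by gcongr; exact hc1 n
    have h3 : ‖p‖ ≤ ‖p₀‖ + (n + 1) := by
      have := norm_add_le p₀ (p - p₀)
      rw [add_sub_cancel] at this
      linarith
    exact ⟨(norm_fst_le p).trans h3, (norm_snd_le p).trans h3⟩
  have hcl : ∀ n, closure (On Ω p₀ n) ⊆ Ω := by
    intro n p hp
    have h1 : p₀ + (1 + 1 / ((n : ℝ) + 1)) • (p - p₀) ∈ closure Ω := by
      refine map_mem_closure (f := fun p : ℝ × ℝ => p₀ + (1 + 1 / ((n : ℝ) + 1)) • (p - p₀))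
        (by fun_prop) hp ?_
      intro q hq
      exact hq.1
    set c := 1 + 1 / ((n : ℝ) + 1) with hc
    have hc1' : 1 < c := by
      have : 0 < 1 / ((n : ℝ) + 1) := by positivity
      rw [hc]; linarith
    have h2 := hconv.combo_interior_closure_mem_interior (x := p₀) (y := p₀ + c • (p - p₀))
      (a := 1 - c⁻¹) (b := c⁻¹) (by rwa [hΩ.interior_eq]) h1 (by
        rw [sub_pos]; exact inv_lt_one_of_one_lt₀ hc1') (by positivity) (by ring)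
    rw [hΩ.interior_eq] at h2
    have e : (1 - c⁻¹) • p₀ + c⁻¹ • (p₀ + c • (p - p₀)) = p := by
      rw [smul_add, smul_smul, inv_mul_cancel₀ (by positivity)]
      module
    rwa [e] at h2
  have hmono : Monotone (fun n => tube (On Ω p₀ n)) := by
    intro n m hnm p hp
    change (p.1.re, p.2.re) ∈ On Ω p₀ m
    have hp' : (p.1.re, p.2.re) ∈ On Ω p₀ n := hp
    set r : ℝ × ℝ := (p.1.re, p.2.re) with hr
    have h0 := hbd n r hp'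
    have h1 := hp'.1
    set c := 1 + 1 / ((n : ℝ) + 1) with hc
    set c' := 1 + 1 / ((m : ℝ) + 1) with hc'
    have hcc : c' ≤ c := hcm n m hnm
    have h1c : 1 ≤ c := hc1 n
    have h1c' : 1 ≤ c' := hc1 m
    constructor
    · have h2 := hconv hp₀ h1 (a := 1 - c' / c) (b := c' / c)
        (by rw [sub_nonneg]; exact div_le_one_of_le₀ hcc (by linarith)) (by positivity) (by ring)
      have e : (1 - c' / c) • p₀ + (c' / c) • (p₀ + c • (r - p₀)) = p₀ + c' • (r - p₀) := by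
        rw [smul_add (c' / c), smul_smul, div_mul_cancel₀ _ (by positivity)]
        module
      rwa [e] at h2
    · rw [mem_ball, dist_eq_norm, add_sub_cancel_left]
      rw [norm_smul, Real.norm_of_nonneg (by linarith)] at h0 ⊢
      have h3 : c' * ‖r - p₀‖ ≤ c * ‖r - p₀‖ := by gcongr
      have h4 : (n : ℝ) ≤ m := by exact_mod_cast hnm
      linarith
  have hU : (⋃ n, tube (On Ω p₀ n)) = tube Ω := by
    ext p
    rw [mem_iUnion]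
    constructor
    · rintro ⟨n, hn⟩
      exact hcl n (subset_closure hn)
    · intro hp
      have hp' : (p.1.re, p.2.re) ∈ Ω := hp
      set r : ℝ × ℝ := (p.1.re, p.2.re) with hr
      have h1 : Tendsto (fun n : ℕ => p₀ + (1 + 1 / ((n : ℝ) + 1)) • (r - p₀)) atTop (𝓝 r) := by
        have h2 := tendsto_one_div_add_atTop_nhds_zero_nat (𝕜 := ℝ)
        have h3 := (tendsto_const_nhds (x := p₀)).add (((tendsto_const_nhds (x := (1 : ℝ))).add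
          h2).smul (tendsto_const_nhds (x := r - p₀)))
        rw [add_zero, one_smul, add_sub_cancel] at h3
        exact h3
      have h2 : ∀ᶠ n : ℕ in atTop, p₀ + (1 + 1 / ((n : ℝ) + 1)) • (r - p₀) ∈ Ω :=
        h1.eventually (hΩ.mem_nhds hp')
      have h3 : ∀ᶠ n : ℕ in atTop, 2 * ‖r - p₀‖ < n :=
        tendsto_natCast_atTop_atTop.eventually_gt_atTop _
      obtain ⟨n, hn1, hn2⟩ := (h2.and h3).exists
      refine ⟨n, hn1, ?_⟩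
      rw [mem_ball, dist_eq_norm, add_sub_cancel_left, norm_smul,
        Real.norm_of_nonneg (by linarith [hc1 n])]
      have h4 : 1 + 1 / ((n : ℝ) + 1) ≤ 2 := by
        have : 1 / ((n : ℝ) + 1) ≤ 1 := by
          rw [div_le_one (by positivity)]
          have : (0 : ℝ) ≤ n := Nat.cast_nonneg n
          linarith
        linarith
      have h5 : (1 + 1 / ((n : ℝ) + 1)) * ‖r - p₀‖ ≤ 2 * ‖r - p₀‖ := by gcongr
      linarith
  exact ⟨fun n => On Ω p₀ n, hop, hcv, hne, fun n => ⟨_, hbd2 n⟩, hcl, hmono, hU⟩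

/-- **Localisation theorem on the parts `{|a i| < η}` of tube domains.** -/
theorem tube_locA {N M n : ℕ} {ε η K η' C : ℝ} (hcst : CstA N M n ε η K η' C) (hε1 : ε ≤ 1)
    (hη1 : η ≤ 1) {Ω : Set (ℝ × ℝ)} (hΩ : IsOpen Ω) (hconv : Convex ℝ Ω)
    (f : Fin N → ℂ → ℂ) (hf : ∀ i, DifferentiableOn ℂ (f i) (bs Ω))
    (hfb : ∀ i, ∀ z ∈ bs Ω, ‖f i z‖ ≤ 1)
    (a : Fin n → ℂ × ℂ → ℂ) (ha : ∀ i, DifferentiableOn ℂ (a i) (tube Ω))
    (hab : ∀ i, ∀ q ∈ tube Ω, ‖a i q‖ ≤ 1)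
    (G : Fin M → ℂ × ℂ → ℂ) (hG : ∀ m, DifferentiableOn ℂ (G m) (tube Ω))
    (hGb : ∀ m, ∀ q ∈ tube Ω, ‖G m q‖ ≤ 1)
    (k : Fin M → ℂ × ℂ → ℂ)
    (hk : ∀ m, DifferentiableOn ℂ (k m)
      {q | q ∈ tube Ω ∧ (∀ i, ‖f i q.1‖ < ε) ∧ ∀ i, ‖a i q‖ < η})
    (hkb : ∀ m, ∀ q ∈ tube Ω, (∀ i, ‖f i q.1‖ < ε) → (∀ i, ‖a i q‖ < η) → ‖k m q‖ ≤ K)
    (hGk : ∀ q ∈ tube Ω, (∀ i, ‖f i q.1‖ < ε) → (∀ i, ‖a i q‖ < η) → ∑ m, G m q * k m q = 1) :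
    GS {q | q ∈ tube Ω ∧ ∀ i, ‖a i q‖ < η'}
      (Sum.elim (fun i q => f i q.1) G : Fin N ⊕ Fin M → ℂ × ℂ → ℂ) C := by
  rcases Ω.eq_empty_or_nonempty with rfl | hne
  · have he : {q : ℂ × ℂ | q ∈ tube (∅ : Set (ℝ × ℝ)) ∧ ∀ i, ‖a i q‖ < η'} = ∅ := by
      ext p; simp [tube]
    rw [he]
    exact ⟨fun _ _ => 0, fun i => differentiableOn_empty, fun i q hq => absurd hq (notMem_empty _),
      fun q hq => absurd hq (notMem_empty _)⟩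
  obtain ⟨O, h1, h2, h3, h4, h5, h6, h7⟩ := exh hΩ hconv hne
  have hOs : ∀ n, tube (O n) ⊆ tube Ω := fun n q hq => h5 n (subset_closure hq)
  have hop : ∀ m, IsOpen {q | q ∈ tube (O m) ∧ ∀ i, ‖a i q‖ < η'} := by
    intro m
    refine open_all (tube_open (h1 m)) (F := fun i (q : ℂ × ℂ) => ‖a i q‖) (fun i => ?_) _
    exact ((ha i).continuousOn.mono (hOs m)).norm
  have hmono : Monotone (fun m => {q | q ∈ tube (O m) ∧ ∀ i, ‖a i q‖ < η'}) :=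
    fun m m' hmm q hq => ⟨h6 hmm hq.1, hq.2⟩
  have hU : (⋃ m, {q | q ∈ tube (O m) ∧ ∀ i, ‖a i q‖ < η'}) =
      {q | q ∈ tube Ω ∧ ∀ i, ‖a i q‖ < η'} := by
    ext q
    rw [← h7]
    simp only [mem_iUnion, mem_ofPred_eq]
    constructor
    · rintro ⟨m, hm, hm'⟩
      exact ⟨⟨m, hm⟩, hm'⟩
    · rintro ⟨⟨m, hm⟩, hm'⟩
      exact ⟨m, hm, hm'⟩
  obtain ⟨v, hv1, hv2, hv3⟩ := exhaust3 (C := C) (κ := Fin N ⊕ Fin M)
    (fun m => {q | q ∈ tube (O m) ∧ ∀ i, ‖a i q‖ < η'}) hop hmono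
    (Sum.elim (fun i q => f i q.1) G) (fun m => by
      obtain ⟨R, hR⟩ := h4 m
      exact tube_bddA hcst hε1 hη1 hΩ f hf hfb a ha hab G hG hGb k hk hkb hGk (h1 m) (h2 m) (h3 m)
        hR (h5 m))
  rw [hU] at hv1 hv2 hv3
  exact ⟨v, hv1, hv2, hv3⟩

end Pool.Agent.N290.R5
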