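import Mathlib
import Pool.Agent.N290.RC.BallF
import Pool.Agent.N290.R5.ModelA

/-!
Model domains for the one-parameter groups of automorphisms of the ball of `ℂ²`.
-/

set_option autoImplicit false

open Metric Set Filter Topology Matrix
open Complex hiding lift

namespace Pool.Agent.N290.R5

open Pool.Agent.N290.RC hiding case_E case_H case_P case_Q good_neg good_tri good_null good_all
open Pool.Agent.H788R3.Cor3 (open_all)

/-- the ball is the image of a model domain, on which the vector field of `X` is in normal form -/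
def Chart (X : Matrix (Fin 3) (Fin 3) ℂ) : Prop :=
  ∃ (κ₁ κ₂ : Bool) (D : Set (ℂ × ℂ)) (a b : ℝ) (Ψ Φ : ℂ × ℂ → ℂ × ℂ), Mod κ₁ κ₂ D ∧
    a ^ 2 + b ^ 2 ≠ 0 ∧ DifferentiableOn ℂ Ψ D ∧ MapsTo Ψ D B2 ∧ DifferentiableOn ℂ Φ B2 ∧
    MapsTo Φ B2 D ∧ (∀ z ∈ B2, Ψ (Φ z) = z) ∧
    ∀ w ∈ D, ∃ c : ℂ, c ≠ 0 ∧ c • fderiv ℂ Ψ w (a * xi κ₁ w.1, b * xi κ₂ w.2) = VX X (Ψ w)

/-- charts from linear data -/
theorem chart_of_model {P Q X X' : Matrix (Fin 3) (Fin 3) ℂ} (hPQ : P * Q = 1)
    (hX : X * P = P * X') {q' : (Fin 3 → ℂ) → ℝ} (hq : ∀ v, qB (P *ᵥ v) = q' v)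
    {κ₁ κ₂ : Bool} {D : Set (ℂ × ℂ)} (hD : Mod κ₁ κ₂ D) {h : ℂ × ℂ → Fin 3 → ℂ}
    (hh : Differentiable ℂ h) (hhD : ∀ w ∈ D, q' (h w) < 0) {ρ : (Fin 3 → ℂ) → ℂ × ℂ}
    (hρ : DifferentiableOn ℂ ρ {v | q' v < 0}) (hρD : ∀ v, q' v < 0 → ρ v ∈ D)
    (hρh : ∀ v, q' v < 0 → ∃ s : ℂ, s ≠ 0 ∧ h (ρ v) = s • v) {a b : ℝ} {c : ℂ} (hc : c ≠ 0)
    (hab : a ^ 2 + b ^ 2 ≠ 0)
    (hode : ∀ w ∈ D, ∃ l : ℂ,
      c • fderiv ℂ h w (a * xi κ₁ w.1, b * xi κ₂ w.2) = X' *ᵥ h w - l • h w) : Chart X := by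
  set Ψ : ℂ × ℂ → ℂ × ℂ := fun w => aff (P *ᵥ h w) with hΨ
  have hq0 : ∀ w ∈ D, qB (P *ᵥ h w) < 0 := fun w hw => by rw [hq]; exact hhD w hw
  have hder : ∀ w, HasFDerivAt (fun w => P *ᵥ h w)
      ((LinearMap.toContinuousLinearMap (Matrix.mulVecLin P)).comp (fderiv ℂ h w)) w := by
    intro w
    exact (LinearMap.toContinuousLinearMap (Matrix.mulVecLin P)).hasFDerivAt.comp w
      (hh w).hasFDerivAt
  have hΨd : DifferentiableOn ℂ Ψ D := by
    intro w hw
    exact (aff_deriv (hder w) (v0_ne (hq0 w hw)) 0).1.differentiableWithinAt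
  have hΨm : MapsTo Ψ D B2 := fun w hw => aff_mem (hq0 w hw)
  have hV : ∀ w ∈ D, ∃ c : ℂ, c ≠ 0 ∧
      c • fderiv ℂ Ψ w (a * xi κ₁ w.1, b * xi κ₂ w.2) = VX X (Ψ w) := by
    intro w hw
    refine ⟨c, hc, ?_⟩
    obtain ⟨l, hl⟩ := hode w hw
    have h0 := v0_ne (hq0 w hw)
    set v := P *ᵥ h w with hv
    have e1 := (aff_deriv (hder w) h0 (a * xi κ₁ w.1, b * xi κ₂ w.2)).2
    change fderiv ℂ Ψ w (a * xi κ₁ w.1, b * xi κ₂ w.2) = _ at e1
    rw [e1]
    set y := ((LinearMap.toContinuousLinearMap (Matrix.mulVecLin P)).comp (fderiv ℂ h w))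
      (a * xi κ₁ w.1, b * xi κ₂ w.2) with hy
    have e2 : c • y = X *ᵥ v - l • v := by
      have : y = P *ᵥ (fderiv ℂ h w (a * xi κ₁ w.1, b * xi κ₂ w.2)) := rfl
      rw [this, ← Matrix.mulVec_smul, hl, Matrix.mulVec_sub, Matrix.mulVec_smul,
        Matrix.mulVec_mulVec, ← hX, ← Matrix.mulVec_mulVec]
    have e3 : ∀ i, c * y i = (X *ᵥ v) i - l * v i := by
      intro i
      have := congrFun e2 i
      simpa using this
    have e4 : X *ᵥ lift (Ψ w) = (v 0)⁻¹ • (X *ᵥ v) := by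
      change X *ᵥ lift (aff v) = _
      rw [lift_aff h0, Matrix.mulVec_smul]
    unfold VX
    rw [e4]
    change c • (_, _) = _
    ext
    · simp only [Prod.smul_mk, smul_eq_mul, Pi.smul_apply]
      change c * ((y 1 - v 1 / v 0 * y 0) / v 0) = (v 0)⁻¹ * (X *ᵥ v) 1 -
        (v 1 / v 0) * ((v 0)⁻¹ * (X *ᵥ v) 0)
      have f1 := e3 1
      have f0 := e3 0
      field_simp
      linear_combination (v 0) * f1 - (v 1) * f0
    · simp only [Prod.smul_mk, smul_eq_mul, Pi.smul_apply]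
      change c * ((y 2 - v 2 / v 0 * y 0) / v 0) = (v 0)⁻¹ * (X *ᵥ v) 2 -
        (v 2 / v 0) * ((v 0)⁻¹ * (X *ᵥ v) 0)
      have f1 := e3 2
      have f0 := e3 0
      field_simp
      linear_combination (v 0) * f1 - (v 2) * f0
  have hq1 : ∀ z ∈ B2, q' (Q *ᵥ lift z) < 0 := by
    intro z hz
    rw [← hq, Matrix.mulVec_mulVec, hPQ, Matrix.one_mulVec, qB_lift]
    exact hz
  have hΨΦ : ∀ z ∈ B2, Ψ (ρ (Q *ᵥ lift z)) = z := by
    intro z hz
    obtain ⟨s, hs, hs2⟩ := hρh _ (hq1 z hz)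
    change aff (P *ᵥ h (ρ (Q *ᵥ lift z))) = z
    rw [hs2, Matrix.mulVec_smul, Matrix.mulVec_mulVec, hPQ, Matrix.one_mulVec]
    exact aff_lift z hs
  have hld : Differentiable ℂ (fun z : ℂ × ℂ => Q *ᵥ lift z) := by
    have h1 : Differentiable ℂ lift := by
      rw [differentiable_pi]
      intro i
      fin_cases i
      · simp [lift]
      · simp only [lift]; exact differentiable_fst
      · simp only [lift]; exact differentiable_snd
    exact (LinearMap.toContinuousLinearMap (Matrix.mulVecLin Q)).differentiable.comp h1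
  exact ⟨κ₁, κ₂, D, a, b, Ψ, fun z => ρ (Q *ᵥ lift z), hD, hab, hΨd, hΨm,
    hρ.comp hld.differentiableOn (fun z hz => hq1 z hz), fun z hz => hρD _ (hq1 z hz), hΨΦ, hV⟩

/-- elliptic case -/
theorem case_E {P Q X : Matrix (Fin 3) (Fin 3) ℂ} (hPQ : P * Q = 1) {μ : Fin 3 → ℝ}
    (hX : X * P = P * Matrix.diagonal (fun j => I * μ j)) (hq : ∀ v, qB (P *ᵥ v) = qB v)
    (hμ : (μ 1 - μ 0) ^ 2 + (μ 2 - μ 0) ^ 2 ≠ 0) : Chart X := by
  refine chart_of_model hPQ hX hq B2_mod lift_diff (fun w hw => (qB_lift w).2 hw) (ρ := aff) ?_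
    (fun v hv => aff_mem hv) ?_ (c := I) I_ne_zero hμ ?_
  · intro v hv
    exact (aff_deriv (u := fun v => v) (hasFDerivAt_id v) (v0_ne hv)
      (0 : Fin 3 → ℂ)).1.differentiableWithinAt
  · intro v hv
    refine ⟨(v 0)⁻¹, inv_ne_zero (v0_ne hv), lift_aff (v0_ne hv)⟩
  · intro w _
    refine ⟨I * μ 0, ?_⟩
    rw [fderiv_line lift_diff w _ (y := ![0, ((μ 1 - μ 0 : ℝ) : ℂ) * w.1,
      ((μ 2 - μ 0 : ℝ) : ℂ) * w.2])]
    · ext i
      fin_cases i
      · simp [lift, Matrix.mulVec_diagonal]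
      · simp [lift, Matrix.mulVec_diagonal]
        ring
      · simp [lift, Matrix.mulVec_diagonal]
        ring
    · intro i
      fin_cases i
      · simp only [lift]
        exact hasDerivAt_const _ _
      · simp only [lift, xi_true]
        have := ((hasDerivAt_id (0 : ℂ)).mul_const (((μ 1 - μ 0 : ℝ) : ℂ) * w.1)).const_add w.1
        rw [one_mul] at this
        exact this
      · simp only [lift, xi_true]
        have := ((hasDerivAt_id (0 : ℂ)).mul_const (((μ 2 - μ 0 : ℝ) : ℂ) * w.2)).const_add w.2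
        rw [one_mul] at this
        exact this

/-- hyperbolic case -/
theorem case_H {P Q X X' : Matrix (Fin 3) (Fin 3) ℂ} (hPQ : P * Q = 1)
    (hX : X * P = P * X') (hq : ∀ v, qB (P *ᵥ v) = qS v) {r μ θ : ℝ} (hr : r ≠ 0)
    (hX' : X' = Matrix.diagonal ![r + I * μ, I * θ, -r + I * μ]) : Chart X := by
  refine chart_of_model hPQ hX hq DH_mod hH_diff ?_ (ρ := rH) ?_
    (fun v hv => rH_mem hv) (fun v hv => hH_rH hv) (c := I) (a := -2 * r) (b := θ - μ) I_ne_zero
    ?_ ?_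
  · intro w hw
    rw [qS_hH]
    linarith [hw.2.2]
  · intro v hv
    apply DifferentiableAt.differentiableWithinAt
    have hv' : qS v < 0 := hv
    have h2 := v2_ne hv'
    have h3 := im_pos hv'
    have hsl : v 0 / v 2 ∈ slitPlane := Or.inr h3.ne'
    have p0 : ∀ i, DifferentiableAt ℂ (fun v : Fin 3 → ℂ => v i) v := fun i => by fun_prop
    have d0 : DifferentiableAt ℂ (fun v : Fin 3 → ℂ => v 0 / v 2) v := dq (p0 0) (p0 2) h2
    have d1 : DifferentiableAt ℂ (fun v : Fin 3 → ℂ => log (v 0 / v 2)) v := d0.clog hsl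
    refine DifferentiableAt.prodMk (d1.const_mul _) ?_
    have d2 : DifferentiableAt ℂ (fun v : Fin 3 → ℂ => exp (log (v 0 / v 2) / 2)) v :=
      (dq d1 (differentiableAt_const (2 : ℂ)) two_ne_zero).cexp
    refine dq (p0 1) ((p0 2).mul d2) ?_
    exact mul_ne_zero h2 (Complex.exp_ne_zero _)
  · have : 0 < (-2 * r) ^ 2 := by positivity
    positivity
  · intro w _
    refine ⟨I * μ, ?_⟩
    rw [fderiv_line hH_diff w _ (y := ![(((-2 * r : ℝ) : ℂ) * I / 2) * exp (I * w.1 / 2),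
      ((θ - μ : ℝ) : ℂ) * w.2, -(((-2 * r : ℝ) : ℂ) * I / 2) * exp (-(I * w.1 / 2))])]
    · rw [hX']
      have hI := Complex.I_mul_I
      ext i
      fin_cases i
      · simp [hH, Matrix.mulVec_diagonal]
        linear_combination (-(r : ℂ) * exp (I * w.1 / 2)) * hI
      · simp [hH, Matrix.mulVec_diagonal]
        ring
      · simp [hH, Matrix.mulVec_diagonal]
        linear_combination ((r : ℂ) * exp (-(I * w.1 / 2))) * hI
    · intro i
      fin_cases i
      · simp only [hH, xi_false, xi_true]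
        have h1 : HasDerivAt (fun t : ℂ => I * (w.1 + t * ((-2 * r : ℝ) : ℂ)) / 2)
            (((-2 * r : ℝ) : ℂ) * I / 2) 0 := by
          have := ((((hasDerivAt_id (0 : ℂ)).mul_const ((-2 * r : ℝ) : ℂ)).const_add w.1).const_mul
            I).div_const 2
          rwa [show I * (1 * ((-2 * r : ℝ) : ℂ)) / 2 = ((-2 * r : ℝ) : ℂ) * I / 2 by ring] at this
        have h2 := h1.cexp
        simp only [zero_mul, add_zero] at h2
        rw [mul_comm (exp (I * w.1 / 2))] at h2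
        simpa using h2
      · simp only [hH, xi_true]
        have := ((hasDerivAt_id (0 : ℂ)).mul_const (((θ - μ : ℝ) : ℂ) * w.2)).const_add w.2
        rw [one_mul] at this
        exact this
      · simp only [hH, xi_false, xi_true]
        have h1 : HasDerivAt (fun t : ℂ => -(I * (w.1 + t * ((-2 * r : ℝ) : ℂ)) / 2))
            (-(((-2 * r : ℝ) : ℂ) * I / 2)) 0 := by
          have := (((((hasDerivAt_id (0 : ℂ)).mul_const ((-2 * r : ℝ) : ℂ)).const_add
            w.1).const_mul I).div_const 2).neg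
          rwa [show I * (1 * ((-2 * r : ℝ) : ℂ)) / 2 = ((-2 * r : ℝ) : ℂ) * I / 2 by ring] at this
        have h2 := h1.cexp
        simp only [zero_mul, add_zero] at h2
        rw [mul_comm (exp (-(I * w.1 / 2)))] at h2
        simpa using h2

/-- parabolic case with rotation -/
theorem case_P {P Q X X' : Matrix (Fin 3) (Fin 3) ℂ} (hPQ : P * Q = 1)
    (hX : X * P = P * X') (hq : ∀ v, qB (P *ᵥ v) = qS v) {μ θ t : ℝ}
    (hne : (-t) ^ 2 + (θ - μ) ^ 2 ≠ 0)
    (hX' : X' = !![I * μ, 0, (t : ℂ); 0, I * θ, 0; 0, 0, I * μ]) : Chart X := by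
  refine chart_of_model hPQ hX hq DP_mod hP_diff ?_ (ρ := rP) ?_
    ?_ (fun v hv => ⟨_, inv_ne_zero (v2_ne hv), hP_rP hv⟩) (c := I) (a := -t) (b := θ - μ) I_ne_zero
    hne ?_
  · intro w hw
    rw [qS_hP]
    have : ‖w.2‖ ^ 2 < w.1.re := hw
    linarith
  · intro v hv
    apply DifferentiableAt.differentiableWithinAt
    have hv' : qS v < 0 := hv
    have h2 := v2_ne hv'
    have p0 : ∀ i, DifferentiableAt ℂ (fun v : Fin 3 → ℂ => v i) v := fun i => by fun_prop
    have d0 : DifferentiableAt ℂ (fun v : Fin 3 → ℂ => v 0 / v 2) v := dq (p0 0) (p0 2) h2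
    exact DifferentiableAt.prodMk (d0.const_mul _) (dq (p0 1) (p0 2) h2)
  · intro v hv
    have h1 : qS (hP (rP v)) < 0 := by
      rw [hP_rP hv, qS_smul]
      have : 0 < ‖(v 2)⁻¹‖ ^ 2 := by
        have : (v 2)⁻¹ ≠ 0 := inv_ne_zero (v2_ne hv)
        positivity
      exact mul_neg_of_pos_of_neg this hv
    rw [qS_hP] at h1
    change ‖(rP v).2‖ ^ 2 < (rP v).1.re
    linarith
  · intro w _
    refine ⟨I * μ, ?_⟩
    rw [fderiv_line hP_diff w _ (y := ![I * ((-t : ℝ) : ℂ), ((θ - μ : ℝ) : ℂ) * w.2, 0])]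
    · rw [hX']
      have hI := Complex.I_mul_I
      ext i
      fin_cases i
      · simp [hP, Matrix.mulVec, dotProduct, Fin.sum_univ_three]
        linear_combination (-(t : ℂ)) * hI
      · simp [hP, Matrix.mulVec, dotProduct, Fin.sum_univ_three]
        ring
      · simp [hP, Matrix.mulVec, dotProduct, Fin.sum_univ_three]
    · intro i
      fin_cases i
      · simp only [hP, xi_false, xi_true]
        have h1 : HasDerivAt (fun s : ℂ => I * (w.1 + s * ((-t : ℝ) : ℂ)))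
            (I * ((-t : ℝ) : ℂ)) 0 := by
          have := (((hasDerivAt_id (0 : ℂ)).mul_const ((-t : ℝ) : ℂ)).const_add w.1).const_mul I
          rwa [one_mul] at this
        simpa using h1
      · simp only [hP, xi_true]
        have := ((hasDerivAt_id (0 : ℂ)).mul_const (((θ - μ : ℝ) : ℂ) * w.2)).const_add w.2
        rw [one_mul] at this
        exact this
      · simp only [hP]
        exact hasDerivAt_const _ _

/-- parabolic case without rotation -/
theorem case_Q {P Q X X' : Matrix (Fin 3) (Fin 3) ℂ} (hPQ : P * Q = 1)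
    (hX : X * P = P * X') (hq : ∀ v, qB (P *ᵥ v) = qS v) {μ c t : ℝ}
    (hne : t ^ 2 + c ^ 2 ≠ 0)
    (hX' : X' = !![I * μ, 2 * I * c, (t : ℂ); 0, I * μ, (c : ℂ); 0, 0, I * μ]) : Chart X := by
  refine chart_of_model hPQ hX hq DQ_mod hQ_diff ?_ (ρ := rQ) ?_
    ?_ (fun v hv => ⟨_, inv_ne_zero (v2_ne hv), hQ_rQ hv⟩) (c := -I) (a := t) (b := c)
    (neg_ne_zero.2 I_ne_zero) hne ?_
  · intro w hw
    rw [qS_hQ]
    have : 2 * w.2.re ^ 2 < w.1.re := hw
    linarith
  · intro v hv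
    apply DifferentiableAt.differentiableWithinAt
    have hv' : qS v < 0 := hv
    have h2 := v2_ne hv'
    have p0 : ∀ i, DifferentiableAt ℂ (fun v : Fin 3 → ℂ => v i) v := fun i => by fun_prop
    have d0 : DifferentiableAt ℂ (fun v : Fin 3 → ℂ => v 0 / v 2) v := dq (p0 0) (p0 2) h2
    have d1 : DifferentiableAt ℂ (fun v : Fin 3 → ℂ => v 1 / v 2) v := dq (p0 1) (p0 2) h2
    exact DifferentiableAt.prodMk ((d0.const_mul _).sub (d1.pow 2)) (d1.const_mul _)
  · intro v hv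
    have h1 : qS (hQ (rQ v)) < 0 := by
      rw [hQ_rQ hv, qS_smul]
      have : 0 < ‖(v 2)⁻¹‖ ^ 2 := by
        have : (v 2)⁻¹ ≠ 0 := inv_ne_zero (v2_ne hv)
        positivity
      exact mul_neg_of_pos_of_neg this hv
    rw [qS_hQ] at h1
    change 2 * (rQ v).2.re ^ 2 < (rQ v).1.re
    linarith
  · intro w _
    refine ⟨I * μ, ?_⟩
    rw [fderiv_line hQ_diff w _ (y := ![I * (t : ℂ) - 2 * I * w.2 * c, I * (c : ℂ), 0])]
    · rw [hX']
      have hI := Complex.I_mul_I
      ext i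
      fin_cases i
      · simp [hQ, Matrix.mulVec, dotProduct, Fin.sum_univ_three]
        linear_combination (-(t : ℂ)) * hI
      · simp [hQ, Matrix.mulVec, dotProduct, Fin.sum_univ_three]
        linear_combination (-(c : ℂ)) * hI
      · simp [hQ, Matrix.mulVec, dotProduct, Fin.sum_univ_three]
    · intro i
      fin_cases i
      · simp only [hQ, xi_false, mul_one]
        have h1 : HasDerivAt (fun s : ℂ => w.1 + s * (t : ℂ)) (t : ℂ) 0 := by
          have := ((hasDerivAt_id (0 : ℂ)).mul_const (t : ℂ)).const_add w.1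
          rwa [one_mul] at this
        have h2 : HasDerivAt (fun s : ℂ => w.2 + s * (c : ℂ)) (c : ℂ) 0 := by
          have := ((hasDerivAt_id (0 : ℂ)).mul_const (c : ℂ)).const_add w.2
          rwa [one_mul] at this
        have h3 := (h1.const_mul I).sub ((h2.pow 2).const_mul I)
        simp only [zero_mul, add_zero] at h3
        rw [show I * (t : ℂ) - 2 * I * w.2 * c = I * (t : ℂ) -
          I * ((2 : ℕ) * w.2 ^ (2 - 1) * (c : ℂ)) by push_cast; ring]
        exact h3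
      · simp only [hQ, xi_false, mul_one]
        have h2 : HasDerivAt (fun s : ℂ => w.2 + s * (c : ℂ)) (c : ℂ) 0 := by
          have := ((hasDerivAt_id (0 : ℂ)).mul_const (c : ℂ)).const_add w.2
          rwa [one_mul] at this
        exact h2.const_mul I
      · simp only [hQ]
        exact hasDerivAt_const _ _

/-- elements with a negative eigenvector are diagonalizable in an orthonormal basis -/
theorem good_neg {X : Matrix (Fin 3) (Fin 3) ℂ} (hX : Sk X)
    (hns : ∀ l : ℂ, X ≠ l • (1 : Matrix (Fin 3) (Fin 3) ℂ)) {e : Fin 3 → ℂ} {l : ℂ}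
    (he : X *ᵥ e = l • e) (hneg : qB e < 0) : Chart X := by
  -- normalisation of `e`
  obtain ⟨p0, l0, h0, h00⟩ : ∃ (p0 : Fin 3 → ℂ) (l0 : ℂ), X *ᵥ p0 = l0 • p0 ∧ Bf p0 p0 = -1 := by
    have hs : 0 < Real.sqrt (-qB e) := Real.sqrt_pos.2 (by linarith)
    refine ⟨((Real.sqrt (-qB e))⁻¹ : ℂ) • e, l, ?_, ?_⟩
    · rw [Matrix.mulVec_smul, he, smul_comm]
    · rw [Bf_smul, Bf_smul', Bf_self]
      have h1 : Real.sqrt (-qB e) * Real.sqrt (-qB e) = -qB e := Real.mul_self_sqrt (by linarith)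
      have h2 : (qB e : ℂ) = -((Real.sqrt (-qB e) : ℂ) * (Real.sqrt (-qB e) : ℂ)) := by
        rw [← Complex.ofReal_mul, h1]; push_cast; ring
      rw [h2]
      have h3 : (Real.sqrt (-qB e) : ℂ) ≠ 0 := by exact_mod_cast hs.ne'
      simp only [map_inv₀, Complex.conj_ofReal]
      field_simp
  have hneg0 : qB p0 < 0 := by
    have := Bf_self p0
    rw [h00] at this
    have h2 : (qB p0 : ℂ) = ((-1 : ℝ) : ℂ) := by rw [← this]; simp
    have h3 : qB p0 = -1 := by exact_mod_cast h2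
    rw [h3]; norm_num
  obtain ⟨v1, hv1, hv1', l1, hl1⟩ := eig_in X (perp p0) (perp_inv hX h0) (perp_ne p0)
  have hpos1 : 0 < qB v1 := pos_of_perp hneg0 hv1 hv1'
  obtain ⟨p1, h1, h11, h10⟩ : ∃ (p1 : Fin 3 → ℂ), X *ᵥ p1 = l1 • p1 ∧ Bf p1 p1 = 1 ∧
      Bf p1 p0 = 0 := by
    have hs : 0 < Real.sqrt (qB v1) := Real.sqrt_pos.2 hpos1
    refine ⟨((Real.sqrt (qB v1))⁻¹ : ℂ) • v1, ?_, ?_, ?_⟩
    · rw [Matrix.mulVec_smul, hl1, smul_comm]
    · rw [Bf_smul, Bf_smul', Bf_self]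
      have h1 : Real.sqrt (qB v1) * Real.sqrt (qB v1) = qB v1 := Real.mul_self_sqrt hpos1.le
      have h2 : (qB v1 : ℂ) = (Real.sqrt (qB v1) : ℂ) * (Real.sqrt (qB v1) : ℂ) := by
        rw [← Complex.ofReal_mul, h1]
      rw [h2]
      have h3 : (Real.sqrt (qB v1) : ℂ) ≠ 0 := by exact_mod_cast hs.ne'
      simp only [map_inv₀, Complex.conj_ofReal]
      field_simp
    · rw [Bf_smul, mem_perp.1 hv1, mul_zero]
  set p2 := cr p0 p1 with hp2
  have h01 : Bf p0 p1 = 0 := Bf_zero_symm h10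
  have h02 : Bf p0 p2 = 0 := cr_perp p0 p1
  have h12 : Bf p1 p2 = 0 := cr_perp' p0 p1
  have h20 : Bf p2 p0 = 0 := Bf_zero_symm h02
  have h21 : Bf p2 p1 = 0 := Bf_zero_symm h12
  have h22 : Bf p2 p2 = 1 := by
    rw [hp2, cr_self, h00, h11, h01]
    ring
  set p : Fin 3 → Fin 3 → ℂ := ![p0, p1, p2] with hp
  set c : Fin 3 → ℂ := ![-1, 1, 1] with hc
  have hQP : Qm c p * Pm p = 1 := by
    ext i j
    rw [QP_apply]
    fin_cases i <;> fin_cases j <;>
      simp [hp, hc, h00, h01, h02, h10, h11, h12, h20, h21, h22]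
  have hPQ : Pm p * Qm c p = 1 := mul_eq_one_comm.1 hQP
  set X' := Qm c p * (X * Pm p) with hX'
  have hXP : X * Pm p = Pm p * X' := by
    rw [hX', ← Matrix.mul_assoc, hPQ, Matrix.one_mul]
  have b00 : Bf (X *ᵥ p0) p0 = -l0 := by rw [h0, Bf_smul, h00]; ring
  have b01 : Bf (X *ᵥ p0) p1 = 0 := by rw [h0, Bf_smul, h01]; ring
  have b02 : Bf (X *ᵥ p0) p2 = 0 := by rw [h0, Bf_smul, h02]; ring
  have b10 : Bf (X *ᵥ p1) p0 = 0 := by rw [h1, Bf_smul, h10]; ring
  have b11 : Bf (X *ᵥ p1) p1 = l1 := by rw [h1, Bf_smul, h11]; ring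
  have b12 : Bf (X *ᵥ p1) p2 = 0 := by rw [h1, Bf_smul, h12]; ring
  have b20 : Bf (X *ᵥ p2) p0 = 0 := by rw [Sk_apply hX, b02]; simp
  have b21 : Bf (X *ᵥ p2) p1 = 0 := by rw [Sk_apply hX, b12]; simp
  have d0 : l0 = I * (l0.im : ℂ) := by
    apply im_of_skew
    have := Sk_apply hX p0 p0
    rw [b00] at this
    simp only [map_neg] at this
    linear_combination -this
  have d1 : l1 = I * (l1.im : ℂ) := by
    apply im_of_skew
    have := Sk_apply hX p1 p1
    rw [b11] at this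
    exact this
  set l2 := Bf (X *ᵥ p2) p2 with hl2
  have d2 : l2 = I * (l2.im : ℂ) := im_of_skew (Sk_apply hX p2 p2)
  set μ : Fin 3 → ℝ := ![l0.im, l1.im, l2.im] with hμ
  have hdiag : X' = Matrix.diagonal (fun j => I * μ j) := by
    ext i j
    rw [hX', QXP_apply]
    fin_cases i <;> fin_cases j <;>
      simp [hp, hc, b00, b01, b02, b10, b11, b12, b20, b21, ← hl2, hμ, ← d0, ← d1, ← d2]
  have hq : ∀ v, qB (Pm p *ᵥ v) = qB v := by
    intro v
    have h3 : Bf (Pm p *ᵥ v) (Pm p *ᵥ v) = Bf v v := by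
      have e1 : ∀ y, Bf (Pm p *ᵥ v) y = v 0 * Bf p0 y + v 1 * Bf p1 y + v 2 * Bf p2 y := by
        intro y
        rw [Pm_mulVec, Bf_add, Bf_add, Bf_smul, Bf_smul, Bf_smul]
        rfl
      have e2 : ∀ x, Bf x (Pm p *ᵥ v) = cj (v 0) * Bf x p0 + cj (v 1) * Bf x p1 +
          cj (v 2) * Bf x p2 := by
        intro x
        rw [← Bf_conj, e1]
        simp only [map_add, map_mul, Bf_conj]
      rw [e1, e2, e2, e2, h00, h01, h02, h10, h11, h12, h20, h21, h22]
      unfold Bf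
      ring
    rw [Bf_self, Bf_self] at h3
    exact_mod_cast h3
  refine case_E hPQ (μ := μ) (by rw [← hdiag]; exact hXP) hq ?_
  intro hzero
  have z1 : (μ 1 - μ 0) ^ 2 = 0 := by nlinarith [sq_nonneg (μ 1 - μ 0), sq_nonneg (μ 2 - μ 0)]
  have z2 : (μ 2 - μ 0) ^ 2 = 0 := by nlinarith [sq_nonneg (μ 1 - μ 0), sq_nonneg (μ 2 - μ 0)]
  have z1' : μ 1 = μ 0 := by have := pow_eq_zero_iff (two_ne_zero) |>.1 z1; linarith
  have z2' : μ 2 = μ 0 := by have := pow_eq_zero_iff (two_ne_zero) |>.1 z2; linarith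
  apply hns (I * μ 0)
  have hs : X' = (I * μ 0 : ℂ) • (1 : Matrix (Fin 3) (Fin 3) ℂ) := by
    rw [hdiag, Matrix.smul_one_eq_diagonal]
    congr 1
    ext j
    fin_cases j
    · rfl
    · simp only [Fin.mk_one]; rw [z1']
    · simp only [Fin.reduceFinMk]; rw [z2']
  calc X = X * (Pm p * Qm c p) := by rw [hPQ, Matrix.mul_one]
    _ = Pm p * X' * Qm c p := by rw [← Matrix.mul_assoc, hXP]
    _ = (I * μ 0 : ℂ) • (1 : Matrix (Fin 3) (Fin 3) ℂ) := by
        rw [hs, Matrix.mul_smul, Matrix.mul_one, Matrix.smul_mul, hPQ]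

/-- triangular elements are good -/
theorem good_tri {X P Q : Matrix (Fin 3) (Fin 3) ℂ}
    (hns : ∀ l : ℂ, X ≠ l • (1 : Matrix (Fin 3) (Fin 3) ℂ)) (hPQ : P * Q = 1)
    (hq : ∀ v, qB (P *ᵥ v) = qS v) {l β : ℂ} {θ τ : ℝ} (hX : X * P = P * Tm l β θ τ) : Chart X := by
  have hI := Complex.I_mul_I
  have hl : l = l.re + I * l.im := by
    rw [mul_comm]; exact (Complex.re_add_im l).symm
  have hlc : cj l = l.re - I * l.im := by
    conv_lhs => rw [hl]
    simp only [map_add, map_mul, Complex.conj_ofReal, Complex.conj_I]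
    ring
  by_cases hν : I * θ + cj l = 0
  · -- no rotation, no dilation
    have hν1 : l.re = 0 := by
      have := congrArg Complex.re hν
      simpa using this
    have hν2 : θ = l.im := by
      have := congrArg Complex.im hν
      simp at this
      linarith
    obtain ⟨o, c, ho, hc⟩ : ∃ (o : ℂ) (c : ℝ), o * cj o = 1 ∧ β * o = -(c : ℂ) := by
      by_cases hβ : β = 0
      · exact ⟨1, 0, by simp, by simp [hβ]⟩
      · have hn : (‖β‖ : ℂ) ≠ 0 := by exact_mod_cast (norm_ne_zero_iff.2 hβ)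
        have hb := Complex.mul_conj' β
        refine ⟨-(cj β) / ‖β‖, ‖β‖, ?_, ?_⟩
        · simp only [map_div₀, map_neg, Complex.conj_conj, Complex.conj_ofReal]
          field_simp
          linear_combination hb
        · field_simp
          linear_combination (-1 : ℂ) * hb
    have hXP' : X * (P * Rm o) = (P * Rm o) *
        !![I * (l.im : ℂ), 2 * I * c, ((2 * τ : ℝ) : ℂ); 0, I * (l.im : ℂ), (c : ℂ);
          0, 0, I * (l.im : ℂ)] := by
      rw [← Matrix.mul_assoc, hX, Matrix.mul_assoc, Matrix.mul_assoc]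
      congr 1
      have hcc : cj β * cj o = -(c : ℂ) := by
        rw [← map_mul, hc, map_neg, Complex.conj_ofReal]
      have hcb : cj β = -(c : ℂ) * o := by
        linear_combination o * hcc - cj β * ho
      ext i j
      fin_cases i <;> fin_cases j <;>
        simp [Rm, Tm, Matrix.mul_apply, Fin.sum_univ_three]
      · rw [hl, hν1]; simp
      · linear_combination (-2 * I) * hc
      · rw [hν2]; ring
      · rw [hcb]; ring
      · rw [hlc, hν1]; simp
    refine case_Q (Q := Rm (cj o) * Q) ?_ hXP' ?_ (μ := l.im) (c := c) (t := 2 * τ) ?_ rfl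
    · rw [Matrix.mul_assoc, ← Matrix.mul_assoc (Rm o), Rm_Rm ho, Matrix.one_mul, hPQ]
    · intro v
      rw [← Matrix.mulVec_mulVec, hq, qS_Rm ho]
    · intro hzero
      have z1 : (2 * τ) ^ 2 = 0 := by nlinarith [sq_nonneg (2 * τ), sq_nonneg c]
      have z2 : c ^ 2 = 0 := by nlinarith [sq_nonneg (2 * τ), sq_nonneg c]
      have z1' : 2 * τ = 0 := pow_eq_zero_iff (two_ne_zero) |>.1 z1
      have z2' : c = 0 := pow_eq_zero_iff (two_ne_zero) |>.1 z2
      apply hns (I * l.im)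
      set S : Matrix (Fin 3) (Fin 3) ℂ := !![I * (l.im : ℂ), 2 * I * c, ((2 * τ : ℝ) : ℂ);
        0, I * (l.im : ℂ), (c : ℂ); 0, 0, I * (l.im : ℂ)] with hS
      have hs : S = (I * l.im : ℂ) • (1 : Matrix (Fin 3) (Fin 3) ℂ) := by
        rw [hS, z1', z2']
        ext i j
        fin_cases i <;> fin_cases j <;> simp
      have hPQ' : (P * Rm o) * (Rm (cj o) * Q) = 1 := by
        rw [Matrix.mul_assoc, ← Matrix.mul_assoc (Rm o), Rm_Rm ho, Matrix.one_mul, hPQ]
      calc X = X * ((P * Rm o) * (Rm (cj o) * Q)) := by rw [hPQ', Matrix.mul_one]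
        _ = (P * Rm o) * S * (Rm (cj o) * Q) := by rw [← Matrix.mul_assoc, hXP']
        _ = (I * l.im : ℂ) • (1 : Matrix (Fin 3) (Fin 3) ℂ) := by
            rw [hs, Matrix.mul_smul, Matrix.mul_one, Matrix.smul_mul, hPQ']
  · set y := cj β / (I * θ + cj l) with hy
    have hy1 : (I * θ + cj l) * y = cj β := by rw [hy]; field_simp
    have hy2 : (l - I * θ) * cj y = β := by
      have := congrArg cj hy1
      simp only [map_mul, map_add, Complex.conj_conj, Complex.conj_I, Complex.conj_ofReal] at this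
      linear_combination this
    by_cases hr : l.re = 0
    · -- rotation, no dilation
      have hθ : θ - l.im ≠ 0 := by
        intro h0
        apply hν
        rw [hlc, hr]
        have : (θ : ℂ) = l.im := by exact_mod_cast (sub_eq_zero.1 h0)
        rw [this]
        push_cast
        ring
      set w : ℂ := I * (‖y‖ ^ 2 : ℝ) with hw
      have hwim : w.im = ‖y‖ ^ 2 := by
        rw [hw, Complex.I_mul_im, Complex.ofReal_re]
      have hyy := Complex.mul_conj' y
      have hl' : l = I * l.im := by rw [hr] at hl; simpa using hl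
      have hlc' : cj l = -(I * l.im) := by rw [hr] at hlc; simpa using hlc
      set t : ℝ := 2 * τ - 2 * (θ - l.im) * ‖y‖ ^ 2 with ht
      have hXP' : X * (P * Um w y) = (P * Um w y) *
          !![I * (l.im : ℂ), 0, (t : ℂ); 0, I * θ, 0; 0, 0, I * (l.im : ℂ)] := by
        rw [← Matrix.mul_assoc, hX, Matrix.mul_assoc, Matrix.mul_assoc]
        congr 1
        ext i j
        fin_cases i <;> fin_cases j <;>
          simp [Um, Tm, Matrix.mul_apply, Fin.sum_univ_three]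
        · exact hl'
        · linear_combination (2 * I) * hy2
        · rw [ht]
          push_cast
          linear_combination w * hl' + (2 * I * y) * hy2 + (-2 * I * y * cj y) * hl' +
            (2 * (θ - l.im) * y * cj y) * hI - (2 * (θ - l.im)) * hyy
        · linear_combination hy1 - y * hlc'
        · linear_combination -hlc'
      refine case_P (Q := Ui w y * Q) ?_ hXP' ?_ (μ := l.im) (θ := θ) (t := t) ?_ rfl
      · rw [Matrix.mul_assoc, ← Matrix.mul_assoc (Um w y), Um_Ui, Matrix.one_mul, hPQ]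
      · intro v
        rw [← Matrix.mulVec_mulVec, hq, qS_Um hwim]
      · have : 0 < (θ - l.im) ^ 2 := by positivity
        positivity
    · -- dilation
      have hrC : (l.re : ℂ) ≠ 0 := by exact_mod_cast hr
      set w : ℂ := (I * β * y - τ) / l.re with hw
      have hwim : w.im = ‖y‖ ^ 2 := by
        have h1 : ((w.im : ℝ) : ℂ) = ((‖y‖ ^ 2 : ℝ) : ℂ) := by
          have h2 := Complex.sub_conj w
          have h3 : w - cj w = 2 * I * (y * cj y) := by
            rw [hw]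
            simp only [map_div₀, map_sub, map_mul, Complex.conj_I, Complex.conj_ofReal]
            field_simp
            have h5 : l + cj l = 2 * l.re := by
              have := Complex.add_conj l
              push_cast at this
              exact this
            linear_combination (-I * y) * hy2 + (-I * cj y) * hy1 + (I * y * cj y) * h5
          rw [h3, Complex.mul_conj'] at h2
          push_cast at h2 ⊢
          have h4 : (2 * I : ℂ) ≠ 0 := by simp
          apply mul_left_cancel₀ h4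
          linear_combination -h2
        exact_mod_cast h1
      have hwr : w * l.re = I * β * y - τ := by rw [hw]; field_simp
      have hXP' : X * (P * Um w y) = (P * Um w y) *
          Matrix.diagonal ![(l.re : ℂ) + I * l.im, I * θ, -l.re + I * l.im] := by
        rw [← Matrix.mul_assoc, hX, Matrix.mul_assoc, Matrix.mul_assoc]
        congr 1
        ext i j
        rw [Matrix.mul_diagonal]
        fin_cases i <;> fin_cases j <;>
          simp [Um, Tm, Matrix.mul_apply, Fin.sum_univ_three]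
        · exact hl
        · linear_combination (2 * I) * hy2
        · linear_combination (2 : ℂ) * hwr + w * hl
        · linear_combination hy1 - y * hlc
        · rw [hlc]; ring
      refine case_H (Q := Ui w y * Q) ?_ hXP' ?_ (μ := l.im) (θ := θ) (r := l.re) hr rfl
      · rw [Matrix.mul_assoc, ← Matrix.mul_assoc (Um w y), Um_Ui, Matrix.one_mul, hPQ]
      · intro v
        rw [← Matrix.mulVec_mulVec, hq, qS_Um hwim]

/-- elements with an isotropic eigenvector -/
theorem good_null {X : Matrix (Fin 3) (Fin 3) ℂ} (hX : Sk X)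
    (hns : ∀ l : ℂ, X ≠ l • (1 : Matrix (Fin 3) (Fin 3) ℂ)) {e : Fin 3 → ℂ} {l : ℂ}
    (he : X *ᵥ e = l • e) (he0 : e ≠ 0) (hnull : qB e = 0) : Chart X := by
  have hI := Complex.I_mul_I
  have hee : Bf e e = 0 := by rw [Bf_self, hnull]; simp
  have hr : 0 < ‖e 0‖ ^ 2 := by
    by_contra h
    have h0 : ‖e 0‖ ^ 2 = 0 := le_antisymm (not_lt.1 h) (sq_nonneg _)
    apply he0
    unfold qB at hnull
    have e1 : ‖e 1‖ ^ 2 = 0 := by nlinarith [sq_nonneg ‖e 1‖, sq_nonneg ‖e 2‖]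
    have e2 : ‖e 2‖ ^ 2 = 0 := by nlinarith [sq_nonneg ‖e 1‖, sq_nonneg ‖e 2‖]
    ext i
    fin_cases i
    · simpa using h0
    · simpa using e1
    · simpa using e2
  set a : ℂ := e 0 * cj (e 0) with ha
  have haR : a = ((‖e 0‖ ^ 2 : ℝ) : ℂ) := by
    rw [ha, Complex.mul_conj']; push_cast; ring
  have ha0 : a ≠ 0 := by rw [haR]; exact_mod_cast hr.ne'
  have hac : cj a = a := by rw [haR, Complex.conj_ofReal]
  have hsum : e 1 * cj (e 1) + e 2 * cj (e 2) = a := by
    unfold Bf at hee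
    linear_combination hee
  set f : Fin 3 → ℂ := ![-e 0, e 1, e 2] with hf
  have hef : Bf e f = 2 * a := by
    unfold Bf
    simp only [hf, Matrix.cons_val_zero, Matrix.cons_val_one, Matrix.cons_val_two,
      Matrix.head_cons, Matrix.tail_cons, map_neg]
    linear_combination hsum
  have hff : Bf f f = 0 := by
    unfold Bf
    simp only [hf, Matrix.cons_val_zero, Matrix.cons_val_one, Matrix.cons_val_two,
      Matrix.head_cons, Matrix.tail_cons, map_neg]
    linear_combination hsum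
  have hfe : Bf f e = 2 * a := by
    rw [← Bf_conj, hef]
    simp only [map_mul, map_ofNat, hac]
  set κ : ℂ := -I / (4 * a) with hκ
  have hκc : cj κ = I / (4 * a) := by
    rw [hκ]
    simp only [map_div₀, map_neg, Complex.conj_I, map_mul, map_ofNat, hac]
    ring
  set p2 : Fin 3 → ℂ := κ • f with hp2
  set p1 : Fin 3 → ℂ := (1 / (2 * a)) • cr e f with hp1
  have h00 : Bf e e = 0 := hee
  have h02 : Bf e p2 = I / 2 := by
    rw [hp2, Bf_smul', hκc, hef]; field_simp; ring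
  have h20 : Bf p2 e = -(I / 2) := by
    rw [← Bf_conj, h02]
    simp only [map_div₀, Complex.conj_I, map_ofNat]
    ring
  have h22 : Bf p2 p2 = 0 := by
    rw [hp2, Bf_smul, Bf_smul', hff]; ring
  have h01 : Bf e p1 = 0 := by
    rw [hp1, Bf_smul', cr_perp, mul_zero]
  have h10 : Bf p1 e = 0 := Bf_zero_symm h01
  have h21 : Bf p2 p1 = 0 := by
    rw [hp1, hp2, Bf_smul, Bf_smul', cr_perp', mul_zero, mul_zero]
  have h12 : Bf p1 p2 = 0 := Bf_zero_symm h21
  have h11 : Bf p1 p1 = 1 := by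
    rw [hp1, Bf_smul, Bf_smul', cr_self, hee, hef, hfe]
    simp only [map_div₀, map_one, map_mul, map_ofNat, hac]
    field_simp
    ring
  set p : Fin 3 → Fin 3 → ℂ := ![e, p1, p2] with hp
  set c : Fin 3 → ℂ := ![-2 * I, 1, 2 * I] with hc
  set q : Fin 3 → Fin 3 → ℂ := ![p2, p1, e] with hqd
  have hQP : Qm c q * Pm p = 1 := by
    ext i j
    rw [QP_apply]
    fin_cases i <;> fin_cases j <;>
      simp [hp, hc, hqd, h00, h01, h02, h10, h11, h12, h20, h21, h22]
    · linear_combination (-1 : ℂ) * hI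
    · linear_combination (-1 : ℂ) * hI
  have hPQ : Pm p * Qm c q = 1 := mul_eq_one_comm.1 hQP
  set X' := Qm c q * (X * Pm p) with hX'
  have hXP : X * Pm p = Pm p * X' := by
    rw [hX', ← Matrix.mul_assoc, hPQ, Matrix.one_mul]
  have b00 : Bf (X *ᵥ e) e = 0 := by rw [he, Bf_smul, h00]; ring
  have b01 : Bf (X *ᵥ e) p1 = 0 := by rw [he, Bf_smul, h01]; ring
  have b02 : Bf (X *ᵥ e) p2 = l * (I / 2) := by rw [he, Bf_smul, h02]
  have b10 : Bf (X *ᵥ p1) e = 0 := by rw [Sk_apply hX, b01]; simp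
  have b20 : Bf (X *ᵥ p2) e = cj l * (I / 2) := by
    rw [Sk_apply hX, b02]
    simp only [map_mul, map_div₀, Complex.conj_I, map_ofNat]
    ring
  set β := Bf (X *ᵥ p1) p2 with hβ
  have b21 : Bf (X *ᵥ p2) p1 = -cj β := Sk_apply hX p2 p1
  set θ : ℝ := (Bf (X *ᵥ p1) p1).im with hθ
  have b11 : Bf (X *ᵥ p1) p1 = I * θ := im_of_skew (Sk_apply hX p1 p1)
  set τ : ℝ := (Bf (X *ᵥ p2) p2).im with hτ
  have b22 : Bf (X *ᵥ p2) p2 = I * τ := im_of_skew (Sk_apply hX p2 p2)
  have htri : X' = Tm l β θ τ := by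
    ext i j
    rw [hX', QXP_apply]
    fin_cases i <;> fin_cases j <;>
      simp [hp, hc, hqd, Tm, b00, b01, b02, b10, b11, b20, b21, b22, ← hβ]
    · linear_combination (-l) * hI
    · linear_combination (-2 * (τ : ℂ)) * hI
    · linear_combination (cj l) * hI
  have hq : ∀ v, qB (Pm p *ᵥ v) = qS v := by
    intro v
    have h3 : Bf (Pm p *ᵥ v) (Pm p *ᵥ v) = (qS v : ℝ) := by
      have e1 : ∀ y, Bf (Pm p *ᵥ v) y = v 0 * Bf e y + v 1 * Bf p1 y + v 2 * Bf p2 y := by
        intro y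
        rw [Pm_mulVec, Bf_add, Bf_add, Bf_smul, Bf_smul, Bf_smul]
        rfl
      have e2 : ∀ x, Bf x (Pm p *ᵥ v) = cj (v 0) * Bf x e + cj (v 1) * Bf x p1 +
          cj (v 2) * Bf x p2 := by
        intro x
        rw [← Bf_conj, e1]
        simp only [map_add, map_mul, Bf_conj]
      rw [e1, e2, e2, e2, h00, h01, h02, h10, h11, h12, h20, h21, h22, qS_cast]
      ring
    rw [Bf_self] at h3
    exact_mod_cast h3
  exact good_tri hns hPQ hq (by rw [← htri]; exact hXP)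

/-- **Classification**: the localisation theorem holds for all non-scalar elements of `u(2,1)`. -/
theorem good_all {X : Matrix (Fin 3) (Fin 3) ℂ} (hX : Sk X)
    (hns : ∀ l : ℂ, X ≠ l • (1 : Matrix (Fin 3) (Fin 3) ℂ)) : Chart X := by
  -- an eigenvector of nonpositive length
  have key : ∃ (e : Fin 3 → ℂ) (l : ℂ), e ≠ 0 ∧ X *ᵥ e = l • e ∧ qB e ≤ 0 := by
    obtain ⟨v, -, hv0, l, hl⟩ := eig_in X ⊤ (fun x _ => Submodule.mem_top)
      ⟨![1, 0, 0], Submodule.mem_top, fun h => by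
        have := congrFun h 0
        simp at this⟩
    by_cases hv : qB v ≤ 0
    · exact ⟨v, l, hv0, hl, hv⟩
    push Not at hv
    obtain ⟨v', hv'p, hv'0, l', hl'⟩ := eig_in X (perp v) (perp_inv hX hl) (perp_ne v)
    by_cases hv' : qB v' ≤ 0
    · exact ⟨v', l', hv'0, hl', hv'⟩
    push Not at hv'
    have hp' : Bf v' v = 0 := hv'p
    have hp : Bf v v' = 0 := Bf_zero_symm hp'
    set x := cr v v' with hx
    have hxx : Bf x x = -(qB v * qB v' : ℝ) := by
      rw [hx, cr_self, hp, Bf_self, Bf_self]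
      push_cast
      ring
    have hxq : qB x = -(qB v * qB v') := by
      rw [Bf_self] at hxx
      exact_mod_cast hxx
    have hpos : 0 < qB v * qB v' := mul_pos hv hv'
    have hx0 : x ≠ 0 := by
      intro h
      rw [h] at hxq
      have : qB (0 : Fin 3 → ℂ) = 0 := by simp [qB]
      rw [this] at hxq
      linarith
    have hW : ∀ y ∈ perp v ⊓ perp v', X *ᵥ y ∈ perp v ⊓ perp v' := fun y hy =>
      ⟨perp_inv hX hl y hy.1, perp_inv hX hl' y hy.2⟩
    have hxW : x ∈ perp v ⊓ perp v' :=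
      ⟨Bf_zero_symm (cr_perp v v'), Bf_zero_symm (cr_perp' v v')⟩
    obtain ⟨u, huW, hu0, l'', hl''⟩ := eig_in X (perp v ⊓ perp v') hW ⟨x, hxW, hx0⟩
    refine ⟨u, l'', hu0, hl'', ?_⟩
    -- the Gram determinant of `v, v', u`
    have hu1 : Bf u v = 0 := huW.1
    have hu2 : Bf u v' = 0 := huW.2
    have hgram : Bf v v * Bf v' v' * Bf u u =
        -(Bf (cr v v') u * cj (Bf (cr v v') u)) := by
      have h1 : Bf v v * (Bf v' v' * Bf u u - Bf v' u * Bf u v') -
          Bf v v' * (Bf v' v * Bf u u - Bf v' u * Bf u v) +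
          Bf v u * (Bf v' v * Bf u v' - Bf v' v' * Bf u v) =
          -(Bf (cr v v') u * cj (Bf (cr v v') u)) := by
        unfold Bf cr
        simp only [Matrix.cons_val_zero, Matrix.cons_val_one, Matrix.cons_val_two,
          Matrix.head_cons, Matrix.tail_cons, map_neg, map_sub, map_mul, map_add,
          Complex.conj_conj]
        ring
      rw [hp, hp', hu1, hu2] at h1
      linear_combination h1
    rw [Bf_self, Bf_self, Bf_self, Complex.mul_conj'] at hgram
    have h2 : qB v * qB v' * qB u = -‖Bf (cr v v') u‖ ^ 2 := by exact_mod_cast hgram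
    by_contra hcon
    push Not at hcon
    have h3 : 0 < qB v * qB v' * qB u := mul_pos hpos hcon
    have h4 : 0 ≤ ‖Bf (cr v v') u‖ ^ 2 := by positivity
    linarith
  obtain ⟨e, l, he0, hel, hq⟩ := key
  rcases hq.lt_or_eq with h | h
  · exact good_neg hX hns hel h
  · exact good_null hX hns hel he0 h

/-- transport of the hypotheses under a holomorphic map -/
theorem LocA.transport {D B : Set (ℂ × ℂ)} (hD : IsOpen D) (hB : IsOpen B) {Ψ : ℂ × ℂ → ℂ × ℂ}
    (hΨ : DifferentiableOn ℂ Ψ D) (hm : MapsTo Ψ D B) {V V' : ℂ × ℂ → ℂ × ℂ}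
    (hV : ∀ w ∈ D, ∃ c : ℂ, c ≠ 0 ∧ c • fderiv ℂ Ψ w (V' w) = V (Ψ w)) {N M n : ℕ}
    {F : Fin N → ℂ × ℂ → ℂ} {a : Fin n → ℂ × ℂ → ℂ} {G k : Fin M → ℂ × ℂ → ℂ} {ε η K : ℝ}
    (h : LocA B V F a G k ε η K) :
    LocA D V' (fun i w => F i (Ψ w)) (fun i w => a i (Ψ w)) (fun l w => G l (Ψ w))
      (fun l w => k l (Ψ w)) ε η K := by
  have hkm : MapsTo Ψ {q | q ∈ D ∧ (∀ i, ‖F i (Ψ q)‖ < ε) ∧ ∀ i, ‖a i (Ψ q)‖ < η}
      {z | z ∈ B ∧ (∀ i, ‖F i z‖ < ε) ∧ ∀ i, ‖a i z‖ < η} :=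
    fun q hq => ⟨hm hq.1, hq.2⟩
  refine ⟨fun i => (h.F_diff i).comp hΨ hm, fun i w hw => h.F_le i _ (hm hw), ?_,
    fun l => (h.a_diff l).comp hΨ hm, fun l w hw => h.a_le l _ (hm hw),
    fun l => (h.G_diff l).comp hΨ hm, fun l w hw => h.G_le l _ (hm hw),
    fun l => (h.k_diff l).comp (hΨ.mono (fun q hq => hq.1)) hkm,
    fun l w hw hw' hw'' => h.k_le l _ (hm hw) hw' hw'',
    fun w hw hw' hw'' => h.k_sol _ (hm hw) hw' hw''⟩
  intro i w hw
  have d1 : DifferentiableAt ℂ (F i) (Ψ w) := (h.F_diff i).differentiableAt (hB.mem_nhds (hm hw))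
  have d2 : DifferentiableAt ℂ Ψ w := hΨ.differentiableAt (hD.mem_nhds hw)
  have d3 : fderiv ℂ (fun w => F i (Ψ w)) w = (fderiv ℂ (F i) (Ψ w)).comp (fderiv ℂ Ψ w) :=
    fderiv_comp w d1 d2
  rw [d3, ContinuousLinearMap.comp_apply]
  obtain ⟨c, hc, hc2⟩ := hV w hw
  have h1 := h.F_inv i _ (hm hw)
  rw [← hc2, map_smul, smul_eq_mul] at h1
  exact (mul_eq_zero.1 h1).resolve_left hc

/-- **Localisation theorem on the parts `{|a i| < η}` of the ball.** -/
theorem chart_loc {X : Matrix (Fin 3) (Fin 3) ℂ} (hX : Chart X) {N M n : ℕ} {ε η K η' C : ℝ}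
    (hcst : CstA N M n ε η K η' C) (hε1 : ε ≤ 1) (hη1 : η ≤ 1)
    {F : Fin N → ℂ × ℂ → ℂ} {A : Fin n → ℂ × ℂ → ℂ} {G k : Fin M → ℂ × ℂ → ℂ}
    (hloc : LocA B2 (VX X) F A G k ε η K) :
    GS {z | z ∈ B2 ∧ ∀ i, ‖A i z‖ < η'} (Sum.elim F G : Fin N ⊕ Fin M → ℂ × ℂ → ℂ) C := by
  obtain ⟨κ₁, κ₂, D, a, b, Ψ, Φ, hD, hab, hΨ, hΨm, hΦ, hΦm, hΨΦ, hV⟩ := hX
  have h1 := hloc.transport hD.op B2_open hΨ hΨm
    (V' := fun w => (a * xi κ₁ w.1, b * xi κ₂ w.2)) hV
  have hgs := modelA hcst hε1 hη1 hD hab h1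
  refine hgs.comp (φ := Φ) (hΦ.mono (fun z hz => hz.1)) ?_ ?_
  · rintro z ⟨hz, hz'⟩
    refine ⟨hΦm hz, fun i => ?_⟩
    rw [hΨΦ z hz]
    exact hz' i
  · rintro (i | i) z ⟨hz, hz'⟩
    · simp only [Sum.elim_inl]
      rw [hΨΦ z hz]
    · simp only [Sum.elim_inr]
      rw [hΨΦ z hz]

end Pool.Agent.N290.R5
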