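import Mathlib
import Pool.Agent.N290.R5.Chart

/-!
The Bezout equation for functions invariant under different one-parameter groups and arbitrary
functions: induction over the groups.
-/

set_option autoImplicit false

open Metric Set Filter Topology Matrix
open Complex hiding lift

namespace Pool.Agent.N290.R5

open Pool.Agent.N290.RC hiding case_E case_H case_P case_Q good_neg good_tri good_null good_all

/-- the localisation theorem holds on the parts `{|a i| < η}` of `Ω` for the functions killed by the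
vector field `V` -/
def LocProp (Ω : Set (ℂ × ℂ)) (V : ℂ × ℂ → ℂ × ℂ) : Prop :=
  ∀ (N M n : ℕ) (ε η K η' C : ℝ), CstA N M n ε η K η' C → ε ≤ 1 → η ≤ 1 →
    ∀ (F : Fin N → ℂ × ℂ → ℂ) (A : Fin n → ℂ × ℂ → ℂ) (G k : Fin M → ℂ × ℂ → ℂ),
    LocA Ω V F A G k ε η K →
    GS {z | z ∈ Ω ∧ ∀ i, ‖A i z‖ < η'} (Sum.elim F G : Fin N ⊕ Fin M → ℂ × ℂ → ℂ) C

theorem Chart.loc {X : Matrix (Fin 3) (Fin 3) ℂ} (hX : Chart X) : LocProp B2 (VX X) :=
  fun _ _ _ _ _ _ _ _ hcst hε1 hη1 _ _ _ _ h => chart_loc hX hcst hε1 hη1 h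

theorem model_prop {κ₁ κ₂ : Bool} {D : Set (ℂ × ℂ)} (hD : Mod κ₁ κ₂ D) {a b : ℝ}
    (hab : a ^ 2 + b ^ 2 ≠ 0) : LocProp D (fun z => (a * xi κ₁ z.1, b * xi κ₂ z.2)) :=
  fun _ _ _ _ _ _ _ _ hcst hε1 hη1 _ _ _ _ h => modelA hcst hε1 hη1 hD hab h

/-- **Sum type localisation theorem.** -/
theorem iter (n : ℕ) : ∀ (M : ℕ) (ε K : ℝ), 0 < ε → ε ≤ 1 → 0 ≤ K → ∃ C : ℝ,
    ∀ (Ω : Set (ℂ × ℂ)) (V : Fin n → ℂ × ℂ → ℂ × ℂ), (∀ i, LocProp Ω (V i)) →
    ∀ (a : Fin n → ℂ × ℂ → ℂ), (∀ i, DifferentiableOn ℂ (a i) Ω) →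
      (∀ i, ∀ z ∈ Ω, ‖a i z‖ ≤ 1) → (∀ i, ∀ z ∈ Ω, fderiv ℂ (a i) z (V i z) = 0) →
    ∀ (G k : Fin M → ℂ × ℂ → ℂ), (∀ l, DifferentiableOn ℂ (G l) Ω) →
      (∀ l, ∀ z ∈ Ω, ‖G l z‖ ≤ 1) →
      (∀ l, DifferentiableOn ℂ (k l) {z | z ∈ Ω ∧ ∀ i, ‖a i z‖ < ε}) →
      (∀ l, ∀ z ∈ Ω, (∀ i, ‖a i z‖ < ε) → ‖k l z‖ ≤ K) →
      (∀ z ∈ Ω, (∀ i, ‖a i z‖ < ε) → ∑ l, G l z * k l z = 1) →
    GS Ω (Sum.elim a G : Fin n ⊕ Fin M → ℂ × ℂ → ℂ) C := by
  induction n with
  | zero =>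
    intro M ε K hε hε1 hK
    refine ⟨K, ?_⟩
    intro Ω V hX a ha hab haV G k hG hGb hk hkb hGk
    refine ⟨Sum.elim (fun i => i.elim0) k, ?_, ?_, ?_⟩
    · rintro (i | l)
      · exact i.elim0
      · exact (hk l).mono (fun z hz => ⟨hz, fun i => i.elim0⟩)
    · rintro (i | l) z hz
      · exact i.elim0
      · exact hkb l z hz (fun i => i.elim0)
    · intro z hz
      rw [Fintype.sum_sum_type]
      simp only [Finset.univ_eq_empty, Finset.sum_empty, zero_add, Sum.elim_inr]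
      exact hGk z hz (fun i => i.elim0)
  | succ n ih =>
    intro M ε K hε hε1 hK
    obtain ⟨η', C₁, hcst⟩ := cst_exists 1 M n hε hε1 hε hε1 hK
    obtain ⟨C', hcst'⟩ := hcst
    have hη' : 0 < η' := hcst'.2.2.2.2.1
    have hC₁ : 0 ≤ C₁ := hcst'.2.2.2.1
    have hηη : 2 * η' ≤ ε / 2 := hcst'.2.2.2.2.2.2.2.1
    obtain ⟨C₂, hC₂⟩ := ih (M + 1) η' C₁ hη' (by linarith) hC₁
    refine ⟨C₂, ?_⟩
    intro Ω V hX a ha hab haV G k hG hGb hk hkb hGk
    have e : ∀ z, (∀ i, ‖a i z‖ < ε) ↔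
        (∀ _ : Fin 1, ‖a (Fin.last n) z‖ < ε) ∧ ∀ i : Fin n, ‖a i.castSucc z‖ < ε := by
      intro z
      rw [Fin.forall_fin_succ']
      constructor
      · rintro ⟨h1, h2⟩; exact ⟨fun _ => h2, h1⟩
      · rintro ⟨h1, h2⟩; exact ⟨h2, h1 0⟩
    have hloc : LocA Ω (V (Fin.last n)) (fun _ : Fin 1 => a (Fin.last n))
        (fun i : Fin n => a i.castSucc) G k ε ε K := by
      refine ⟨fun _ => ha _, fun _ => hab _, fun _ => haV _, fun _ => ha _, fun _ => hab _, hG, hGb,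
        ?_, ?_, ?_⟩
      · intro l
        refine (hk l).mono (fun z hz => ⟨hz.1, (e z).2 hz.2⟩)
      · intro l z hz h1 h2
        exact hkb l z hz ((e z).2 ⟨h1, h2⟩)
      · intro z hz h1 h2
        exact hGk z hz ((e z).2 ⟨h1, h2⟩)
    obtain ⟨u, u1, u2, u3⟩ := hX (Fin.last n) _ _ _ _ _ _ _ _ ⟨C', hcst'⟩ hε1 hε1 _ _ _ _ hloc
    obtain ⟨v, v1, v2, v3⟩ := hC₂ Ω (fun i => V i.castSucc) (fun i => hX _) (fun i => a i.castSucc)
      (fun i => ha _) (fun i => hab _) (fun i => haV _)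
      (Fin.cons (a (Fin.last n)) G) (Fin.cons (u (Sum.inl 0)) (fun l => u (Sum.inr l)))
      (by
        intro l
        refine Fin.cases ?_ (fun l => ?_) l
        · exact ha _
        · exact hG l)
      (by
        intro l
        refine Fin.cases ?_ (fun l => ?_) l
        · exact hab _
        · exact hGb l)
      (by
        intro l
        refine Fin.cases ?_ (fun l => ?_) l
        · exact u1 _
        · exact u1 _)
      (by
        intro l z hz hz'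
        revert l
        refine Fin.cases ?_ (fun l => ?_)
        · exact u2 _ z ⟨hz, hz'⟩
        · exact u2 _ z ⟨hz, hz'⟩)
      (by
        intro z hz hz'
        have h1 := u3 z ⟨hz, hz'⟩
        rw [Fintype.sum_sum_type] at h1
        simp only [Fin.sum_univ_one, Sum.elim_inl, Sum.elim_inr] at h1
        rw [Fin.sum_univ_succ]
        exact h1)
    refine ⟨Sum.elim (Fin.snoc (fun i => v (Sum.inl i)) (v (Sum.inr 0)))
      (fun l => v (Sum.inr l.succ)), ?_, ?_, ?_⟩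
    · rintro (i | l)
      · refine Fin.lastCases ?_ (fun i => ?_) i
        · simp only [Sum.elim_inl, Fin.snoc_last]
          exact v1 _
        · simp only [Sum.elim_inl, Fin.snoc_castSucc]
          exact v1 _
      · exact v1 _
    · rintro (i | l) z hz
      · refine Fin.lastCases ?_ (fun i => ?_) i
        · simp only [Sum.elim_inl, Fin.snoc_last]
          exact v2 _ z hz
        · simp only [Sum.elim_inl, Fin.snoc_castSucc]
          exact v2 _ z hz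
      · exact v2 _ z hz
    · intro z hz
      have h1 := v3 z hz
      rw [Fintype.sum_sum_type] at h1 ⊢
      simp only [Sum.elim_inl, Sum.elim_inr] at h1 ⊢
      rw [Fin.sum_univ_succ] at h1
      rw [Fin.sum_univ_castSucc]
      simp only [Fin.snoc_last, Fin.snoc_castSucc]
      simp only [Fin.cons_zero, Fin.cons_succ] at h1
      rw [← h1]
      ring

end Pool.Agent.N290.R5
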