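import Mathlib
import Pool.Agent.N290.R5.HB
import Pool.Agent.N290.R5.Iter

/-!
Functions continuous at a character with respect to a class of functions; the localisation theorem in
terms of characters.
-/

set_option autoImplicit false

open Metric Set Filter Topology

namespace Pool.Agent.N290.R5

open Pool.Agent.N290.RC (GS)

section

variable {X : Type} [NormedAddCommGroup X] [NormedSpace ℂ X] {Ω : Set X}

theorem BH.add {f g : X → ℂ} (hf : BH Ω f) (hg : BH Ω g) : BH Ω (fun z => f z + g z) := by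
  obtain ⟨M, hM⟩ := hf.2
  obtain ⟨M', hM'⟩ := hg.2
  exact ⟨hf.1.add hg.1, M + M', fun z hz => (norm_add_le _ _).trans
    (add_le_add (hM z hz) (hM' z hz))⟩

theorem BH.mul {f g : X → ℂ} (hf : BH Ω f) (hg : BH Ω g) : BH Ω (fun z => f z * g z) := by
  obtain ⟨M, hM⟩ := hf.2
  obtain ⟨M', hM'⟩ := hg.2
  refine ⟨hf.1.mul hg.1, M * M', fun z hz => ?_⟩
  rw [norm_mul]
  exact mul_le_mul (hM z hz) (hM' z hz) (norm_nonneg _) ((norm_nonneg _).trans (hM z hz))

theorem BH.const (c : ℂ) : BH Ω (fun _ : X => c) :=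
  ⟨differentiableOn_const _, ‖c‖, fun _ _ => le_rfl⟩

theorem BH.sub {f g : X → ℂ} (hf : BH Ω f) (hg : BH Ω g) : BH Ω (fun z => f z - g z) := by
  have h := hf.add ((BH.const (Ω := Ω) (-1)).mul hg)
  refine ⟨hf.1.sub hg.1, ?_⟩
  obtain ⟨M, hM⟩ := h.2
  refine ⟨M, fun z hz => ?_⟩
  have := hM z hz
  simp only [neg_one_mul, ← sub_eq_add_neg] at this
  exact this

theorem BH.sum {ι : Type} (s : Finset ι) {f : ι → X → ℂ} (hf : ∀ i, BH Ω (f i)) :
    BH Ω (fun z => ∑ i ∈ s, f i z) := by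
  classical
  induction s using Finset.induction_on with
  | empty => simpa using BH.const (Ω := Ω) 0
  | insert i s hi ih =>
    simp only [Finset.sum_insert hi]
    exact (hf i).add ih

variable {χ : (X → ℂ) → ℂ}

theorem Chr.sub (hχ : Chr Ω χ) {f g : X → ℂ} (hf : BH Ω f) (hg : BH Ω g) :
    χ (fun z => f z - g z) = χ f - χ g := by
  have h1 := hχ.add f (fun z => (-1) * g z) hf ((BH.const (-1)).mul hg)
  have h2 := hχ.mul (fun _ => -1) g (BH.const (-1)) hg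
  rw [h2, hχ.const] at h1
  have h3 := hχ.congr (fun z => f z - g z) (fun z => f z + (-1) * g z) (hf.sub hg)
    (hf.add ((BH.const (-1)).mul hg)) (fun z _ => by ring)
  rw [h3, h1]
  ring

theorem Chr.sum (hχ : Chr Ω χ) {ι : Type} (s : Finset ι) {f : ι → X → ℂ} (hf : ∀ i, BH Ω (f i)) :
    χ (fun z => ∑ i ∈ s, f i z) = ∑ i ∈ s, χ (f i) := by
  classical
  induction s using Finset.induction_on with
  | empty => simpa using hχ.const 0
  | insert i s hi ih =>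
    rw [Finset.sum_insert hi, ← ih, ← hχ.add _ _ (hf i) (BH.sum s hf)]
    simp only [Finset.sum_insert hi]

/-- `f` is continuous at `χ` with respect to the functions in `S` -/
def Cnt (Ω : Set X) (χ : (X → ℂ) → ℂ) (S : Set (X → ℂ)) (f : X → ℂ) : Prop :=
  BH Ω f ∧ ∀ ε : ℝ, 0 < ε → ∃ (T : Finset (X → ℂ)) (δ : ℝ), 0 < δ ∧ (T : Set (X → ℂ)) ⊆ S ∧
    ∀ z ∈ Ω, (∀ a ∈ T, ‖a z - χ a‖ < δ) → ‖f z - χ f‖ < ε

theorem Cnt.gen {S : Set (X → ℂ)} {f : X → ℂ} (hf : f ∈ S) (hb : BH Ω f) : Cnt Ω χ S f := by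
  refine ⟨hb, fun ε hε => ⟨{f}, ε, hε, by simpa using hf, fun z _ h => h f (by simp)⟩⟩

theorem Cnt.const (hχ : Chr Ω χ) (S : Set (X → ℂ)) (c : ℂ) : Cnt Ω χ S (fun _ => c) := by
  refine ⟨BH.const c, fun ε hε => ⟨∅, 1, one_pos, by simp, fun z _ _ => ?_⟩⟩
  rw [hχ.const, sub_self, norm_zero]
  exact hε

theorem Cnt.add (hχ : Chr Ω χ) {S : Set (X → ℂ)} {f g : X → ℂ} (hf : Cnt Ω χ S f)
    (hg : Cnt Ω χ S g) : Cnt Ω χ S (fun z => f z + g z) := by
  classical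
  refine ⟨hf.1.add hg.1, fun ε hε => ?_⟩
  obtain ⟨T, δ, hδ, hT, h1⟩ := hf.2 (ε / 2) (by positivity)
  obtain ⟨T', δ', hδ', hT', h2⟩ := hg.2 (ε / 2) (by positivity)
  refine ⟨T ∪ T', min δ δ', lt_min hδ hδ', ?_, fun z hz h => ?_⟩
  · rw [Finset.coe_union]; exact union_subset hT hT'
  · rw [hχ.add f g hf.1 hg.1]
    have a1 := h1 z hz (fun a ha => (h a (Finset.mem_union_left _ ha)).trans_le (min_le_left _ _))
    have a2 := h2 z hz (fun a ha => (h a (Finset.mem_union_right _ ha)).trans_le (min_le_right _ _))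
    have e : f z + g z - (χ f + χ g) = (f z - χ f) + (g z - χ g) := by ring
    rw [e]
    linarith [norm_add_le (f z - χ f) (g z - χ g)]

theorem Cnt.mul (hχ : Chr Ω χ) {S : Set (X → ℂ)} {f g : X → ℂ} (hf : Cnt Ω χ S f)
    (hg : Cnt Ω χ S g) : Cnt Ω χ S (fun z => f z * g z) := by
  classical
  refine ⟨hf.1.mul hg.1, fun ε hε => ?_⟩
  obtain ⟨M, hM⟩ := hf.1.2
  have hM' : 0 < |M| + ‖χ g‖ + 1 := by positivity
  set C := |M| + ‖χ g‖ + 1 with hC
  obtain ⟨T, δ, hδ, hT, h1⟩ := hf.2 (ε / (2 * C)) (by positivity)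
  obtain ⟨T', δ', hδ', hT', h2⟩ := hg.2 (ε / (2 * C)) (by positivity)
  refine ⟨T ∪ T', min δ δ', lt_min hδ hδ', ?_, fun z hz h => ?_⟩
  · rw [Finset.coe_union]; exact union_subset hT hT'
  · rw [hχ.mul f g hf.1 hg.1]
    have a1 := h1 z hz (fun a ha => (h a (Finset.mem_union_left _ ha)).trans_le (min_le_left _ _))
    have a2 := h2 z hz (fun a ha => (h a (Finset.mem_union_right _ ha)).trans_le (min_le_right _ _))
    have e : f z * g z - χ f * χ g = f z * (g z - χ g) + (f z - χ f) * χ g := by ring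
    rw [e]
    have b1 : ‖f z * (g z - χ g)‖ ≤ |M| * (ε / (2 * C)) := by
      rw [norm_mul]
      have := (hM z hz).trans (le_abs_self M)
      gcongr
    have b2 : ‖(f z - χ f) * χ g‖ ≤ (ε / (2 * C)) * ‖χ g‖ := by
      rw [norm_mul]
      gcongr
    have b3 : |M| * (ε / (2 * C)) + (ε / (2 * C)) * ‖χ g‖ < ε := by
      have : |M| * (ε / (2 * C)) + (ε / (2 * C)) * ‖χ g‖ = ε * ((C - 1) / (2 * C)) := by
        rw [hC]; field_simp; ring
      rw [this]
      have h3 : (C - 1) / (2 * C) < 1 := by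
        rw [div_lt_one (by positivity)]
        linarith
      nlinarith
    linarith [norm_add_le (f z * (g z - χ g)) ((f z - χ f) * χ g)]

theorem Cnt.adjoin (hχ : Chr Ω χ) {S : Set (X → ℂ)} (hS : ∀ f ∈ S, BH Ω f) {f : X → ℂ}
    (hf : f ∈ Algebra.adjoin ℂ S) : Cnt Ω χ S f := by
  induction hf using Algebra.adjoin_induction with
  | mem x hx => exact Cnt.gen hx (hS x hx)
  | algebraMap r => exact Cnt.const hχ S r
  | add x y _ _ h1 h2 => exact h1.add hχ h2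
  | mul x y _ _ h1 h2 => exact h1.mul hχ h2

/-- uniform limits -/
theorem Cnt.closure (hχ : Chr Ω χ) {S : Set (X → ℂ)} {f : X → ℂ} (hf : BH Ω f)
    (h : ∀ ε : ℝ, 0 < ε → ∃ g, Cnt Ω χ S g ∧ ∀ z ∈ Ω, ‖f z - g z‖ ≤ ε) : Cnt Ω χ S f := by
  refine ⟨hf, fun ε hε => ?_⟩
  obtain ⟨g, hg, hfg⟩ := h (ε / 4) (by positivity)
  obtain ⟨T, δ, hδ, hT, h1⟩ := hg.2 (ε / 4) (by positivity)
  refine ⟨T, δ, hδ, hT, fun z hz h2 => ?_⟩
  have a1 := h1 z hz h2
  have a2 := hfg z hz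
  have a3 : ‖χ f - χ g‖ ≤ ε / 4 := by
    rw [← hχ.sub hf hg.1]
    exact hχ.le _ _ (hf.sub hg.1) (by positivity) hfg
  have e : f z - χ f = (f z - g z) + (g z - χ g) - (χ f - χ g) := by ring
  rw [e]
  have b1 := norm_sub_le ((f z - g z) + (g z - χ g)) (χ f - χ g)
  have b2 := norm_add_le (f z - g z) (g z - χ g)
  linarith

end

/-- bounded holomorphic functions killed by one of the vector fields with the localisation
property -/
def InvP (Ω : Set (ℂ × ℂ)) (f : ℂ × ℂ → ℂ) : Prop :=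
  BH Ω f ∧ ∃ V : ℂ × ℂ → ℂ × ℂ, LocProp Ω V ∧ ∀ z ∈ Ω, fderiv ℂ f z (V z) = 0

/-- **The localisation theorem in terms of characters.** -/
theorem char_contra {Ω : Set (ℂ × ℂ)} (hΩ : IsOpen Ω) {χ : (ℂ × ℂ → ℂ) → ℂ} (hχ : Chr Ω χ) {M : ℕ} {G : Fin M → ℂ × ℂ → ℂ}
    (hG : ∀ l, BH Ω (G l)) (hχG : ∀ l, χ (G l) = 0) (T : Finset (ℂ × ℂ → ℂ))
    (hT : ∀ a ∈ T, InvP Ω a) {δ : ℝ} (hδ : 0 < δ) {k : Fin M → ℂ × ℂ → ℂ}
    (hk : ∀ l, DifferentiableOn ℂ (k l) {z | z ∈ Ω ∧ ∀ a ∈ T, ‖a z - χ a‖ < δ}) {K : ℝ}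
    (hkb : ∀ l, ∀ z ∈ Ω, (∀ a ∈ T, ‖a z - χ a‖ < δ) → ‖k l z‖ ≤ K)
    (hGk : ∀ z ∈ Ω, (∀ a ∈ T, ‖a z - χ a‖ < δ) → ∑ l, G l z * k l z = 1) : False := by
  classical
  choose! Mb hMb using fun a (ha : a ∈ T) => (hT a ha).1.2
  choose MG hMG using fun l => (hG l).2
  set C : ℝ := 1 + ∑ a ∈ T, (|Mb a| + ‖χ a‖) with hC
  have hC0 : 0 < C := by positivity
  have hCa : ∀ a ∈ T, ∀ z ∈ Ω, ‖a z - χ a‖ ≤ C := by
    intro a ha z hz
    have h1 := Finset.single_le_sum (f := fun a => |Mb a| + ‖χ a‖) (fun b _ => by positivity) ha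
    have h2 := (hMb a ha z hz).trans (le_abs_self _)
    have h3 := norm_sub_le (a z) (χ a)
    linarith
  set D : ℝ := 1 + ∑ l, |MG l| with hD
  have hD0 : 0 < D := by positivity
  have hDl : ∀ l, ∀ z ∈ Ω, ‖G l z‖ ≤ D := by
    intro l z hz
    have h1 := Finset.single_le_sum (f := fun l => |MG l|) (fun b _ => by positivity)
      (Finset.mem_univ l)
    have h2 := (hMG l z hz).trans (le_abs_self _)
    linarith
  set n := T.card with hn
  set e : Fin n ≃ T := T.equivFin.symm with he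
  set a : Fin n → ℂ × ℂ → ℂ := fun i => (e i : ℂ × ℂ → ℂ) with ha
  have haT : ∀ i, a i ∈ T := fun i => (e i).2
  have hall : ∀ z, (∀ i, ‖a i z - χ (a i)‖ < δ) → ∀ b ∈ T, ‖b z - χ b‖ < δ := by
    intro z h b hb
    have := h (e.symm ⟨b, hb⟩)
    simp only [ha, Equiv.apply_symm_apply] at this
    exact this
  set ε : ℝ := min (δ / C) 1 with hε
  have hε0 : 0 < ε := lt_min (by positivity) one_pos
  have hsmall : ∀ z, (∀ i, ‖(C : ℂ)⁻¹ * (a i z - χ (a i))‖ < ε) → ∀ b ∈ T, ‖b z - χ b‖ < δ := by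
    intro z h
    refine hall z (fun i => ?_)
    have h1 := h i
    rw [norm_mul, norm_inv, Complex.norm_real, Real.norm_of_nonneg hC0.le, inv_mul_eq_div,
      div_lt_iff₀ hC0] at h1
    refine h1.trans_le ?_
    calc ε * C ≤ δ / C * C := by gcongr; exact min_le_left _ _
      _ = δ := by field_simp
  choose V hV hXa using fun i => (hT (a i) (haT i)).2
  obtain ⟨C', hC'⟩ := iter n M ε (D * max K 0) hε0 (min_le_right _ _) (by positivity)
  have had : ∀ i, DifferentiableOn ℂ (a i) Ω := fun i => (hT (a i) (haT i)).1.1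
  have hDc : (D : ℂ) ≠ 0 := by exact_mod_cast hD0.ne'
  obtain ⟨u, u1, u2, u3⟩ := hC' Ω V hV (fun i z => (C : ℂ)⁻¹ * (a i z - χ (a i)))
    (fun i => ((had i).sub_const _).const_mul _)
    (by
      intro i z hz
      rw [norm_mul, norm_inv, Complex.norm_real, Real.norm_of_nonneg hC0.le, inv_mul_eq_div,
        div_le_one hC0]
      exact hCa _ (haT i) z hz)
    (by
      intro i z hz
      have h1 : DifferentiableAt ℂ (a i) z := (had i).differentiableAt (hΩ.mem_nhds hz)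
      have h2 : HasFDerivAt (fun z => (C : ℂ)⁻¹ * (a i z - χ (a i))) ((C : ℂ)⁻¹ • fderiv ℂ (a i) z) z :=
        (h1.hasFDerivAt.sub_const _).const_mul _
      rw [h2.fderiv]
      simp [hXa i z hz])
    (fun l z => (D : ℂ)⁻¹ * G l z) (fun l z => (D : ℂ) * k l z)
    (fun l => (hG l).1.const_mul _)
    (by
      intro l z hz
      rw [norm_mul, norm_inv, Complex.norm_real, Real.norm_of_nonneg hD0.le, inv_mul_eq_div,
        div_le_one hD0]
      exact hDl l z hz)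
    (fun l => ((hk l).mono (fun z hz => ⟨hz.1, hsmall z hz.2⟩)).const_mul _)
    (by
      intro l z hz hz'
      rw [norm_mul, Complex.norm_real, Real.norm_of_nonneg hD0.le]
      have := (hkb l z hz (hsmall z hz')).trans (le_max_left K 0)
      gcongr)
    (by
      intro z hz hz'
      rw [← hGk z hz (hsmall z hz')]
      refine Finset.sum_congr rfl fun l _ => ?_
      field_simp)
  have hub : ∀ j, BH Ω (u j) := fun j => ⟨u1 j, C', u2 j⟩
  have hab : ∀ i, BH Ω (a i) := fun i => (hT (a i) (haT i)).1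
  have hΦ : ∀ j : Fin n ⊕ Fin M, BH Ω ((Sum.elim (fun i z => (C : ℂ)⁻¹ * (a i z - χ (a i)))
      (fun l z => (D : ℂ)⁻¹ * G l z) : Fin n ⊕ Fin M → ℂ × ℂ → ℂ) j) ∧
      χ ((Sum.elim (fun i z => (C : ℂ)⁻¹ * (a i z - χ (a i)))
      (fun l z => (D : ℂ)⁻¹ * G l z) : Fin n ⊕ Fin M → ℂ × ℂ → ℂ) j) = 0 := by
    rintro (i | l)
    · have h1 : BH Ω (fun z => a i z - χ (a i)) := (hab i).sub (BH.const _)
      refine ⟨(BH.const _).mul h1, ?_⟩
      simp only [Sum.elim_inl]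
      rw [hχ.mul (fun _ => (C : ℂ)⁻¹) (fun z => a i z - χ (a i)) (BH.const _) h1,
        hχ.sub (hab i) (BH.const _), hχ.const (χ (a i)), sub_self, mul_zero]
    · refine ⟨(BH.const _).mul (hG l), ?_⟩
      simp only [Sum.elim_inr]
      rw [hχ.mul (fun _ => (D : ℂ)⁻¹) (G l) (BH.const _) (hG l), hχG l, mul_zero]
  have h1 := hχ.sum Finset.univ (fun j => (hΦ j).1.mul (hub j))
  have h2 := hχ.congr _ (fun _ => 1) (BH.sum Finset.univ (fun j => (hΦ j).1.mul (hub j)))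
    (BH.const 1) u3
  rw [h1, hχ.const, Finset.sum_eq_zero] at h2
  · exact zero_ne_one h2
  · intro j _
    rw [hχ.mul _ _ (hΦ j).1 (hub j), (hΦ j).2, zero_mul]

end Pool.Agent.N290.R5
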