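import Mathlib
import Pool.Agent.N290.R5.Gel

/-!
The corona theorem for closed algebras, and its local version on the ball.
-/

set_option autoImplicit false

open Metric Set Filter Topology

namespace Pool.Agent.N290.R5

open Pool.Agent.N290.RC (B2 B2_open VX Xm VX_Xm Xm_sk Xm_ns GS)

/-- uniform limits of polynomials in functions killed by vector fields with the localisation
property -/
def ClA (Ω : Set (ℂ × ℂ)) (F : ℂ × ℂ → ℂ) : Prop :=
  ∀ ε : ℝ, 0 < ε → ∃ P ∈ Algebra.adjoin ℂ {f | InvP Ω f}, ∀ z ∈ Ω, ‖F z - P z‖ ≤ ε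

theorem ClA.cnt {Ω : Set (ℂ × ℂ)} {χ : (ℂ × ℂ → ℂ) → ℂ} (hχ : Chr Ω χ) {F : ℂ × ℂ → ℂ}
    (hF : BH Ω F) (h : ClA Ω F) : Cnt Ω χ {f | InvP Ω f} F := by
  refine Cnt.closure hχ hF fun ε hε => ?_
  obtain ⟨P, hP, hFP⟩ := h ε hε
  exact ⟨P, Cnt.adjoin hχ (fun f hf => hf.1) hP, hFP⟩

theorem adjoin_BH {Ω : Set (ℂ × ℂ)} {P : ℂ × ℂ → ℂ}
    (hP : P ∈ Algebra.adjoin ℂ {f | InvP Ω f}) : BH Ω P := by
  induction hP using Algebra.adjoin_induction with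
  | mem x hx => exact hx.1
  | algebraMap r => exact BH.const r
  | add x y _ _ h1 h2 => exact h1.add h2
  | mul x y _ _ h1 h2 => exact h1.mul h2

/-- uniform limits are bounded and holomorphic -/
theorem ClA.bh {Ω : Set (ℂ × ℂ)} (hΩ : IsOpen Ω) {F : ℂ × ℂ → ℂ} (h : ClA Ω F) : BH Ω F := by
  choose P hP hFP using fun n : ℕ => h (1 / ((n : ℝ) + 1)) (by positivity)
  obtain ⟨M, hM⟩ := (adjoin_BH (hP 0)).2
  have hF : ∀ z ∈ Ω, ‖F z‖ ≤ M + 1 := by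
    intro z hz
    have h1 := hFP 0 z hz
    have h2 := hM z hz
    have h3 := norm_add_le (F z - P 0 z) (P 0 z)
    rw [sub_add_cancel] at h3
    norm_num at h1
    linarith
  have hle1 : ∀ n : ℕ, 1 / ((n : ℝ) + 1) ≤ 1 := by
    intro n
    rw [div_le_one (by positivity)]
    have : (0 : ℝ) ≤ n := Nat.cast_nonneg n
    linarith
  obtain ⟨v, hv1, -, hv3⟩ := Pool.Agent.H720R2.Cor.ultra_lim hΩ (Ultrafilter.of (atTop : Filter ℕ))
    P (fun n => (adjoin_BH (hP n)).1) (C := M + 2) (by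
      intro n z hz
      have h1 := hFP n z hz
      have h2 := hF z hz
      have h3 := norm_sub_le (F z) (F z - P n z)
      rw [sub_sub_cancel] at h3
      have := hle1 n
      linarith)
  refine ⟨hv1.congr fun z hz => ?_, M + 1, hF⟩
  have h1 : Tendsto (fun n => P n z) atTop (𝓝 (F z)) := by
    rw [tendsto_iff_norm_sub_tendsto_zero]
    refine squeeze_zero (fun _ => norm_nonneg _) (fun n => ?_)
      tendsto_one_div_add_atTop_nhds_zero_nat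
    rw [norm_sub_rev]
    exact hFP n z hz
  exact tendsto_nhds_unique (h1.mono_left (Ultrafilter.of_le _)) (hv3 z hz)

/-- finitely many functions at once -/
theorem cnt_fin {X : Type} {Ω : Set X} {χ : (X → ℂ) → ℂ}
    {S : Set (X → ℂ)} {ι : Type} (J : Finset ι) {F : ι → X → ℂ} {ε : ℝ}
    (h : ∀ i ∈ J, ∃ (T : Finset (X → ℂ)) (δ : ℝ), 0 < δ ∧ (T : Set (X → ℂ)) ⊆ S ∧
      ∀ z ∈ Ω, (∀ a ∈ T, ‖a z - χ a‖ < δ) → ‖F i z‖ < ε) :
    ∃ (T : Finset (X → ℂ)) (δ : ℝ), 0 < δ ∧ (T : Set (X → ℂ)) ⊆ S ∧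
      ∀ z ∈ Ω, (∀ a ∈ T, ‖a z - χ a‖ < δ) → ∀ i ∈ J, ‖F i z‖ < ε := by
  classical
  induction J using Finset.induction_on with
  | empty =>
    exact ⟨∅, 1, one_pos, by simp, fun z _ _ i hi => absurd hi (Finset.notMem_empty _)⟩
  | insert i J hi ih =>
    obtain ⟨T, δ, hδ, hT, h1⟩ := ih (fun j hj => h j (Finset.mem_insert_of_mem hj))
    obtain ⟨T', δ', hδ', hT', h2⟩ := h i (Finset.mem_insert_self _ _)
    refine ⟨T ∪ T', min δ δ', lt_min hδ hδ', ?_, fun z hz h3 j hj => ?_⟩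
    · rw [Finset.coe_union]; exact union_subset hT hT'
    · rcases Finset.mem_insert.1 hj with rfl | hj
      · exact h2 z hz (fun a ha => (h3 a (Finset.mem_union_right _ ha)).trans_le (min_le_right _ _))
      · exact h1 z hz (fun a ha => (h3 a (Finset.mem_union_left _ ha)).trans_le (min_le_left _ _))
          j hj

/-- **Corona theorem with localisation for the closed algebra.** -/
theorem closed_thm {Ω : Set (ℂ × ℂ)} (hΩ : IsOpen Ω) {N M : ℕ} {F : Fin N → ℂ × ℂ → ℂ}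
    (hF : ∀ i, BH Ω (F i)) (hFA : ∀ i, ClA Ω (F i)) {G k : Fin M → ℂ × ℂ → ℂ}
    (hG : ∀ l, BH Ω (G l)) {ε K : ℝ} (hε : 0 < ε)
    (hk : ∀ l, DifferentiableOn ℂ (k l) {z | z ∈ Ω ∧ ∀ i, ‖F i z‖ < ε})
    (hkb : ∀ l, ∀ z ∈ Ω, (∀ i, ‖F i z‖ < ε) → ‖k l z‖ ≤ K)
    (hGk : ∀ z ∈ Ω, (∀ i, ‖F i z‖ < ε) → ∑ l, G l z * k l z = 1) :
    ∃ (g : Fin N → ℂ × ℂ → ℂ) (g₀ : Fin M → ℂ × ℂ → ℂ), (∀ i, BH Ω (g i)) ∧ (∀ l, BH Ω (g₀ l)) ∧
      ∀ z ∈ Ω, ∑ i, F i z * g i z + ∑ l, G l z * g₀ l z = 1 := by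
  rcases Ω.eq_empty_or_nonempty with rfl | hne
  · exact ⟨fun _ _ => 0, fun _ _ => 0, fun i => BH.const 0, fun l => BH.const 0,
      fun z hz => absurd hz (notMem_empty _)⟩
  by_contra hcon
  obtain ⟨χ, hχ, hχ0⟩ := gelf hΩ hne (κ := Fin N ⊕ Fin M) (φ := Sum.elim F G) (by
    rintro (i | l)
    · exact hF i
    · exact hG l) (by
    rintro ⟨g, hg, hs⟩
    refine hcon ⟨fun i => g (Sum.inl i), fun l => g (Sum.inr l), fun i => hg _, fun l => hg _,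
      fun z hz => ?_⟩
    have := hs z hz
    rw [Fintype.sum_sum_type] at this
    exact this)
  have hχF : ∀ i, χ (F i) = 0 := fun i => hχ0 (Sum.inl i)
  have hχG : ∀ l, χ (G l) = 0 := fun l => hχ0 (Sum.inr l)
  obtain ⟨T, δ, hδ, hT, h1⟩ := cnt_fin (Ω := Ω) (χ := χ) (S := {f | InvP Ω f})
    (Finset.univ : Finset (Fin N)) (F := F) (ε := ε) (fun i _ => by
      obtain ⟨T, δ, hδ, hT, h2⟩ := ((hFA i).cnt hχ (hF i)).2 ε hε
      refine ⟨T, δ, hδ, hT, fun z hz h3 => ?_⟩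
      have := h2 z hz h3
      rwa [hχF i, sub_zero] at this)
  have h2 : ∀ z ∈ Ω, (∀ a ∈ T, ‖a z - χ a‖ < δ) → ∀ i, ‖F i z‖ < ε := fun z hz h3 i =>
    h1 z hz h3 i (Finset.mem_univ _)
  exact char_contra hΩ hχ hG hχG T (fun a ha => hT ha) hδ
    (fun l => (hk l).mono (fun z hz => ⟨hz.1, h2 z hz.1 hz.2⟩))
    (fun l z hz hz' => hkb l z hz (h2 z hz hz')) (fun z hz hz' => hGk z hz (h2 z hz hz'))

/-! ### the ball -/

theorem fst_inv : InvP B2 (fun z => z.1) := by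
  have hb : BH B2 (fun z : ℂ × ℂ => z.1) := by
    refine ⟨differentiableOn_fst, 1, fun z hz => ?_⟩
    have : ‖z.1‖ ^ 2 + ‖z.2‖ ^ 2 < 1 := hz
    nlinarith [norm_nonneg z.1, sq_nonneg ‖z.2‖]
  refine ⟨hb, VX (Xm 0 0 0 0 1), (good_all (Xm_sk 0 0 0 0 1) (Xm_ns ?_)).loc, ?_⟩
  · rintro ⟨-, -, -, -, h⟩
    exact one_ne_zero h
  · intro z _
    have h1 : HasFDerivAt (fun z : ℂ × ℂ => z.1) (ContinuousLinearMap.fst ℂ ℂ ℂ) z :=
      hasFDerivAt_fst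
    rw [h1.fderiv, VX_Xm]
    simp

theorem snd_inv : InvP B2 (fun z => z.2) := by
  have hb : BH B2 (fun z : ℂ × ℂ => z.2) := by
    refine ⟨differentiableOn_snd, 1, fun z hz => ?_⟩
    have : ‖z.1‖ ^ 2 + ‖z.2‖ ^ 2 < 1 := hz
    nlinarith [norm_nonneg z.2, sq_nonneg ‖z.1‖]
  refine ⟨hb, VX (Xm 0 0 0 1 0), (good_all (Xm_sk 0 0 0 1 0) (Xm_ns ?_)).loc, ?_⟩
  · rintro ⟨-, -, -, h, -⟩
    exact one_ne_zero h
  · intro z _
    have h1 : HasFDerivAt (fun z : ℂ × ℂ => z.2) (ContinuousLinearMap.snd ℂ ℂ ℂ) z :=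
      hasFDerivAt_snd
    rw [h1.fderiv, VX_Xm]
    simp

theorem BH.pow {X : Type} [NormedAddCommGroup X] [NormedSpace ℂ X] {Ω : Set X} {f : X → ℂ}
    (hf : BH Ω f) (n : ℕ) : BH Ω (fun z => f z ^ n) := by
  induction n with
  | zero => simpa using BH.const (Ω := Ω) 1
  | succ n ih =>
    simp only [pow_succ]
    exact ih.mul hf

theorem Chr.pow {X : Type} [NormedAddCommGroup X] [NormedSpace ℂ X] {Ω : Set X}
    {χ : (X → ℂ) → ℂ} (hχ : Chr Ω χ) {f : X → ℂ}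
    (hf : BH Ω f) (n : ℕ) : χ (fun z => f z ^ n) = χ f ^ n := by
  induction n with
  | zero => simpa using hχ.const 1
  | succ n ih =>
    simp only [pow_succ]
    rw [← ih, ← hχ.mul _ _ (hf.pow n) hf]

/-- the pairing with `p` -/
noncomputable def Lp (p z : ℂ × ℂ) : ℂ := z.1 * starRingEnd ℂ p.1 + z.2 * starRingEnd ℂ p.2

theorem Lp_cs (p z : ℂ × ℂ) :
    ‖Lp p z‖ ^ 2 ≤ (‖p.1‖ ^ 2 + ‖p.2‖ ^ 2) * (‖z.1‖ ^ 2 + ‖z.2‖ ^ 2) := by
  have h1 : ‖Lp p z‖ ≤ ‖z.1‖ * ‖p.1‖ + ‖z.2‖ * ‖p.2‖ := by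
    unfold Lp
    refine (norm_add_le _ _).trans (le_of_eq ?_)
    rw [norm_mul, norm_mul, RCLike.norm_conj, RCLike.norm_conj]
  have h2 : ‖Lp p z‖ ^ 2 ≤ (‖z.1‖ * ‖p.1‖ + ‖z.2‖ * ‖p.2‖) ^ 2 := by
    gcongr
  nlinarith [sq_nonneg (‖z.1‖ * ‖p.2‖ - ‖z.2‖ * ‖p.1‖)]

theorem Lp_BH (p : ℂ × ℂ) : BH B2 (Lp p) := by
  unfold Lp
  exact (fst_inv.1.mul (BH.const _)).add (snd_inv.1.mul (BH.const _))

theorem Lp_re (p z : ℂ × ℂ) : 2 * (Lp p z).re = ‖z.1‖ ^ 2 + ‖z.2‖ ^ 2 + (‖p.1‖ ^ 2 + ‖p.2‖ ^ 2) -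
    (‖z.1 - p.1‖ ^ 2 + ‖z.2 - p.2‖ ^ 2) := by
  unfold Lp
  have h : ∀ a b : ℂ, ‖a - b‖ ^ 2 = ‖a‖ ^ 2 + ‖b‖ ^ 2 - 2 * (a * starRingEnd ℂ b).re := by
    intro a b
    rw [← Complex.normSq_eq_norm_sq, ← Complex.normSq_eq_norm_sq, ← Complex.normSq_eq_norm_sq,
      Complex.normSq_sub]
  rw [h, h, Complex.add_re]
  ring

theorem chr_Lp {χ : (ℂ × ℂ → ℂ) → ℂ} (hχ : Chr B2 χ) (p : ℂ × ℂ) :
    χ (Lp p) = Lp p (χ (fun z => z.1), χ (fun z => z.2)) := by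
  have h1 := hχ.add _ _ (fst_inv.1.mul (BH.const (starRingEnd ℂ p.1)))
    (snd_inv.1.mul (BH.const (starRingEnd ℂ p.2)))
  rw [hχ.mul _ _ fst_inv.1 (BH.const _), hχ.mul _ _ snd_inv.1 (BH.const _), hχ.const,
    hχ.const] at h1
  exact h1

/-- characters over boundary points -/
theorem peak {χ : (ℂ × ℂ → ℂ) → ℂ} (hχ : Chr B2 χ) {p : ℂ × ℂ}
    (hp : p = (χ (fun z => z.1), χ (fun z => z.2))) (hp1 : ‖p.1‖ ^ 2 + ‖p.2‖ ^ 2 = 1)
    {h : ℂ × ℂ → ℂ} (hh : BH B2 h) (h0 : Tendsto h (𝓝[B2] p) (𝓝 0)) : χ h = 0 := by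
  have hχP : χ (Lp p) = 1 := by
    rw [chr_Lp hχ, ← hp]
    unfold Lp
    rw [Complex.mul_conj, Complex.mul_conj, Complex.normSq_eq_norm_sq, Complex.normSq_eq_norm_sq]
    exact_mod_cast hp1
  set P : ℂ × ℂ → ℂ := fun z => (1 / 2 : ℂ) * (1 + Lp p z) with hP
  have hPb : BH B2 P := (BH.const _).mul ((BH.const 1).add (Lp_BH p))
  have hχP' : χ P = 1 := by
    rw [hP, hχ.mul (fun _ => (1 / 2 : ℂ)) (fun z => 1 + Lp p z) (BH.const _)
      ((BH.const 1).add (Lp_BH p)), hχ.add (fun _ => 1) (Lp p) (BH.const 1) (Lp_BH p), hχ.const,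
      hχ.const, hχP]
    norm_num
  obtain ⟨M, hM⟩ := hh.2
  have hL1 : ∀ z ∈ B2, ‖Lp p z‖ ≤ 1 := by
    intro z hz
    have h1 := Lp_cs p z
    have h2 : ‖z.1‖ ^ 2 + ‖z.2‖ ^ 2 < 1 := hz
    rw [hp1, one_mul] at h1
    nlinarith [norm_nonneg (Lp p z)]
  have key : ∀ η : ℝ, 0 < η → ‖χ h‖ ≤ η := by
    intro η hη
    have h1 : ∀ᶠ z in 𝓝[B2] p, ‖h z‖ < η := by
      have := h0.norm
      rw [norm_zero] at this
      exact this.eventually (gt_mem_nhds hη)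
    rw [eventually_nhdsWithin_iff, Metric.eventually_nhds_iff] at h1
    obtain ⟨δ, hδ, h1⟩ := h1
    set r : ℝ := √(1 - min (δ ^ 2) 1 / 4) with hr
    have hm0 : 0 < min (δ ^ 2) 1 := lt_min (by positivity) one_pos
    have hm1 : min (δ ^ 2) 1 ≤ 1 := min_le_right _ _
    have hr1 : r < 1 := by
      rw [hr, Real.sqrt_lt' one_pos]
      linarith
    have hr0 : 0 ≤ r := Real.sqrt_nonneg _
    have hPle : ∀ z ∈ B2, ‖P z‖ ≤ 1 := by
      intro z hz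
      simp only [hP]
      rw [norm_mul]
      have := norm_add_le 1 (Lp p z)
      rw [norm_one] at this
      have h3 := hL1 z hz
      norm_num
      linarith
    have hfar : ∀ z ∈ B2, δ ≤ dist z p → ‖P z‖ ≤ r := by
      intro z hz hd
      apply Real.le_sqrt_of_sq_le
      have h2 : ‖z.1‖ ^ 2 + ‖z.2‖ ^ 2 < 1 := hz
      have h3 := Lp_re p z
      have h4 : δ ^ 2 ≤ ‖z.1 - p.1‖ ^ 2 + ‖z.2 - p.2‖ ^ 2 := by
        rw [Prod.dist_eq, dist_eq_norm, dist_eq_norm] at hd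
        rcases le_max_iff.1 hd with h | h
        · have : δ ^ 2 ≤ ‖z.1 - p.1‖ ^ 2 := by gcongr
          linarith [sq_nonneg ‖z.2 - p.2‖]
        · have : δ ^ 2 ≤ ‖z.2 - p.2‖ ^ 2 := by gcongr
          linarith [sq_nonneg ‖z.1 - p.1‖]
      have h5 : ‖P z‖ ^ 2 = (1 + 2 * (Lp p z).re + ‖Lp p z‖ ^ 2) / 4 := by
        simp only [hP]
        rw [norm_mul, mul_pow, ← Complex.normSq_eq_norm_sq (1 + Lp p z), Complex.normSq_add]
        norm_num
        rw [Complex.normSq_eq_norm_sq]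
        ring
      rw [h5]
      have h6 := hL1 z hz
      have h7 : ‖Lp p z‖ ^ 2 ≤ 1 := by nlinarith [norm_nonneg (Lp p z)]
      have h8 := min_le_left (δ ^ 2) 1
      linarith
    have h3 : Tendsto (fun n : ℕ => |M| * r ^ n) atTop (𝓝 0) := by
      have := (tendsto_pow_atTop_nhds_zero_of_lt_one hr0 hr1).const_mul |M|
      rwa [mul_zero] at this
    obtain ⟨n, hn⟩ := (h3.eventually (gt_mem_nhds hη)).exists
    have h4 : χ h = χ (fun z => h z * P z ^ n) := by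
      rw [hχ.mul h (fun z => P z ^ n) hh (hPb.pow n), hχ.pow hPb, hχP', one_pow, mul_one]
    rw [h4]
    refine hχ.le _ _ (hh.mul (hPb.pow n)) hη.le fun z hz => ?_
    rw [norm_mul, norm_pow]
    by_cases hd : dist z p < δ
    · have h5 := (h1 hd hz).le
      have h6 : ‖P z‖ ^ n ≤ 1 := pow_le_one₀ (norm_nonneg _) (hPle z hz)
      calc ‖h z‖ * ‖P z‖ ^ n ≤ η * 1 := by gcongr
        _ = η := mul_one _
    · push Not at hd
      have h5 := (hM z hz).trans (le_abs_self M)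
      have h6 := hfar z hz hd
      calc ‖h z‖ * ‖P z‖ ^ n ≤ |M| * r ^ n := by gcongr
        _ ≤ η := hn.le
  have h1 : ‖χ h‖ ≤ 0 := le_of_forall_pos_le_add fun η hη => by
    rw [zero_add]; exact key η hη
  exact norm_le_zero_iff.1 h1

/-- **The local version on the ball.** -/
theorem local_thm {N : ℕ} {f : Fin N → ℂ × ℂ → ℂ} (hf : ∀ j, BH B2 (f j))
    (hz : ∀ z ∈ B2, ∃ j, f j z ≠ 0)
    (hp : ∀ p : ℂ × ℂ, ‖p.1‖ ^ 2 + ‖p.2‖ ^ 2 = 1 → ∃ (S : Finset (Fin N))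
      (F k : Fin N → ℂ × ℂ → ℂ) (ρ ε K : ℝ), 0 < ρ ∧ 0 < ε ∧
      (∀ j ∈ S, BH B2 (F j) ∧ ClA B2 (F j) ∧ Tendsto (fun z => f j z - F j z) (𝓝[B2] p) (𝓝 0)) ∧
      (∀ l, DifferentiableOn ℂ (k l)
        {z | z ∈ B2 ∧ ‖z.1 - p.1‖ ^ 2 + ‖z.2 - p.2‖ ^ 2 < ρ ^ 2 ∧ ∀ j ∈ S, ‖f j z‖ < ε}) ∧
      ∀ z ∈ B2, ‖z.1 - p.1‖ ^ 2 + ‖z.2 - p.2‖ ^ 2 < ρ ^ 2 → (∀ j ∈ S, ‖f j z‖ < ε) →
        (∀ l, ‖k l z‖ ≤ K) ∧ ∑ l, f l z * k l z = 1) :
    ∃ g : Fin N → ℂ × ℂ → ℂ, (∀ j, BH B2 (g j)) ∧ ∀ z ∈ B2, ∑ j, f j z * g j z = 1 := by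
  classical
  by_contra hcon
  obtain ⟨χ, hχ, hχ0⟩ := gelf B2_open ⟨(0, 0), by simp [B2]⟩ hf hcon
  obtain ⟨p, hpdef⟩ : ∃ p : ℂ × ℂ, p = (χ (fun z => z.1), χ (fun z => z.2)) := ⟨_, rfl⟩
  have hp1 : χ (fun z => z.1) = p.1 := by rw [hpdef]
  have hp2 : χ (fun z => z.2) = p.2 := by rw [hpdef]
  -- `p` is in the closed ball
  have hle : ‖p.1‖ ^ 2 + ‖p.2‖ ^ 2 ≤ 1 := by
    set A : ℝ := ‖p.1‖ ^ 2 + ‖p.2‖ ^ 2 with hA
    have hA0 : 0 ≤ A := by positivity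
    have h1 : ‖χ (Lp p)‖ ≤ √A := by
      refine hχ.le _ _ (Lp_BH p) (Real.sqrt_nonneg _) fun z hz => ?_
      apply Real.le_sqrt_of_sq_le
      have h2 : ‖z.1‖ ^ 2 + ‖z.2‖ ^ 2 < 1 := hz
      refine (Lp_cs p z).trans ?_
      rw [← hA]
      nlinarith
    have h2 : χ (Lp p) = (A : ℂ) := by
      rw [chr_Lp hχ, ← hpdef]
      unfold Lp
      rw [Complex.mul_conj, Complex.mul_conj, Complex.normSq_eq_norm_sq,
        Complex.normSq_eq_norm_sq, hA]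
      push_cast
      ring
    rw [h2, Complex.norm_real, Real.norm_of_nonneg hA0] at h1
    have h3 : A ^ 2 ≤ A := by
      have := Real.sq_sqrt hA0
      nlinarith [Real.sqrt_nonneg A]
    nlinarith
  have hTs : ((({fun z => z.1, fun z => z.2} : Finset (ℂ × ℂ → ℂ)) : Finset (ℂ × ℂ → ℂ)) :
      Set (ℂ × ℂ → ℂ)) ⊆ {f | InvP B2 f} := by
    intro a ha
    rw [Finset.coe_insert, Finset.coe_singleton] at ha
    rcases ha with rfl | ha
    · exact fst_inv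
    · rw [mem_singleton_iff] at ha
      subst ha
      exact snd_inv
  have hnear : ∀ (δ : ℝ) (z : ℂ × ℂ), (∀ a ∈ ({fun z => z.1, fun z => z.2} : Finset (ℂ × ℂ → ℂ)),
      ‖a z - χ a‖ < δ) → ‖z.1 - p.1‖ < δ ∧ ‖z.2 - p.2‖ < δ := by
    intro δ z h
    have h1 := h (fun z => z.1) (by simp)
    have h2 := h (fun z => z.2) (by simp)
    rw [hp1] at h1
    rw [hp2] at h2
    exact ⟨h1, h2⟩
  rcases hle.lt_or_eq with hlt | heq
  · -- interior points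
    obtain ⟨j, hj⟩ := hz p hlt
    have hc : ContinuousAt (fun z => ‖f j z‖) p :=
      ((hf j).1.continuousOn.continuousAt (B2_open.mem_nhds hlt)).norm
    have hj' : ‖f j p‖ / 2 < ‖f j p‖ := by
      have : 0 < ‖f j p‖ := norm_pos_iff.2 hj
      linarith
    have h1 : ∀ᶠ z in 𝓝 p, ‖f j p‖ / 2 < ‖f j z‖ := hc.eventually (lt_mem_nhds hj')
    obtain ⟨δ, hδ, h1⟩ := Metric.eventually_nhds_iff.1 h1
    have hd : ∀ z, (∀ a ∈ ({fun z => z.1, fun z => z.2} : Finset (ℂ × ℂ → ℂ)),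
      ‖a z - χ a‖ < δ) → ‖f j p‖ / 2 < ‖f j z‖ := by
      intro z h
      obtain ⟨h2, h3⟩ := hnear δ z h
      apply h1
      rw [Prod.dist_eq, dist_eq_norm, dist_eq_norm]
      exact max_lt h2 h3
    have hne : ∀ z, (∀ a ∈ ({fun z => z.1, fun z => z.2} : Finset (ℂ × ℂ → ℂ)),
      ‖a z - χ a‖ < δ) → f j z ≠ 0 := by
      intro z h h0
      have := hd z h
      rw [h0, norm_zero] at this
      have := norm_nonneg (f j p)
      linarith
    refine char_contra B2_open hχ hf hχ0 {fun z => z.1, fun z => z.2} (fun a ha => hTs ha) hδ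
      (k := fun l z => if l = j then (f j z)⁻¹ else 0) (K := (‖f j p‖ / 2)⁻¹) ?_ ?_ ?_
    · intro l
      by_cases hl : l = j
      · simp only [hl, if_true]
        exact ((hf j).1.mono (fun z hz => hz.1)).inv (fun z hz => hne z hz.2)
      · simp only [hl, if_false]
        exact differentiableOn_const _
    · intro l z _ hz'
      by_cases hl : l = j
      · simp only [hl, if_true]
        rw [norm_inv]
        have h5 := hd z hz'
        have h6 : 0 < ‖f j p‖ / 2 := by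
          have : 0 < ‖f j p‖ := norm_pos_iff.2 hj
          positivity
        exact inv_anti₀ h6 h5.le
      · simp only [hl, if_false, norm_zero]
        positivity
    · intro z _ hz'
      simp only [mul_ite, mul_zero, Finset.sum_ite_eq', Finset.mem_univ, if_true]
      exact mul_inv_cancel₀ (hne z hz')
  · -- boundary points
    obtain ⟨S, F, k, ρ, ε, K, hρ, hε, hS, hk, hkz⟩ := hp p heq
    obtain ⟨T, δ, hδ, hT, h1⟩ := cnt_fin (Ω := B2) (χ := χ) (S := {f | InvP B2 f}) S (F := f)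
      (ε := ε) (fun j hj => by
        obtain ⟨hF1, hF2, hF3⟩ := hS j hj
        have hχF : χ (F j) = 0 := by
          have h2 := peak hχ hpdef heq ((hf j).sub hF1) hF3
          rw [hχ.sub (hf j) hF1, hχ0 j, zero_sub, neg_eq_zero] at h2
          exact h2
        obtain ⟨T, δ, hδ, hT, h2⟩ := (hF2.cnt hχ hF1).2 (ε / 2) (by positivity)
        have h3 : ∀ᶠ z in 𝓝[B2] p, ‖f j z - F j z‖ < ε / 2 := by
          have := hF3.norm
          rw [norm_zero] at this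
          exact this.eventually (gt_mem_nhds (by positivity))
        rw [eventually_nhdsWithin_iff, Metric.eventually_nhds_iff] at h3
        obtain ⟨δ', hδ', h3⟩ := h3
        refine ⟨T ∪ {fun z => z.1, fun z => z.2}, min δ δ', lt_min hδ hδ', ?_, fun z hz h4 => ?_⟩
        · rw [Finset.coe_union]; exact union_subset hT hTs
        · have h5 := h2 z hz (fun a ha => (h4 a (Finset.mem_union_left _ ha)).trans_le
            (min_le_left _ _))
          rw [hχF, sub_zero] at h5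
          obtain ⟨h6, h7⟩ := hnear δ' z (fun a ha => (h4 a (Finset.mem_union_right _ ha)).trans_le
            (min_le_right _ _))
          have h8 : dist z p < δ' := by
            rw [Prod.dist_eq, dist_eq_norm, dist_eq_norm]
            exact max_lt h6 h7
          have h9 := h3 h8 hz
          have h10 := norm_add_le (f j z - F j z) (F j z)
          rw [sub_add_cancel] at h10
          linarith)
    have h2 : ∀ z ∈ B2, (∀ a ∈ T ∪ {fun z => z.1, fun z => z.2},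
        ‖a z - χ a‖ < min δ (ρ / 2)) → ‖z.1 - p.1‖ ^ 2 + ‖z.2 - p.2‖ ^ 2 < ρ ^ 2 ∧
          ∀ j ∈ S, ‖f j z‖ < ε := by
      intro z hz h4
      refine ⟨?_, h1 z hz (fun a ha => (h4 a (Finset.mem_union_left _ ha)).trans_le
            (min_le_left _ _))⟩
      obtain ⟨h6, h7⟩ := hnear (ρ / 2) z (fun a ha =>
        (h4 a (Finset.mem_union_right _ ha)).trans_le (min_le_right _ _))
      have h8 := norm_nonneg (z.1 - p.1)
      have h9 := norm_nonneg (z.2 - p.2)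
      nlinarith
    refine char_contra B2_open hχ hf hχ0 (T ∪ {fun z => z.1, fun z => z.2}) (fun a ha => ?_)
      (δ := min δ (ρ / 2)) (lt_min hδ (by positivity)) (k := k) (K := K) ?_ ?_ ?_
    · rcases Finset.mem_union.1 ha with ha | ha
      · exact hT ha
      · exact hTs ha
    · intro l
      exact (hk l).mono (fun z hz => ⟨hz.1, h2 z hz.1 hz.2⟩)
    · intro l z hz hz'
      exact (hkz z hz (h2 z hz hz').1 (h2 z hz hz').2).1 l
    · intro z hz hz'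
      exact (hkz z hz (h2 z hz hz').1 (h2 z hz hz').2).2

end Pool.Agent.N290.R5
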